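import Pool.Agent.Lib.MP_9cae81_PC.Res

/-!
# Facts for one formula, in an abstract system

`X`: states (formulas up to equivalence), `L`: literals, `iu a x`: add the unit clause `a`,
`ip a b x`: add the clause `a ∨ b`, `it a b c x`: add the clause `a ∨ b ∨ c`, `un x`: indicator of
unsatisfiability.
-/

set_option autoImplicit false
set_option linter.unusedSectionVars false

open Finset
open scoped BigOperators

namespace Pool.Agent.Lib.MP_9cae81_PC

/-- States with the operations 'add a unit / pair / triple clause'. -/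
structure Sys (X L : Type) where
  iu : L → X → X
  ip : L → L → X → X
  it : L → L → L → X → X
  un : X → ℝ
  cuu : ∀ a b x, iu a (iu b x) = iu b (iu a x)
  cup : ∀ a b c x, iu a (ip b c x) = ip b c (iu a x)
  cut : ∀ a b c d x, iu a (it b c d x) = it b c d (iu a x)
  un01 : ∀ x, un x = 0 ∨ un x = 1
  mono : ∀ a x, un x ≤ un (iu a x)
  pair : ∀ a b x, un (ip a b x) = un (iu a x) * un (iu b x)
  trip : ∀ a b c x, un (it a b c x) = un (iu a x) * un (iu b x) * un (iu c x)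

variable {X L : Type} [Fintype L]

namespace Sys

variable (S : Sys X L)

/-- Average over a uniform unit clause. -/
noncomputable def P1 (h : X → ℝ) (x : X) : ℝ := (∑ a : L, h (S.iu a x)) / Fintype.card L

/-- Average over a uniform ordered pair clause. -/
noncomputable def P2 (h : X → ℝ) (x : X) : ℝ :=
  (∑ a : L, ∑ b : L, h (S.ip a b x)) / (Fintype.card L : ℝ) ^ 2

/-- Average over a uniform ordered triple clause. -/
noncomputable def P3 (h : X → ℝ) (x : X) : ℝ :=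
  (∑ a : L, ∑ b : L, ∑ c : L, h (S.it a b c x)) / (Fintype.card L : ℝ) ^ 3

/-- The resolvent: average of `G` after a geometric number of uniform unit clauses. -/
noncomputable def R (q : ℝ) (G : X → ℝ) (x : X) : ℝ := (1 - q) * ∑' k : ℕ, q ^ k * (S.P1^[k] G) x

/-- `v`. -/
noncomputable def v (q : ℝ) (x : X) : ℝ := S.R q S.un x

/-- Fraction of killing literals. -/
noncomputable def f (x : X) : ℝ := (∑ a : L, (S.un (S.iu a x) - S.un x)) / Fintype.card L

/-- Increment of `v` under a unit clause. -/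
noncomputable def dl (q : ℝ) (a : L) (x : X) : ℝ := S.v q (S.iu a x) - S.v q x

/-- The probabilities of the unit clauses. -/
noncomputable def pu : L → ℝ := fun _ => 1 / Fintype.card L

theorem pu_pr [Nonempty L] : Pr (pu : L → ℝ) where
  nn := fun a => by unfold pu; positivity
  one := by
    unfold pu
    rw [Finset.sum_const, Finset.card_univ, nsmul_eq_mul]
    have : (0 : ℝ) < Fintype.card L := by exact_mod_cast Fintype.card_pos
    field_simp

theorem P1_eq : S.P1 = PP pu S.iu := by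
  funext h x
  unfold P1 PP pu
  rw [Finset.sum_div]
  exact Finset.sum_congr rfl fun a _ => by ring

theorem R_eq (q : ℝ) : S.R q = RV pu S.iu q := by
  funext h x
  unfold R RV
  rw [P1_eq]

theorem un_nonneg (x : X) : 0 ≤ S.un x := by
  rcases S.un01 x with h | h <;> simp [h]

theorem un_le_one (x : X) : S.un x ≤ 1 := by
  rcases S.un01 x with h | h <;> simp [h]

theorem bd_un : Bd 1 S.un := fun x => by
  rw [abs_of_nonneg (S.un_nonneg x)]
  exact S.un_le_one x

section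

variable [Nonempty L] {q : ℝ}

theorem R_nonneg (hq : 0 ≤ q) (hq1 : q < 1) {G : X → ℝ} {M : ℝ} (hG : Bd M G)
    (h : ∀ x, 0 ≤ G x) (x : X) : 0 ≤ S.R q G x := by
  rw [R_eq]; exact RV_nonneg pu_pr hq hq1 hG h x

theorem R_mono (hq : 0 ≤ q) (hq1 : q < 1) {G G' : X → ℝ} {M M' : ℝ} (hG : Bd M G) (hG' : Bd M' G')
    (h : ∀ x, G x ≤ G' x) (x : X) : S.R q G x ≤ S.R q G' x := by
  rw [R_eq]; exact RV_mono pu_pr hq hq1 hG hG' h x

theorem R_sub (hq : 0 ≤ q) (hq1 : q < 1) {G G' : X → ℝ} {M M' : ℝ} (hG : Bd M G) (hG' : Bd M' G')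
    (x : X) : S.R q (fun y => G y - G' y) x = S.R q G x - S.R q G' x := by
  rw [R_eq]; exact RV_sub pu_pr hq hq1 hG hG' x

theorem R_add (hq : 0 ≤ q) (hq1 : q < 1) {G G' : X → ℝ} {M M' : ℝ} (hG : Bd M G) (hG' : Bd M' G')
    (x : X) : S.R q (fun y => G y + G' y) x = S.R q G x + S.R q G' x := by
  rw [R_eq]; exact RV_add pu_pr hq hq1 hG hG' x

theorem R_const (hq : 0 ≤ q) (hq1 : q < 1) (c : ℝ) (x : X) : S.R q (fun _ => c) x = c := by
  rw [R_eq]; exact RV_const pu_pr hq hq1 c x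

theorem R_le (hq : 0 ≤ q) (hq1 : q < 1) {G : X → ℝ} {M c : ℝ} (hG : Bd M G)
    (h : ∀ x, G x ≤ c) (x : X) : S.R q G x ≤ c := by
  rw [R_eq]; exact RV_le pu_pr hq hq1 hG h x

theorem P1_R (hq : 0 < q) (hq1 : q < 1) {G : X → ℝ} {M : ℝ} (hG : Bd M G) (x : X) :
    S.P1 (S.R q G) x = S.R q G x + (1 - q) / q * (S.R q G x - G x) := by
  rw [R_eq, P1_eq]; exact PP_RV pu_pr hq hq1 hG x

/-- The resolvent commutes with every map of states that commutes with the unit clauses. -/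
theorem R_comm {G : X → ℝ} {φ : X → X} (hφ : ∀ a x, S.iu a (φ x) = φ (S.iu a x)) (x : X) :
    S.R q G (φ x) = S.R q (fun y => G (φ y)) x := by
  rw [R_eq]; exact RV_comm hφ x

/-! ### `v` -/

theorem v_nonneg (hq : 0 ≤ q) (hq1 : q < 1) (x : X) : 0 ≤ S.v q x :=
  S.R_nonneg hq hq1 S.bd_un S.un_nonneg x

theorem v_le_one (hq : 0 ≤ q) (hq1 : q < 1) (x : X) : S.v q x ≤ 1 :=
  S.R_le hq hq1 S.bd_un S.un_le_one x

theorem un_iu {x : X} (h : S.un x = 1) (a : L) : S.un (S.iu a x) = 1 :=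
  le_antisymm (S.un_le_one _) (h ▸ S.mono a x)

theorem v_of_un (hq : 0 ≤ q) (hq1 : q < 1) {x : X} (h : S.un x = 1) : S.v q x = 1 := by
  unfold v
  rw [R_eq]
  exact RV_eq_on (Z := fun y => S.un y = 1) pu_pr hq hq1 (fun y a hy => S.un_iu hy a)
    (fun y hy => hy) h

theorem P1_v (hq : 0 < q) (hq1 : q < 1) (x : X) :
    S.P1 (S.v q) x = S.v q x + (1 - q) / q * (S.v q x - S.un x) :=
  S.P1_R hq hq1 S.bd_un x

/-- Monotonicity under a map of states that commutes with the units and increases `un`. -/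
theorem v_le_map (hq : 0 ≤ q) (hq1 : q < 1) {φ : X → X}
    (hφ : ∀ a x, S.iu a (φ x) = φ (S.iu a x)) (hu : ∀ x, S.un x ≤ S.un (φ x)) (x : X) :
    S.v q x ≤ S.v q (φ x) := by
  unfold v
  rw [S.R_comm hφ]
  exact S.R_mono hq hq1 S.bd_un (M' := 1) (fun y => S.bd_un (φ y)) hu x

theorem dl_nonneg (hq : 0 ≤ q) (hq1 : q < 1) (a : L) (x : X) : 0 ≤ S.dl q a x := by
  have := S.v_le_map hq hq1 (φ := S.iu a) (fun b y => S.cuu b a y) (S.mono a) x
  unfold dl
  linarith

/-- The average of `g (iu a x) - g x`. -/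
theorem P1_sub_self (g : X → ℝ) (x : X) :
    S.P1 g x - g x = (∑ a : L, (g (S.iu a x) - g x)) / Fintype.card L := by
  unfold P1
  rw [Finset.sum_sub_distrib, Finset.sum_const, Finset.card_univ, nsmul_eq_mul]
  have : (Fintype.card L : ℝ) ≠ 0 := by exact_mod_cast Fintype.card_ne_zero
  field_simp

/-- `E_z Δ_z v = μ (v - un)`. -/
theorem avg_dl (hq : 0 < q) (hq1 : q < 1) (x : X) :
    (∑ a : L, S.dl q a x) / Fintype.card L = (1 - q) / q * (S.v q x - S.un x) := by
  have h1 := S.P1_sub_self (S.v q) x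
  have h2 := S.P1_v hq hq1 x
  unfold dl
  rw [← h1, h2]
  ring

theorem f_eq (x : X) : S.f x = S.P1 S.un x - S.un x := by
  rw [P1_sub_self]; rfl

theorem f_nonneg (x : X) : 0 ≤ S.f x := by
  unfold f
  exact div_nonneg (Finset.sum_nonneg fun a _ => by linarith [S.mono a x]) (by positivity)

theorem f_of_un {x : X} (h : S.un x = 1) : S.f x = 0 := by
  unfold f
  rw [Finset.sum_eq_zero fun a _ => by rw [S.un_iu h a, h, sub_self], zero_div]

theorem un_le_v (hq : 0 ≤ q) (hq1 : q < 1) (x : X) : S.un x ≤ S.v q x := by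
  rcases S.un01 x with h | h
  · rw [h]; exact S.v_nonneg hq hq1 x
  · rw [h, S.v_of_un hq hq1 h]

/-- `v ≤ q` on satisfiable states. -/
theorem v_le_q (hq : 0 < q) (hq1 : q < 1) {x : X} (h : S.un x = 0) : S.v q x ≤ q := by
  have h1 := S.P1_v hq hq1 x
  have h2 : S.P1 (S.v q) x ≤ 1 := by
    rw [P1_eq]
    have := PP_mono (act := S.iu) (pu_pr (L := L)) (fun y => S.v_le_one hq.le hq1 y) x
    rwa [PP_const pu_pr] at this
  rw [h, sub_zero] at h1
  have h3 : S.v q x + (1 - q) / q * S.v q x = S.v q x / q := by field_simp; ring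
  rw [h3] at h1
  rw [h1, div_le_one hq] at h2
  exact h2

/-- `v - un = μ⁻¹ (P1 v - v)`, and the series `v - un = ∑_k q^(k+1) P1^k f`. -/
theorem v_sub_un (hq : 0 ≤ q) (hq1 : q < 1) (x : X) :
    S.v q x - S.un x = ∑' k : ℕ, q ^ (k + 1) * (S.P1^[k] S.f) x := by
  have hs : Summable fun k : ℕ => q ^ k * (S.P1^[k] S.un) x := by
    rw [P1_eq]; exact RV_summable pu_pr hq hq1 S.bd_un x
  have hs1 : Summable fun k : ℕ => q ^ (k + 1) * (S.P1^[k + 1] S.un) x :=
    (summable_nat_add_iff 1).2 hs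
  have hs2 : Summable fun k : ℕ => q ^ (k + 1) * (S.P1^[k] S.un) x := by
    have := hs.mul_left q
    refine this.congr fun k => ?_
    rw [pow_succ]; ring
  have hf : ∀ k : ℕ, (S.P1^[k] S.f) x = (S.P1^[k + 1] S.un) x - (S.P1^[k] S.un) x := by
    intro k
    have e : S.f = fun y => S.P1 S.un y + (-1) * S.un y := by
      funext y; rw [f_eq]; ring
    rw [e, P1_eq, iter_add, iter_mul, ← Function.iterate_succ_apply]
    ring
  rw [tsum_congr fun k => by rw [hf k, mul_sub], hs1.tsum_sub hs2]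
  have h1 : ∑' k : ℕ, q ^ (k + 1) * (S.P1^[k + 1] S.un) x =
      (∑' k : ℕ, q ^ k * (S.P1^[k] S.un) x) - S.un x := by
    rw [hs.tsum_eq_zero_add]
    simp
  have h2 : ∑' k : ℕ, q ^ (k + 1) * (S.P1^[k] S.un) x =
      q * ∑' k : ℕ, q ^ k * (S.P1^[k] S.un) x := by
    rw [← tsum_mul_left]
    exact tsum_congr fun k => by rw [pow_succ]; ring
  rw [h1, h2]
  unfold v R
  ring

/-! ### `s = v - un`, i.e. `v 1_SAT` -/

/-- `v` on satisfiable states, `0` on unsatisfiable ones. -/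
noncomputable def s (S : Sys X L) (q : ℝ) (x : X) : ℝ := S.v q x - S.un x

theorem s_nonneg (hq : 0 ≤ q) (hq1 : q < 1) (x : X) : 0 ≤ S.s q x := by
  unfold s; linarith [S.un_le_v hq hq1 x]

theorem s_of_un (hq : 0 ≤ q) (hq1 : q < 1) {x : X} (h : S.un x = 1) : S.s q x = 0 := by
  unfold s; rw [h, S.v_of_un hq hq1 h, sub_self]

theorem s_of_sat {x : X} (h : S.un x = 0) : S.s q x = S.v q x := by
  unfold s; rw [h, sub_zero]

theorem s_le_v (x : X) : S.s q x ≤ S.v q x := by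
  unfold s; linarith [S.un_nonneg x]

theorem s_le_one (hq : 0 ≤ q) (hq1 : q < 1) (x : X) : S.s q x ≤ 1 :=
  (S.s_le_v x).trans (S.v_le_one hq hq1 x)

/-- `v^2 1_SAT = s^2 = v s`. -/
theorem s_sq (hq : 0 ≤ q) (hq1 : q < 1) (x : X) : S.s q x ^ 2 = S.v q x * S.s q x := by
  rcases S.un01 x with h | h
  · rw [S.s_of_sat h]; ring
  · rw [S.s_of_un hq hq1 h]; ring

theorem P1_s (hq : 0 < q) (hq1 : q < 1) (x : X) :
    S.P1 (S.s q) x = (1 + (1 - q) / q) * S.s q x - S.f x := by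
  have h1 : S.P1 (S.s q) x = S.P1 (S.v q) x - S.P1 S.un x := by
    unfold P1 s
    rw [← sub_div, ← Finset.sum_sub_distrib]
  rw [h1, S.P1_v hq hq1, f_eq]
  unfold s
  ring

theorem P1_s_le (hq : 0 < q) (hq1 : q < 1) (x : X) :
    S.P1 (S.s q) x ≤ (1 + (1 - q) / q) * S.s q x := by
  rw [S.P1_s hq hq1]; linarith [S.f_nonneg x]

/-! ### Increments under maps -/

theorem mu_nonneg (hq : 0 < q) (hq1 : q < 1) : 0 ≤ (1 - q) / q :=
  div_nonneg (by linarith) hq.le

/-- The increment of `v` under a map `φ` of states commuting with the unit clauses is the resolvent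
of the indicator 'satisfiable, killed by `φ`'. -/
theorem v_map_sub (hq : 0 ≤ q) (hq1 : q < 1) {φ : X → X}
    (hφ : ∀ a x, S.iu a (φ x) = φ (S.iu a x)) (x : X) :
    S.v q (φ x) - S.v q x = S.R q (fun y => S.un (φ y) - S.un y) x := by
  rw [S.R_sub hq hq1 (M := 1) (fun y => S.bd_un (φ y)) S.bd_un, ← S.R_comm hφ]
  rfl

theorem bd_un2 (φ ψ : X → X) : Bd 2 (fun y => S.un (φ y) - S.un (ψ y)) := fun y => by
  have h1 := S.un_nonneg (φ y)
  have h2 := S.un_le_one (φ y)
  have h3 := S.un_nonneg (ψ y)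
  have h4 := S.un_le_one (ψ y)
  exact abs_le.2 ⟨by linarith, by linarith⟩

/-- Comparison of increments. -/
theorem v_sub_mono (hq : 0 ≤ q) (hq1 : q < 1) {φ ψ φ' ψ' : X → X}
    (hφ : ∀ a x, S.iu a (φ x) = φ (S.iu a x)) (hψ : ∀ a x, S.iu a (ψ x) = ψ (S.iu a x))
    (hφ' : ∀ a x, S.iu a (φ' x) = φ' (S.iu a x)) (hψ' : ∀ a x, S.iu a (ψ' x) = ψ' (S.iu a x))
    (h : ∀ y, S.un (φ y) - S.un (ψ y) ≤ S.un (φ' y) - S.un (ψ' y)) (x : X) :
    S.v q (φ x) - S.v q (ψ x) ≤ S.v q (φ' x) - S.v q (ψ' x) := by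
  have e : ∀ {α β : X → X}, (∀ a x, S.iu a (α x) = α (S.iu a x)) →
      (∀ a x, S.iu a (β x) = β (S.iu a x)) →
      S.v q (α x) - S.v q (β x) = S.R q (fun y => S.un (α y) - S.un (β y)) x := by
    intro α β hα hβ
    rw [S.R_sub hq hq1 (M := 1) (M' := 1) (fun y => S.bd_un (α y)) (fun y => S.bd_un (β y)),
      ← S.R_comm hα, ← S.R_comm hβ]
    rfl
  rw [e hφ hψ, e hφ' hψ']
  exact S.R_mono hq hq1 (S.bd_un2 φ ψ) (S.bd_un2 φ' ψ') h x

theorem v_le_iu (hq : 0 ≤ q) (hq1 : q < 1) (a : L) (x : X) : S.v q x ≤ S.v q (S.iu a x) := by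
  have := S.dl_nonneg hq hq1 a x
  unfold dl at this
  linarith

theorem un_ip_sub (a b : L) (x : X) : S.un (S.ip a b x) - S.un x =
    (S.un (S.iu a x) - S.un x) * (S.un (S.iu b x) - S.un x) := by
  rw [S.pair]
  rcases S.un01 x with h | h
  · rw [h]; ring
  · rw [h, S.un_iu h, S.un_iu h]; ring

theorem un_it_sub (a b c : L) (x : X) : S.un (S.it a b c x) - S.un x =
    (S.un (S.iu a x) - S.un x) * (S.un (S.iu b x) - S.un x) * (S.un (S.iu c x) - S.un x) := by
  rw [S.trip]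
  rcases S.un01 x with h | h
  · rw [h]; ring
  · rw [h, S.un_iu h, S.un_iu h, S.un_iu h]; ring

theorem fr01 (a : L) (x : X) : 0 ≤ S.un (S.iu a x) - S.un x ∧ S.un (S.iu a x) - S.un x ≤ 1 :=
  ⟨by linarith [S.mono a x], by linarith [S.un_le_one (S.iu a x), S.un_nonneg x]⟩

theorem un_le_ip (a b : L) (x : X) : S.un x ≤ S.un (S.ip a b x) := by
  have h := S.un_ip_sub a b x
  have := mul_nonneg (S.fr01 a x).1 (S.fr01 b x).1
  linarith

theorem un_le_it (a b c : L) (x : X) : S.un x ≤ S.un (S.it a b c x) := by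
  have h := S.un_it_sub a b c x
  have := mul_nonneg (mul_nonneg (S.fr01 a x).1 (S.fr01 b x).1) (S.fr01 c x).1
  linarith

/-- Increment of `v` under a pair clause: between `0` and the increment under each literal. -/
theorem dp_nonneg (hq : 0 ≤ q) (hq1 : q < 1) (a b : L) (x : X) :
    0 ≤ S.v q (S.ip a b x) - S.v q x := by
  have := S.v_le_map hq hq1 (φ := S.ip a b) (fun c y => S.cup c a b y) (S.un_le_ip a b) x
  linarith

theorem dp_le_left (hq : 0 ≤ q) (hq1 : q < 1) (a b : L) (x : X) :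
    S.v q (S.ip a b x) - S.v q x ≤ S.dl q a x := by
  refine S.v_sub_mono hq hq1 (φ := S.ip a b) (ψ := id) (φ' := S.iu a) (ψ' := id)
    (fun c y => S.cup c a b y) (fun _ _ => rfl) (fun c y => S.cuu c a y) (fun _ _ => rfl)
    (fun y => ?_) x
  have h := S.un_ip_sub a b y
  have h1 := S.fr01 a y
  have h2 := S.fr01 b y
  simp only [id]
  nlinarith

theorem dp_le_right (hq : 0 ≤ q) (hq1 : q < 1) (a b : L) (x : X) :
    S.v q (S.ip a b x) - S.v q x ≤ S.dl q b x := by
  refine S.v_sub_mono hq hq1 (φ := S.ip a b) (ψ := id) (φ' := S.iu b) (ψ' := id)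
    (fun c y => S.cup c a b y) (fun _ _ => rfl) (fun c y => S.cuu c b y) (fun _ _ => rfl)
    (fun y => ?_) x
  have h := S.un_ip_sub a b y
  have h1 := S.fr01 a y
  have h2 := S.fr01 b y
  simp only [id]
  nlinarith

theorem dt_nonneg (hq : 0 ≤ q) (hq1 : q < 1) (a b c : L) (x : X) :
    0 ≤ S.v q (S.it a b c x) - S.v q x := by
  have := S.v_le_map hq hq1 (φ := S.it a b c) (fun d y => S.cut d a b c y) (S.un_le_it a b c) x
  linarith

theorem dt_le (hq : 0 ≤ q) (hq1 : q < 1) (a b c : L) (x : X) :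
    S.v q (S.it a b c x) - S.v q x ≤ S.v q (S.ip a b x) - S.v q x := by
  refine S.v_sub_mono hq hq1 (φ := S.it a b c) (ψ := id) (φ' := S.ip a b) (ψ' := id)
    (fun d y => S.cut d a b c y) (fun _ _ => rfl) (fun d y => S.cup d a b y) (fun _ _ => rfl)
    (fun y => ?_) x
  have h := S.un_it_sub a b c y
  have h' := S.un_ip_sub a b y
  have h1 := S.fr01 a y
  have h2 := S.fr01 b y
  have h3 := S.fr01 c y
  have h4 := mul_nonneg h1.1 h2.1
  simp only [id]
  nlinarith

/-! ### Averages of the increments -/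

theorem card_pos' : (0 : ℝ) < Fintype.card L := by exact_mod_cast Fintype.card_pos

theorem P2_sub_self (g : X → ℝ) (x : X) :
    S.P2 g x - g x = (∑ a : L, ∑ b : L, (g (S.ip a b x) - g x)) / (Fintype.card L : ℝ) ^ 2 := by
  unfold P2
  have h : ∑ a : L, ∑ b : L, (g (S.ip a b x) - g x) =
      (∑ a : L, ∑ b : L, g (S.ip a b x)) - (Fintype.card L : ℝ) ^ 2 * g x := by
    simp only [Finset.sum_sub_distrib, Finset.sum_const, Finset.card_univ, nsmul_eq_mul]
    ring
  rw [h]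
  have := card_pos' (L := L)
  field_simp

theorem P3_sub_self (g : X → ℝ) (x : X) :
    S.P3 g x - g x =
      (∑ a : L, ∑ b : L, ∑ c : L, (g (S.it a b c x) - g x)) / (Fintype.card L : ℝ) ^ 3 := by
  unfold P3
  have h : ∑ a : L, ∑ b : L, ∑ c : L, (g (S.it a b c x) - g x) =
      (∑ a : L, ∑ b : L, ∑ c : L, g (S.it a b c x)) - (Fintype.card L : ℝ) ^ 3 * g x := by
    simp only [Finset.sum_sub_distrib, Finset.sum_const, Finset.card_univ, nsmul_eq_mul]
    ring
  rw [h]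
  have := card_pos' (L := L)
  field_simp

theorem sum_dl (hq : 0 < q) (hq1 : q < 1) (x : X) :
    ∑ a : L, S.dl q a x = Fintype.card L * ((1 - q) / q * S.s q x) := by
  have h := S.avg_dl hq hq1 x
  have := card_pos' (L := L)
  rw [div_eq_iff this.ne'] at h
  rw [h]
  unfold s
  ring

/-- `E_C Δ_C v ≤ μ s`. -/
theorem P2_v_le (hq : 0 < q) (hq1 : q < 1) (x : X) :
    S.P2 (S.v q) x ≤ S.v q x + (1 - q) / q * S.s q x := by
  have h := S.P2_sub_self (S.v q) x
  have hc := card_pos' (L := L)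
  have h1 : ∑ a : L, ∑ b : L, (S.v q (S.ip a b x) - S.v q x) ≤
      ∑ a : L, ∑ _b : L, S.dl q a x :=
    Finset.sum_le_sum fun a _ => Finset.sum_le_sum fun b _ => S.dp_le_left hq.le hq1 a b x
  have h2 : ∑ a : L, ∑ _b : L, S.dl q a x =
      (Fintype.card L : ℝ) ^ 2 * ((1 - q) / q * S.s q x) := by
    simp only [Finset.sum_const, Finset.card_univ, nsmul_eq_mul]
    rw [← Finset.mul_sum, S.sum_dl hq hq1]
    ring
  have h3 : (∑ a : L, ∑ b : L, (S.v q (S.ip a b x) - S.v q x)) / (Fintype.card L : ℝ) ^ 2 ≤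
      (1 - q) / q * S.s q x := by
    rw [div_le_iff₀ (by positivity)]
    linarith
  linarith

theorem P3_v_le (hq : 0 < q) (hq1 : q < 1) (x : X) :
    S.P3 (S.v q) x ≤ S.v q x + (1 - q) / q * S.s q x := by
  have h := S.P3_sub_self (S.v q) x
  have hc := card_pos' (L := L)
  have h1 : ∑ a : L, ∑ b : L, ∑ c : L, (S.v q (S.it a b c x) - S.v q x) ≤
      ∑ a : L, ∑ _b : L, ∑ _c : L, S.dl q a x :=
    Finset.sum_le_sum fun a _ => Finset.sum_le_sum fun b _ => Finset.sum_le_sum fun c _ =>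
      (S.dt_le hq.le hq1 a b c x).trans (S.dp_le_left hq.le hq1 a b x)
  have h2 : ∑ a : L, ∑ _b : L, ∑ _c : L, S.dl q a x =
      (Fintype.card L : ℝ) ^ 3 * ((1 - q) / q * S.s q x) := by
    simp only [Finset.sum_const, Finset.card_univ, nsmul_eq_mul]
    rw [← Finset.mul_sum, ← Finset.mul_sum, S.sum_dl hq hq1]
    ring
  have h3 : (∑ a : L, ∑ b : L, ∑ c : L, (S.v q (S.it a b c x) - S.v q x)) /
      (Fintype.card L : ℝ) ^ 3 ≤ (1 - q) / q * S.s q x := by
    rw [div_le_iff₀ (by positivity)]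
    linarith
  linarith

/-- `E_C (Δ_C v)^2 ≤ (μ s)^2`: because `(Δ_{a ∨ b} v)^2 ≤ Δ_a v Δ_b v`. -/
theorem pair_sq_le (hq : 0 < q) (hq1 : q < 1) (x : X) :
    (∑ a : L, ∑ b : L, (S.v q (S.ip a b x) - S.v q x) ^ 2) / (Fintype.card L : ℝ) ^ 2 ≤
      ((1 - q) / q * S.s q x) ^ 2 := by
  have hc := card_pos' (L := L)
  rw [div_le_iff₀ (by positivity)]
  calc ∑ a : L, ∑ b : L, (S.v q (S.ip a b x) - S.v q x) ^ 2
      ≤ ∑ a : L, ∑ b : L, S.dl q a x * S.dl q b x :=
        Finset.sum_le_sum fun a _ => Finset.sum_le_sum fun b _ => by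
          rw [sq]
          exact mul_le_mul (S.dp_le_left hq.le hq1 a b x) (S.dp_le_right hq.le hq1 a b x)
            (S.dp_nonneg hq.le hq1 a b x) (S.dl_nonneg hq.le hq1 a x)
    _ = (∑ a : L, S.dl q a x) * ∑ b : L, S.dl q b x := by rw [Finset.sum_mul_sum]
    _ = ((1 - q) / q * S.s q x) ^ 2 * (Fintype.card L : ℝ) ^ 2 := by
        rw [S.sum_dl hq hq1]; ring

theorem trip_sq_le (hq : 0 < q) (hq1 : q < 1) (x : X) :
    (∑ a : L, ∑ b : L, ∑ c : L, (S.v q (S.it a b c x) - S.v q x) ^ 2) /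
      (Fintype.card L : ℝ) ^ 3 ≤ ((1 - q) / q * S.s q x) ^ 2 := by
  have hc := card_pos' (L := L)
  rw [div_le_iff₀ (by positivity)]
  calc ∑ a : L, ∑ b : L, ∑ c : L, (S.v q (S.it a b c x) - S.v q x) ^ 2
      ≤ ∑ a : L, ∑ b : L, ∑ _c : L, S.dl q a x * S.dl q b x :=
        Finset.sum_le_sum fun a _ => Finset.sum_le_sum fun b _ => Finset.sum_le_sum fun c _ => by
          rw [sq]
          exact mul_le_mul ((S.dt_le hq.le hq1 a b c x).trans (S.dp_le_left hq.le hq1 a b x))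
            ((S.dt_le hq.le hq1 a b c x).trans (S.dp_le_right hq.le hq1 a b x))
            (S.dt_nonneg hq.le hq1 a b c x) (S.dl_nonneg hq.le hq1 a x)
    _ = Fintype.card L * ((∑ a : L, S.dl q a x) * ∑ b : L, S.dl q b x) := by
        simp only [Finset.sum_const, Finset.card_univ, nsmul_eq_mul]
        rw [Finset.sum_mul_sum, Finset.mul_sum]
        exact Finset.sum_congr rfl fun a _ => by rw [Finset.mul_sum]
    _ = ((1 - q) / q * S.s q x) ^ 2 * (Fintype.card L : ℝ) ^ 3 := by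
        rw [S.sum_dl hq hq1]; ring

/-- `(P3 - 1) v^2 ≤ (2 μ + μ^2) v s`. -/
theorem P3_vsq_le (hq : 0 < q) (hq1 : q < 1) (x : X) :
    S.P3 (fun y => S.v q y ^ 2) x - S.v q x ^ 2 ≤
      (2 * ((1 - q) / q) + ((1 - q) / q) ^ 2) * S.s q x ^ 2 := by
  have h0 := S.P3_sub_self (fun y => S.v q y ^ 2) x
  have hc := card_pos' (L := L)
  have h1 := S.trip_sq_le hq hq1 x
  have h2 := S.P3_sub_self (S.v q) x
  have h3 := S.P3_v_le hq hq1 x
  have h4 : (∑ a : L, ∑ b : L, ∑ c : L, (S.v q (S.it a b c x) ^ 2 - S.v q x ^ 2)) =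
      2 * S.v q x * (∑ a : L, ∑ b : L, ∑ c : L, (S.v q (S.it a b c x) - S.v q x)) +
      ∑ a : L, ∑ b : L, ∑ c : L, (S.v q (S.it a b c x) - S.v q x) ^ 2 := by
    simp only [Finset.mul_sum, ← Finset.sum_add_distrib]
    exact Finset.sum_congr rfl fun a _ => Finset.sum_congr rfl fun b _ =>
      Finset.sum_congr rfl fun c _ => by ring
  have hv := S.v_nonneg hq.le hq1 x
  have hs := S.s_sq hq.le hq1 x
  have h5 : 2 * S.v q x * (S.P3 (S.v q) x - S.v q x) ≤
      2 * S.v q x * ((1 - q) / q * S.s q x) :=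
    mul_le_mul_of_nonneg_left (by linarith) (by positivity)
  calc S.P3 (fun y => S.v q y ^ 2) x - S.v q x ^ 2
      = 2 * S.v q x * (S.P3 (S.v q) x - S.v q x) +
        (∑ a : L, ∑ b : L, ∑ c : L, (S.v q (S.it a b c x) - S.v q x) ^ 2) /
          (Fintype.card L : ℝ) ^ 3 := by
        rw [h0, h4, h2]; ring
    _ ≤ 2 * S.v q x * ((1 - q) / q * S.s q x) + ((1 - q) / q * S.s q x) ^ 2 := by linarith
    _ = _ := by rw [mul_pow, hs]; ring

/-- `P2 s ≤ (1 + μ) s`, `P3 s ≤ (1 + μ) s`. -/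
theorem P2_s_le (hq : 0 < q) (hq1 : q < 1) (x : X) :
    S.P2 (S.s q) x ≤ (1 + (1 - q) / q) * S.s q x := by
  have h1 : S.P2 (S.s q) x = S.P2 (S.v q) x - S.P2 S.un x := by
    unfold P2 s
    rw [← sub_div, ← Finset.sum_sub_distrib]
    simp only [← Finset.sum_sub_distrib]
  have h2 : S.un x ≤ S.P2 S.un x := by
    have := S.P2_sub_self S.un x
    have h3 : 0 ≤ (∑ a : L, ∑ b : L, (S.un (S.ip a b x) - S.un x)) /
        (Fintype.card L : ℝ) ^ 2 :=
      div_nonneg (Finset.sum_nonneg fun a _ => Finset.sum_nonneg fun b _ => by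
        linarith [S.un_le_ip a b x]) (by positivity)
    linarith
  have h3 := S.P2_v_le hq hq1 x
  rw [h1]
  unfold s at *
  linarith

theorem P3_s_le (hq : 0 < q) (hq1 : q < 1) (x : X) :
    S.P3 (S.s q) x ≤ (1 + (1 - q) / q) * S.s q x := by
  have h1 : S.P3 (S.s q) x = S.P3 (S.v q) x - S.P3 S.un x := by
    unfold P3 s
    rw [← sub_div, ← Finset.sum_sub_distrib]
    simp only [← Finset.sum_sub_distrib]
  have h2 : S.un x ≤ S.P3 S.un x := by
    have := S.P3_sub_self S.un x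
    have h3 : 0 ≤ (∑ a : L, ∑ b : L, ∑ c : L, (S.un (S.it a b c x) - S.un x)) /
        (Fintype.card L : ℝ) ^ 3 :=
      div_nonneg (Finset.sum_nonneg fun a _ => Finset.sum_nonneg fun b _ =>
        Finset.sum_nonneg fun c _ => by linarith [S.un_le_it a b c x]) (by positivity)
    linarith
  have h3 := S.P3_v_le hq hq1 x
  rw [h1]
  unfold s at *
  linarith

/-! ### Deaths -/

/-- `E_z [(Δ_z v)^2 ; x & z satisfiable]`. -/
noncomputable def Gp (S : Sys X L) (q : ℝ) (x : X) : ℝ :=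
  (∑ a : L, (1 - S.un (S.iu a x)) * S.dl q a x ^ 2) / Fintype.card L

theorem Gp_nonneg (x : X) : 0 ≤ S.Gp q x :=
  div_nonneg (Finset.sum_nonneg fun a _ => mul_nonneg
    (by linarith [S.un_le_one (S.iu a x)]) (sq_nonneg _)) (by positivity)

/-- (0.4): `(P1 - 1)(v^2 1_SAT) = 2 μ v^2 1_SAT + E_z[(Δ_z v)^2; SAT] - f (2 v - v^2)`. -/
theorem P1_ssq (hq : 0 < q) (hq1 : q < 1) (x : X) :
    S.P1 (fun y => S.s q y ^ 2) x - S.s q x ^ 2 =
      2 * ((1 - q) / q) * S.s q x ^ 2 + S.Gp q x - S.f x * (2 * S.s q x - S.s q x ^ 2) := by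
  have hc := card_pos' (L := L)
  rcases S.un01 x with h | h
  · have h0 := S.P1_sub_self (fun y => S.s q y ^ 2) x
    have e1 : ∀ a : L, S.s q (S.iu a x) ^ 2 - S.s q x ^ 2 =
        2 * S.s q x * S.dl q a x + (1 - S.un (S.iu a x)) * S.dl q a x ^ 2 -
          (S.un (S.iu a x) - S.un x) * (2 * S.s q x * (1 - S.s q x) + S.s q x ^ 2) := by
      intro a
      rcases S.un01 (S.iu a x) with h' | h'
      · rw [S.s_of_sat h', S.s_of_sat h, h', h]
        unfold dl
        ring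
      · rw [S.s_of_un hq.le hq1 h', S.s_of_sat h, h', h]
        unfold dl
        rw [S.v_of_un hq.le hq1 h']
        ring
    have e2 : ∑ a : L, (S.s q (S.iu a x) ^ 2 - S.s q x ^ 2) =
        2 * S.s q x * (∑ a : L, S.dl q a x) +
        (∑ a : L, (1 - S.un (S.iu a x)) * S.dl q a x ^ 2) -
        (∑ a : L, (S.un (S.iu a x) - S.un x)) *
          (2 * S.s q x * (1 - S.s q x) + S.s q x ^ 2) := by
      rw [Finset.sum_congr rfl fun a _ => e1 a, Finset.sum_sub_distrib, Finset.sum_add_distrib,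
        ← Finset.mul_sum, ← Finset.sum_mul]
    rw [h0, e2, S.sum_dl hq hq1]
    unfold Gp f
    field_simp
    ring
  · have h1 : S.s q x = 0 := S.s_of_un hq.le hq1 h
    have h2 : ∀ a : L, S.s q (S.iu a x) = 0 := fun a => S.s_of_un hq.le hq1 (S.un_iu h a)
    have h3 : S.Gp q x = 0 := by
      unfold Gp
      rw [Finset.sum_eq_zero fun a _ => by rw [S.un_iu h a, sub_self, zero_mul], zero_div]
    have h4 : S.P1 (fun y => S.s q y ^ 2) x = 0 := by
      unfold P1
      rw [Finset.sum_eq_zero fun a _ => by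
        show S.s q (S.iu a x) ^ 2 = 0
        rw [h2 a]; ring, zero_div]
    rw [h1, h3, h4, S.f_of_un h]
    ring

/-- (0.5) for the increment `w = v ∘ φ - v`, `φ` a map of states commuting with the unit clauses and
increasing `un` ('add the clauses `g`'). -/
theorem carre (hq : 0 < q) (hq1 : q < 1) {φ : X → X}
    (hφ : ∀ a x, S.iu a (φ x) = φ (S.iu a x)) (hu : ∀ x, S.un x ≤ S.un (φ x)) (x : X) :
    S.v q x * ((∑ a : L, ((S.v q (φ (S.iu a x)) - S.v q (S.iu a x)) -
        (S.v q (φ x) - S.v q x)) ^ 2) / Fintype.card L) ≤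
      S.P1 (fun y => S.v q y * (S.v q (φ y) - S.v q y) ^ 2) x -
        S.v q x * (S.v q (φ x) - S.v q x) ^ 2 +
        2 * ((1 - q) / q) * S.v q x ^ 2 * (1 - S.v q x) * (S.un (φ x) - S.un x) := by
  have hw : (fun y => S.v q (φ y) - S.v q y) = RV pu S.iu q (fun y => S.un (φ y) - S.un y) := by
    funext y
    rw [S.v_map_sub hq.le hq1 hφ, R_eq]
  have hv0 := S.v_nonneg hq.le hq1 x
  have key := carre_resolvent (act := S.iu) (pu_pr (L := L)) hq hq1
    (G := fun y => S.un (φ y) - S.un y) (M := 2) (S.bd_un2 φ id) (S.v q) x hv0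
    (fun a => S.v_le_iu hq.le hq1 a x) ?_
  · rw [← hw] at key
    have e : Gam pu S.iu (fun y => S.v q (φ y) - S.v q y) x =
        (∑ a : L, ((S.v q (φ (S.iu a x)) - S.v q (S.iu a x)) -
        (S.v q (φ x) - S.v q x)) ^ 2) / Fintype.card L := by
      unfold Gam pu
      rw [Finset.sum_div]
      exact Finset.sum_congr rfl fun a _ => by ring
    rw [e] at key
    rw [P1_eq]
    exact key
  · rw [← hw]
    rcases S.un01 x with h | h
    · rcases S.un01 (φ x) with h' | h'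
      · left; simp only [h, h', sub_self]
      · right
        simp only [h, h', sub_zero, true_and]
        rw [S.v_of_un hq.le hq1 h']
    · left
      have : S.un (φ x) = 1 := le_antisymm (S.un_le_one _) (h ▸ hu x)
      simp only [h, this, sub_self]

end

end Sys

end Pool.Agent.Lib.MP_9cae81_PC
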