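import Pool.Agent.Lib.MP_9cae81_R.Defs
import Pool.Agent.Lib.MP_9cae81_R.B1
import Pool.Agent.Lib.MP_9cae81_PC.Sys

/-!
# Part I of the proof of `p_c > 2/5`: common definitions

States are sets of assignments (the models of a formula).  A gadget is a set of assignments as well;
`S ∩ g` is the formula `S and g`, `S ∩ (g ∪ g')` the formula `S and (g or g')`.
-/

set_option autoImplicit false

open Finset Filter
open scoped BigOperators Topology

namespace Pool.Agent.Lib.MP_9cae81_PC

open Pool.Agent.Lib.MP_9cae81_R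

/-! ### Sets of assignments -/

/-- Sets of assignments. -/
abbrev As (V : Type) : Type := Set (V → Bool)

/-- Assignments satisfying a literal. -/
def lit {V : Type} (a : Lt V) : As V := {σ | σ a.1 = a.2}

/-- Models of a finite set of clauses. -/
def Md {V : Type} (F : Finset (Cl V)) : As V := {σ | ∀ c ∈ F, clT σ c}

open Classical in
/-- Indicator of the empty set. -/
noncomputable def una {V : Type} (S : As V) : ℝ := if S = ∅ then 1 else 0

/-- The system of all sets of assignments over `V` (see `Sys` for the abstract facts). -/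
noncomputable def AS (V : Type) : Sys (As V) (Lt V) where
  iu a S := S ∩ lit a
  ip a b S := S ∩ (lit a ∪ lit b)
  it a b c S := S ∩ (lit a ∪ lit b ∪ lit c)
  un := una
  cuu a b S := by ext σ; simp only [Set.mem_inter_iff]; tauto
  cup a b c S := by ext σ; simp only [Set.mem_inter_iff]; tauto
  cut a b c d S := by ext σ; simp only [Set.mem_inter_iff]; tauto
  un01 S := by unfold una; split_ifs <;> simp
  mono a S := by
    unfold una
    by_cases h : S = ∅
    · simp [h]
    · rw [if_neg h]; split_ifs <;> norm_num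
  pair a b S := by
    unfold una
    have : S ∩ (lit a ∪ lit b) = ∅ ↔ S ∩ lit a = ∅ ∧ S ∩ lit b = ∅ := by
      rw [Set.inter_union_distrib_left, Set.union_empty_iff]
    by_cases h1 : S ∩ lit a = ∅ <;> by_cases h2 : S ∩ lit b = ∅ <;> simp [this, h1, h2]
  trip a b c S := by
    unfold una
    have : S ∩ (lit a ∪ lit b ∪ lit c) = ∅ ↔
        (S ∩ lit a = ∅ ∧ S ∩ lit b = ∅) ∧ S ∩ lit c = ∅ := by
      rw [Set.inter_union_distrib_left, Set.inter_union_distrib_left, Set.union_empty_iff,
        Set.union_empty_iff]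
    by_cases h1 : S ∩ lit a = ∅ <;> by_cases h2 : S ∩ lit b = ∅ <;>
      by_cases h3 : S ∩ lit c = ∅ <;> simp [this, h1, h2, h3]

section

variable {V : Type} [Fintype V]

/-- Average over one more uniformly random unit clause. -/
noncomputable abbrev P1 (h : As V → ℝ) : As V → ℝ := (AS V).P1 h

/-- Average over one more uniformly random ordered pair clause. -/
noncomputable abbrev P2 (h : As V → ℝ) : As V → ℝ := (AS V).P2 h

/-- `v`: probability of unsatisfiability after a geometric number of random unit clauses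
(`k` of them with probability `(1 - q) q ^ k`). -/
noncomputable abbrev vv (q : ℝ) (S : As V) : ℝ := (AS V).v q S

/-- `s = v - un`, that is `v` on nonempty sets and `0` on the empty set. -/
noncomputable abbrev ss (q : ℝ) (S : As V) : ℝ := (AS V).s q S

/-- Fraction of killing literals. -/
noncomputable abbrev ff (S : As V) : ℝ := (AS V).f S

/-- The mark of the gadget `g` (not normalised). -/
noncomputable def mk (q : ℝ) (g S : As V) : ℝ := vv q (S ∩ g) - vv q S

end

/-- The parameter `μ = 1/q - 1`. -/
noncomputable def muq (q : ℝ) : ℝ := (1 - q) / q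

/-- The law of the constraints put on a literal by its clauses: `v, w` are the intensities of the
ordered pairs and triples of the formula; unit clauses have intensity `2 v + 3 w`, ordered pairs
`3 w`; `τ ∈ [0, 1]` is a time. -/
noncomputable def gq {V : Type} (v w τ : ℝ) : Cl V → ℝ := qq (τ * (2 * v + 3 * w)) (τ * (3 * w)) 0

/-- Average over a random gadget (a random set of assignments). -/
noncomputable def GA {V : Type} [Fintype V] [DecidableEq V] (v w τ : ℝ) (Φ : As V → ℝ) : ℝ :=
  EE (gq v w τ) (fun A => Φ (Md A))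

/-- The formula on `n + 1` variables whose clauses without the variable `i` have the models `M`,
whose constraints for `i` false are `A` and for `i` true are `B`. -/
def jn {n : ℕ} (i : Fin (n + 1)) (M A B : As (Fin n)) : As (Fin (n + 1)) :=
  {σ | i.removeNth σ ∈ M ∧ (σ i = false → i.removeNth σ ∈ A) ∧ (σ i = true → i.removeNth σ ∈ B)}

/-- Projection: forget the variable `i`. -/
def pr {n : ℕ} (i : Fin (n + 1)) (S : As (Fin (n + 1))) : As (Fin n) :=
  {τ | ∃ b : Bool, i.insertNth b τ ∈ S}

/-! ### The averages -/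

/-- Window of the number of variables: `|n - N| ≤ N^(3/4)`. -/
noncomputable def MW (N : ℕ) : ℕ := ⌊(N : ℝ) ^ (3 / 4 : ℝ)⌋₊

/-- Weight of the number `n` of variables: `exp(-N^(-1/2) |n - N|)`. -/
noncomputable def Wt (N n : ℕ) : ℝ := Real.exp (-((N : ℝ) ^ (-(1 / 2) : ℝ)) * |(n : ℝ) - N|)

/-- Mean number of unit clauses: `N^(1/10)`. -/
noncomputable def LN (N : ℕ) : ℝ := (N : ℝ) ^ (1 / 10 : ℝ)

/-- Intensities of the formula: at `n = N` the mean number of unit clauses is `L_N`, of pairs `x N`
and of triples `y N`; the intensities per clause do not depend on `n`. -/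
noncomputable def Iu (N : ℕ) : ℝ := LN N / (2 * N)
noncomputable def Iv (N : ℕ) (x : ℝ) : ℝ := x / (4 * N)
noncomputable def Iw (N : ℕ) (y : ℝ) : ℝ := y / (8 * (N : ℝ) ^ 2)

/-- Expectation for the model with `n` variables. -/
noncomputable def En (N : ℕ) (x y : ℝ) (n : ℕ) (h : As (Fin n) → ℝ) : ℝ :=
  EE (qq (Iu N) (Iv N x) (Iw N y)) (fun F => h (Md F))

/-- The bracket: average over the number of variables. -/
noncomputable def Br (N : ℕ) (x y : ℝ) (h : (n : ℕ) → As (Fin n) → ℝ) : ℝ :=
  ∑ n ∈ Finset.Icc (N - MW N) (N + MW N), Wt N n * En N x y n (h n)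

/-- The bracket with one more variable. -/
noncomputable def Br' (N : ℕ) (x y : ℝ) (h : (n : ℕ) → As (Fin n) → ℝ) : ℝ :=
  ∑ n ∈ Finset.Icc (N - MW N) (N + MW N), Wt N n * En N x y (n + 1) (h (n + 1))

/-- The normalisation `m = [v² 1_SAT]`. -/
noncomputable def mm (q : ℝ) (N : ℕ) (x y : ℝ) : ℝ := Br N x y (fun _ S => ss q S ^ 2)

/-- The data along which the limit is taken: a sequence `N k → ∞` of numbers of variables and
densities `y k ∈ [0, Y]` of 3-clauses such that `E f³ ≥ c₀ / N` at `n = N`. -/
structure Cen (x Y : ℝ) where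
  N : ℕ → ℕ
  y : ℕ → ℝ
  c0 : ℝ
  hN : Tendsto N atTop atTop
  N1 : ∀ k, 1 ≤ N k
  y0 : ∀ k, 0 ≤ y k
  yY : ∀ k, y k ≤ Y
  hc : 0 < c0
  flux : ∀ k, c0 / N k ≤ En (N k) x (y k) (N k) (fun S => ff S ^ 3)

end Pool.Agent.Lib.MP_9cae81_PC
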