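import Mathlib

namespace PCGap

/-- Harmonic (parallel) sum. -/
noncomputable def par (a b : ℝ) : ℝ := a * b / (a + b)

theorem par_comm (a b : ℝ) : par a b = par b a := by unfold par; rw [mul_comm, add_comm]

theorem par_nonneg {a b : ℝ} (ha : 0 ≤ a) (hb : 0 ≤ b) : 0 ≤ par a b := by
  unfold par; positivity

theorem par_le_left {a b : ℝ} (ha : 0 ≤ a) (hb : 0 ≤ b) : par a b ≤ a := by
  unfold par
  rcases eq_or_lt_of_le (add_nonneg ha hb) with h | h
  · rw [← h]; simpa using ha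
  · rw [div_le_iff₀ h]; nlinarith

theorem par_le_right {a b : ℝ} (ha : 0 ≤ a) (hb : 0 ≤ b) : par a b ≤ b := by
  rw [par_comm]; exact par_le_left hb ha

/-- Monotone and 1-Lipschitz in the first variable. -/
theorem par_step {a a' b : ℝ} (ha : 0 ≤ a) (hb : 0 ≤ b) (h : a ≤ a') :
    par a b ≤ par a' b ∧ par a' b ≤ par a b + (a' - a) := by
  have ha' : 0 ≤ a' := ha.trans h
  rcases eq_or_lt_of_le hb with hb0 | hb0
  · subst hb0
    simp only [par, mul_zero, zero_div, zero_add]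
    exact ⟨le_refl _, by linarith⟩
  · have h1 : 0 < a + b := by linarith
    have h2 : 0 < a' + b := by linarith
    unfold par
    constructor
    · rw [div_le_div_iff₀ h1 h2]
      nlinarith [mul_nonneg (sub_nonneg.2 h) (mul_nonneg hb hb)]
    · have h3 : a * b / (a + b) + (a' - a) - a' * b / (a' + b)
          = (a' - a) * (a * a' + a * b + a' * b) / ((a + b) * (a' + b)) := by
        field_simp
        ring
      have h4 : 0 ≤ (a' - a) * (a * a' + a * b + a' * b) / ((a + b) * (a' + b)) := by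
        have := sub_nonneg.2 h
        positivity
      linarith

theorem par_lip_left {a a' b : ℝ} (ha : 0 ≤ a) (ha' : 0 ≤ a') (hb : 0 ≤ b) :
    |par a b - par a' b| ≤ |a - a'| := by
  rcases le_total a a' with h | h
  · obtain ⟨h1, h2⟩ := par_step ha hb h
    rw [abs_sub_comm, abs_of_nonneg (by linarith), abs_sub_comm, abs_of_nonneg (by linarith)]
    linarith
  · obtain ⟨h1, h2⟩ := par_step ha' hb h
    rw [abs_of_nonneg (by linarith), abs_of_nonneg (by linarith)]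
    linarith

theorem par_lip {a a' b b' : ℝ} (ha : 0 ≤ a) (ha' : 0 ≤ a') (hb : 0 ≤ b) (hb' : 0 ≤ b') :
    |par a b - par a' b'| ≤ |a - a'| + |b - b'| := by
  have h1 := par_lip_left ha ha' hb
  have h2 := par_lip_left hb hb' ha'
  rw [par_comm b, par_comm b'] at h2
  calc |par a b - par a' b'| = |(par a b - par a' b) + (par a' b - par a' b')| := by ring_nf
    _ ≤ |par a b - par a' b| + |par a' b - par a' b'| := abs_add_le _ _
    _ ≤ _ := by linarith

/-- The exact gap for harmonic values. -/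
theorem gap_exact {x1 x2 x3 : ℝ} (h1 : 0 < x1) (h2 : 0 < x2) (h3 : 0 < x3) :
    par (x1 - par x1 x2) x3 - (par x1 (x2 + x3) - par x1 x2)
      = x1 ^ 2 * x3 * (x2 * (2 * x1 + x2)) /
        ((x1 ^ 2 + x3 * (x1 + x2)) * ((x1 + x2) * (x1 + x2 + x3))) := by
  have e1 : x1 - par x1 x2 = x1 ^ 2 / (x1 + x2) := by unfold par; field_simp; ring
  rw [e1]
  unfold par
  have h4 : 0 < x1 + x2 := by positivity
  have h5 : x1 ^ 2 / (x1 + x2) + x3 = (x1 ^ 2 + x3 * (x1 + x2)) / (x1 + x2) := by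
    field_simp
  have h6 : 0 < x1 ^ 2 + x3 * (x1 + x2) := by positivity
  rw [h5, ← add_assoc x1 x2 x3]
  have h7 : 0 < x1 + x2 + x3 := by positivity
  field_simp
  ring

theorem gap_lower {W t x1 x2 x3 : ℝ} (ht : 0 < t) (h1 : t ≤ x1) (h2 : t ≤ x2) (h3 : t ≤ x3)
    (h1' : x1 ≤ W * t) (h2' : x2 ≤ W * t) (h3' : x3 ≤ W * t) :
    t / (6 * W ^ 4) ≤ par (x1 - par x1 x2) x3 - (par x1 (x2 + x3) - par x1 x2) := by
  have hW : 1 ≤ W := by
    by_contra hcon
    push Not at hcon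
    nlinarith
  have p1 : 0 < x1 := by linarith
  have p2 : 0 < x2 := by linarith
  have p3 : 0 < x3 := by linarith
  rw [gap_exact p1 p2 p3, div_le_div_iff₀ (by positivity) (by positivity)]
  have a1 : x1 ^ 2 + x3 * (x1 + x2) ≤ 3 * (W * t) ^ 2 := by
    have : x1 ^ 2 ≤ (W * t) ^ 2 := pow_le_pow_left₀ p1.le h1' 2
    have : x3 * (x1 + x2) ≤ (W * t) * (W * t + W * t) := by gcongr
    nlinarith
  have a2 : (x1 + x2) * (x1 + x2 + x3) ≤ 6 * (W * t) ^ 2 := by
    have : (x1 + x2) * (x1 + x2 + x3) ≤ (W * t + W * t) * (W * t + W * t + W * t) := by gcongr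
    nlinarith
  have a3 : t ^ 3 * (t * (3 * t)) ≤ x1 ^ 2 * x3 * (x2 * (2 * x1 + x2)) := by
    have b1 : t ^ 3 ≤ x1 ^ 2 * x3 := by
      calc t ^ 3 = t ^ 2 * t := by ring
        _ ≤ x1 ^ 2 * x3 := by gcongr
    have b2 : t * (3 * t) ≤ x2 * (2 * x1 + x2) := by
      have : 3 * t ≤ 2 * x1 + x2 := by linarith
      gcongr
    gcongr
  calc t * ((x1 ^ 2 + x3 * (x1 + x2)) * ((x1 + x2) * (x1 + x2 + x3)))
      ≤ t * ((3 * (W * t) ^ 2) * (6 * (W * t) ^ 2)) := by gcongr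
    _ = (t ^ 3 * (t * (3 * t))) * (6 * W ^ 4) := by ring
    _ ≤ x1 ^ 2 * x3 * (x2 * (2 * x1 + x2)) * (6 * W ^ 4) := by gcongr

/-- **Triple gap lemma.**  `x1, x2, x3` are the marks of three literals in `[t, W t]`, `r` is the mark
of `1 ∨ 2` and `s` the mark of `1 ∨ (2 ∧ 3)`.  Then `(1,2)`, `(1, 2∧3)`, `(x_{1\2}, 3)` cannot all
satisfy the harmonic rule. -/
theorem triple_gap {W t x1 x2 x3 r s : ℝ} (ht : 0 < t) (h1 : t ≤ x1) (h2 : t ≤ x2) (h3 : t ≤ x3)
    (h1' : x1 ≤ W * t) (h2' : x2 ≤ W * t) (h3' : x3 ≤ W * t) (hr : r ≤ x1) :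
    t / (12 * W ^ 4) ≤
      |r - par x1 x2| + |s - par x1 (x2 + x3)| + |(s - r) - par (x1 - r) x3| := by
  have p1 : 0 < x1 := by linarith
  have p2 : 0 < x2 := by linarith
  have p3 : 0 < x3 := by linarith
  have hg := gap_lower ht h1 h2 h3 h1' h2' h3'
  have hl := par_lip (a := x1 - r) (a' := x1 - par x1 x2) (b := x3) (b' := x3) (by linarith)
    (by have := par_le_left p1.le p2.le; linarith) p3.le p3.le
  rw [sub_self, abs_zero, add_zero] at hl
  have e : x1 - r - (x1 - par x1 x2) = -(r - par x1 x2) := by ring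
  rw [e, abs_neg] at hl
  have l1 := neg_abs_le (par (x1 - r) x3 - par (x1 - par x1 x2) x3)
  have l2 := le_abs_self (r - par x1 x2)
  have l2' := neg_abs_le (r - par x1 x2)
  have l3 := neg_abs_le (s - par x1 (x2 + x3))
  have l3' := le_abs_self (s - par x1 (x2 + x3))
  have l4 := neg_abs_le ((s - r) - par (x1 - r) x3)
  have e2 : t / (12 * W ^ 4) = (t / (6 * W ^ 4)) / 2 := by
    have : W ≠ 0 := by
      intro h; rw [h, zero_mul] at h1'; linarith
    field_simp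
    norm_num
  have n1 := abs_nonneg (s - par x1 (x2 + x3))
  have n2 := abs_nonneg ((s - r) - par (x1 - r) x3)
  rw [e2]
  linarith

/-- In the situation of `triple_gap`, the mark `x1 - r` of `x_{1\2}` is at least `t/(4W)` if `(1,2)` is
almost harmonic. -/
theorem x_large {W t x1 x2 r : ℝ} (ht : 0 < t) (h1 : t ≤ x1) (h2 : t ≤ x2)
    (h1' : x1 ≤ W * t) (h2' : x2 ≤ W * t) (hr : |r - par x1 x2| ≤ t / (4 * W)) :
    t / (4 * W) ≤ x1 - r := by
  have p1 : 0 < x1 := by linarith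
  have p2 : 0 < x2 := by linarith
  have hW : 0 < W := by
    by_contra hcon
    push Not at hcon
    nlinarith
  have e1 : x1 - par x1 x2 = x1 ^ 2 / (x1 + x2) := by unfold par; field_simp; ring
  have e2 : t / (2 * W) ≤ x1 - par x1 x2 := by
    rw [e1, div_le_div_iff₀ (by positivity) (by positivity)]
    calc t * (x1 + x2) ≤ t * (W * t + W * t) := by gcongr
      _ = t ^ 2 * (2 * W) := by ring
      _ ≤ x1 ^ 2 * (2 * W) := by gcongr
  have e3 : t / (2 * W) = 2 * (t / (4 * W)) := by field_simp; norm_num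
  have := (abs_le.1 hr).2
  linarith


/-- Normalised polynomial form of the gap in `[1,2]^3`. -/
theorem gap_poly {a b c : ℝ} (ha : 0 ≤ a) (ha1 : a ≤ 1) (hb : 0 ≤ b) (hb1 : b ≤ 1) (hc : 0 ≤ c)
    (hc1 : c ≤ 1) :
    3 * (((1 + a) ^ 2 + (1 + c) * ((1 + a) + (1 + b))) *
        (((1 + a) + (1 + b)) * ((1 + a) + (1 + b) + (1 + c)))) ≤
      20 * ((1 + a) ^ 2 * (1 + c) * ((1 + b) * (2 * (1 + a) + (1 + b)))) := by
  have e : 20 * ((1 + a) ^ 2 * (1 + c) * ((1 + b) * (2 * (1 + a) + (1 + b)))) -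
      3 * (((1 + a) ^ 2 + (1 + c) * ((1 + a) + (1 + b))) *
        (((1 + a) + (1 + b)) * ((1 + a) + (1 + b) + (1 + c))))
      = 6 * ((1 - c) * (1 + 2 * c))
        + b * ((1 - b) * (4 + 4 * c + 3 * c ^ 2) + (1 - b ^ 2) * (3 + 3 * c) + 10 + 10 * c - 15 * c ^ 2)
        + a * (61 + 85 * c - 12 * c ^ 2) - 3 * a ^ 4
        + a * b * (122 + 146 * c - 6 * c ^ 2) + a * b ^ 2 * (25 + 31 * c)
        + a ^ 2 * (68 + 104 * c - 3 * c ^ 2) + a ^ 2 * b * (124 + 148 * c)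
        + a ^ 2 * b ^ 2 * (17 + 20 * c) + a ^ 3 * (16 + 34 * c) + a ^ 3 * b * (34 + 40 * c) := by
    ring
  have hc2 : c ^ 2 ≤ c := by nlinarith
  have hb2 : b ^ 2 ≤ 1 := by nlinarith
  have ha4 : a ^ 4 ≤ a := by
    have h1 : a ^ 3 ≤ 1 := pow_le_one₀ ha ha1
    calc a ^ 4 = a * a ^ 3 := by ring
      _ ≤ a * 1 := by gcongr
      _ = a := mul_one a
  have t1 : 0 ≤ 6 * ((1 - c) * (1 + 2 * c)) := by
    have : 0 ≤ 1 - c := by linarith
    positivity
  have t2 : 0 ≤ b * ((1 - b) * (4 + 4 * c + 3 * c ^ 2) + (1 - b ^ 2) * (3 + 3 * c) + 10 + 10 * c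
      - 15 * c ^ 2) := by
    apply mul_nonneg hb
    have h1 : 0 ≤ (1 - b) * (4 + 4 * c + 3 * c ^ 2) := by
      have : 0 ≤ 1 - b := by linarith
      positivity
    have h2 : 0 ≤ (1 - b ^ 2) * (3 + 3 * c) := by
      have : 0 ≤ 1 - b ^ 2 := by linarith
      positivity
    linarith
  have t3 : 0 ≤ a * (61 + 85 * c - 12 * c ^ 2) - 3 * a ^ 4 := by
    have h1 : a * 3 ≤ a * (61 + 85 * c - 12 * c ^ 2) := by
      apply mul_le_mul_of_nonneg_left _ ha
      linarith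
    linarith
  have t4 : 0 ≤ a * b * (122 + 146 * c - 6 * c ^ 2) := by
    have : 0 ≤ 122 + 146 * c - 6 * c ^ 2 := by linarith
    positivity
  have t5 : 0 ≤ a ^ 2 * (68 + 104 * c - 3 * c ^ 2) := by
    have : 0 ≤ 68 + 104 * c - 3 * c ^ 2 := by linarith
    positivity
  have t6 : 0 ≤ a * b ^ 2 * (25 + 31 * c) := by positivity
  have t7 : 0 ≤ a ^ 2 * b * (124 + 148 * c) := by positivity
  have t8 : 0 ≤ a ^ 2 * b ^ 2 * (17 + 20 * c) := by positivity
  have t9 : 0 ≤ a ^ 3 * (16 + 34 * c) := by positivity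
  have t10 : 0 ≤ a ^ 3 * b * (34 + 40 * c) := by positivity
  linarith

/-- The exact gap in a block `[t, 2t]`. -/
theorem gap_lower2 {t x1 x2 x3 : ℝ} (ht : 0 < t) (h1 : t ≤ x1) (h2 : t ≤ x2) (h3 : t ≤ x3)
    (h1' : x1 ≤ 2 * t) (h2' : x2 ≤ 2 * t) (h3' : x3 ≤ 2 * t) :
    3 / 20 * t ≤ par (x1 - par x1 x2) x3 - (par x1 (x2 + x3) - par x1 x2) := by
  have p1 : 0 < x1 := by linarith
  have p2 : 0 < x2 := by linarith
  have p3 : 0 < x3 := by linarith
  rw [gap_exact p1 p2 p3, le_div_iff₀ (by positivity)]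
  obtain ⟨a, rfl⟩ : ∃ a, x1 = t * (1 + a) := ⟨x1 / t - 1, by field_simp; ring⟩
  obtain ⟨b, rfl⟩ : ∃ b, x2 = t * (1 + b) := ⟨x2 / t - 1, by field_simp; ring⟩
  obtain ⟨c, rfl⟩ : ∃ c, x3 = t * (1 + c) := ⟨x3 / t - 1, by field_simp; ring⟩
  have ha : 0 ≤ a := by by_contra h; push Not at h; nlinarith
  have ha1 : a ≤ 1 := by by_contra h; push Not at h; nlinarith
  have hb : 0 ≤ b := by by_contra h; push Not at h; nlinarith
  have hb1 : b ≤ 1 := by by_contra h; push Not at h; nlinarith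
  have hc : 0 ≤ c := by by_contra h; push Not at h; nlinarith
  have hc1 : c ≤ 1 := by by_contra h; push Not at h; nlinarith
  have hp := gap_poly ha ha1 hb hb1 hc hc1
  have ht5 : 0 < t ^ 5 := by positivity
  have hq := mul_le_mul_of_nonneg_left hp ht5.le
  have e1 : 3 / 20 * t * (((t * (1 + a)) ^ 2 + t * (1 + c) * (t * (1 + a) + t * (1 + b))) *
      ((t * (1 + a) + t * (1 + b)) * (t * (1 + a) + t * (1 + b) + t * (1 + c))))
      = 1 / 20 * (t ^ 5 * (3 * (((1 + a) ^ 2 + (1 + c) * ((1 + a) + (1 + b))) *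
        (((1 + a) + (1 + b)) * ((1 + a) + (1 + b) + (1 + c)))))) := by ring
  have e2 : (t * (1 + a)) ^ 2 * (t * (1 + c)) * (t * (1 + b) * (2 * (t * (1 + a)) + t * (1 + b)))
      = 1 / 20 * (t ^ 5 * (20 * ((1 + a) ^ 2 * (1 + c) * ((1 + b) * (2 * (1 + a) + (1 + b)))))) := by
    ring
  rw [e1, e2]
  linarith

/-- **Triple gap lemma, block `[t, 2t]`** (form used in the `J`-lemma): with
`e0 = r - par x1 x2`, `e1 = s - par x1 (x2 + x3)`, `e2 = (s - r) - par (x1 - r) x3` one has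
`|e2| + |e1| + 2 |e0| ≥ (3/20) t`. -/
theorem triple_gap2 {t x1 x2 x3 r s : ℝ} (ht : 0 < t) (h1 : t ≤ x1) (h2 : t ≤ x2) (h3 : t ≤ x3)
    (h1' : x1 ≤ 2 * t) (h2' : x2 ≤ 2 * t) (h3' : x3 ≤ 2 * t) (hr : r ≤ x1) :
    3 / 20 * t ≤
      |(s - r) - par (x1 - r) x3| + |s - par x1 (x2 + x3)| + 2 * |r - par x1 x2| := by
  have p1 : 0 < x1 := by linarith
  have p2 : 0 < x2 := by linarith
  have p3 : 0 < x3 := by linarith
  have hg := gap_lower2 ht h1 h2 h3 h1' h2' h3'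
  have hl := par_lip (a := x1 - r) (a' := x1 - par x1 x2) (b := x3) (b' := x3) (by linarith)
    (by have := par_le_left p1.le p2.le; linarith) p3.le p3.le
  rw [sub_self, abs_zero, add_zero] at hl
  have e : x1 - r - (x1 - par x1 x2) = -(r - par x1 x2) := by ring
  rw [e, abs_neg] at hl
  have l1 := neg_abs_le (par (x1 - r) x3 - par (x1 - par x1 x2) x3)
  have l2' := neg_abs_le (r - par x1 x2)
  have l3' := le_abs_self (s - par x1 (x2 + x3))
  have l4 := neg_abs_le ((s - r) - par (x1 - r) x3)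
  have l5 := le_abs_self ((s - r) - par (x1 - r) x3)
  have l6 := le_abs_self (r - par x1 x2)
  have l7 := neg_abs_le (s - par x1 (x2 + x3))
  linarith

end PCGap
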