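import Pool.Agent.Lib.MP_9cae81_PC.PDefs
import Pool.Agent.Lib.MP_9cae81_PC.Gap

/-! The bump; elementary facts on marks. -/

open Finset
open scoped BigOperators

namespace Pool.Agent.Lib.MP_9cae81_PC

open Pool.Agent.Lib.MP_9cae81_R

theorem ph_nonneg (t a b r : ℝ) : 0 ≤ ph t a b r := by
  unfold ph; positivity

/-- Clamping to `[0,1]`. -/
private theorem P3a_clamp01 (x : ℝ) : 0 ≤ min 1 (max 0 x) ∧ min 1 (max 0 x) ≤ 1 :=
  ⟨le_min zero_le_one (le_max_left _ _), min_le_left _ _⟩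

private theorem P3a_clamp01' (x : ℝ) : 0 ≤ max 0 (min 1 x) ∧ max 0 (min 1 x) ≤ 1 :=
  ⟨le_max_left _ _, max_le zero_le_one (min_le_left _ _)⟩

private theorem P3a_clamp_lip (x y : ℝ) : |min 1 (max 0 x) - min 1 (max 0 y)| ≤ |x - y| := by
  refine (abs_min_sub_min_le_max 1 (max 0 x) 1 (max 0 y)).trans ?_
  rw [sub_self, abs_zero]
  refine max_le (abs_nonneg _) ?_
  refine (abs_max_sub_max_le_max 0 x 0 y).trans ?_
  rw [sub_self, abs_zero]
  exact max_le (abs_nonneg _) (le_refl _)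

theorem ph_le_one (t a b r : ℝ) : ph t a b r ≤ 1 := by
  unfold ph
  obtain ⟨h1, h2⟩ := P3a_clamp01 (1024 * |r - par a b| / t - 1)
  obtain ⟨h3, h4⟩ := P3a_clamp01 (2 - a / (4 * t))
  obtain ⟨h5, h6⟩ := P3a_clamp01' (min (2 * b / t - 1) (2 - b / (2 * t)))
  exact mul_le_one₀ (mul_le_one₀ h2 h3 h4) h5 h6

/-- Lipschitz in `(a, r)`: `par` is 1-Lipschitz in `a ≥ 0` (`PCGap.par_lip_left`), the first factor
has slope `1024 / t`, the second `1 / (4 t)`, all factors in `[0,1]`. -/
theorem ph_lip {t : ℝ} (ht : 0 < t) {a a' b r r' : ℝ} (ha : 0 ≤ a) (ha' : 0 ≤ a') (hb : 0 ≤ b) :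
    |ph t a b r - ph t a' b r'| ≤ 1025 / t * (|a - a'| + |r - r'|) := by
  unfold ph
  have f01 := P3a_clamp01 (1024 * |r - par a b| / t - 1)
  have f01' := P3a_clamp01 (1024 * |r' - par a' b| / t - 1)
  have g01 := P3a_clamp01 (2 - a / (4 * t))
  have g01' := P3a_clamp01 (2 - a' / (4 * t))
  have h01 := P3a_clamp01' (min (2 * b / t - 1) (2 - b / (2 * t)))
  have hf := P3a_clamp_lip (1024 * |r - par a b| / t - 1) (1024 * |r' - par a' b| / t - 1)
  have hg := P3a_clamp_lip (2 - a / (4 * t)) (2 - a' / (4 * t))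
  generalize min 1 (max 0 (1024 * |r - par a b| / t - 1)) = f at *
  generalize min 1 (max 0 (1024 * |r' - par a' b| / t - 1)) = f' at *
  generalize min 1 (max 0 (2 - a / (4 * t))) = g at *
  generalize min 1 (max 0 (2 - a' / (4 * t))) = g' at *
  generalize max 0 (min 1 (min (2 * b / t - 1) (2 - b / (2 * t)))) = h at *
  have hpar : |par a b - par a' b| ≤ |a - a'| := PCGap.par_lip_left ha ha' hb
  have e1 : 1024 * |r - par a b| / t - 1 - (1024 * |r' - par a' b| / t - 1)
      = 1024 / t * (|r - par a b| - |r' - par a' b|) := by ring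
  have e2 : 2 - a / (4 * t) - (2 - a' / (4 * t)) = 1 / (4 * t) * (a' - a) := by ring
  rw [e1, abs_mul, abs_of_pos (by positivity : (0 : ℝ) < 1024 / t)] at hf
  rw [e2, abs_mul, abs_of_pos (by positivity : (0 : ℝ) < 1 / (4 * t)), abs_sub_comm a' a] at hg
  have e3 : |(|r - par a b| - |r' - par a' b|)| ≤ |r - r'| + |a - a'| := by
    refine (abs_abs_sub_abs_le_abs_sub _ _).trans ?_
    have : r - par a b - (r' - par a' b) = (r - r') - (par a b - par a' b) := by ring
    rw [this]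
    refine (abs_sub _ _).trans ?_
    linarith
  have e4 : f * g * h - f' * g' * h = ((f - f') * g + f' * (g - g')) * h := by ring
  rw [e4, abs_mul, abs_of_nonneg h01.1]
  have e5 : |(f - f') * g + f' * (g - g')| ≤ |f - f'| + |g - g'| := by
    refine (abs_add_le _ _).trans ?_
    rw [abs_mul, abs_mul, abs_of_nonneg g01.1, abs_of_nonneg f01'.1]
    have t1 : |f - f'| * g ≤ |f - f'| * 1 := mul_le_mul_of_nonneg_left g01.2 (abs_nonneg _)
    have t2 : f' * |g - g'| ≤ 1 * |g - g'| := mul_le_mul_of_nonneg_right f01'.2 (abs_nonneg _)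
    linarith
  have e6 : |(f - f') * g + f' * (g - g')| * h ≤ |(f - f') * g + f' * (g - g')| * 1 :=
    mul_le_mul_of_nonneg_left h01.2 (abs_nonneg _)
  have e7 : 1024 / t * |(|r - par a b| - |r' - par a' b|)| ≤ 1024 / t * (|r - r'| + |a - a'|) :=
    mul_le_mul_of_nonneg_left e3 (by positivity)
  have e8 : 1025 / t * (|a - a'| + |r - r'|) = 1024 / t * (|r - r'| + |a - a'|)
      + 1 / t * (|a - a'| + |r - r'|) := by ring
  have e9 : 1 / (4 * t) * |a - a'| ≤ 1 / t * (|a - a'| + |r - r'|) := by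
    have t1 : 1 / (4 * t) ≤ 1 / t := one_div_le_one_div_of_le ht (by linarith)
    have t2 : |a - a'| ≤ |a - a'| + |r - r'| := by linarith [abs_nonneg (r - r')]
    exact mul_le_mul t1 t2 (abs_nonneg _) (by positivity)
  rw [e8]
  linarith

/-- The bump is `1`. -/
theorem ph_one {t : ℝ} (ht : 0 < t) {a b r : ℝ} (ha : a ≤ 4 * t) (hb : t ≤ b) (hb' : b ≤ 2 * t)
    (hr : t / 512 ≤ |r - par a b|) : ph t a b r = 1 := by
  unfold ph
  have h1 : (1 : ℝ) ≤ 1024 * |r - par a b| / t - 1 := by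
    have : 2 ≤ 1024 * |r - par a b| / t := by rw [le_div_iff₀ ht]; linarith
    linarith
  have h2 : (1 : ℝ) ≤ 2 - a / (4 * t) := by
    have : a / (4 * t) ≤ 1 := by rw [div_le_one (by linarith)]; exact ha
    linarith
  have h3 : (1 : ℝ) ≤ 2 * b / t - 1 := by
    have : 2 ≤ 2 * b / t := by rw [le_div_iff₀ ht]; linarith
    linarith
  have h4 : (1 : ℝ) ≤ 2 - b / (2 * t) := by
    have : b / (2 * t) ≤ 1 := by rw [div_le_one (by linarith)]; exact hb'
    linarith
  rw [max_eq_right (by linarith), min_eq_left h1, max_eq_right (by linarith), min_eq_left h2,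
    min_eq_left (le_min h3 h4), max_eq_right zero_le_one]
  norm_num

/-- Where the bump is positive. -/
theorem ph_pos {t : ℝ} (ht : 0 < t) {a b r : ℝ} (h : 0 < ph t a b r) :
    a < 8 * t ∧ t / 2 < b ∧ b < 4 * t ∧ t / 1024 < |r - par a b| := by
  unfold ph at h
  obtain ⟨h1, _⟩ := P3a_clamp01 (1024 * |r - par a b| / t - 1)
  obtain ⟨h3, _⟩ := P3a_clamp01 (2 - a / (4 * t))
  obtain ⟨h5, _⟩ := P3a_clamp01' (min (2 * b / t - 1) (2 - b / (2 * t)))
  have k1 : 0 < min 1 (max 0 (1024 * |r - par a b| / t - 1)) := by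
    rcases h1.lt_or_eq with h' | h'
    · exact h'
    · rw [← h'] at h; simp at h
  have k2 : 0 < min 1 (max 0 (2 - a / (4 * t))) := by
    rcases h3.lt_or_eq with h' | h'
    · exact h'
    · rw [← h'] at h; simp at h
  have k3 : 0 < max 0 (min 1 (min (2 * b / t - 1) (2 - b / (2 * t)))) := by
    rcases h5.lt_or_eq with h' | h'
    · exact h'
    · rw [← h'] at h; simp at h
  have m1 : 0 < 1024 * |r - par a b| / t - 1 := by
    have := (lt_min_iff.1 k1).2
    rcases lt_max_iff.1 this with h' | h'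
    · exact absurd h' (lt_irrefl _)
    · exact h'
  have m2 : 0 < 2 - a / (4 * t) := by
    have := (lt_min_iff.1 k2).2
    rcases lt_max_iff.1 this with h' | h'
    · exact absurd h' (lt_irrefl _)
    · exact h'
  have m3 : 0 < min (2 * b / t - 1) (2 - b / (2 * t)) := by
    rcases lt_max_iff.1 k3 with h' | h'
    · exact absurd h' (lt_irrefl _)
    · exact (lt_min_iff.1 h').2
  obtain ⟨m4, m5⟩ := lt_min_iff.1 m3
  refine ⟨?_, ?_, ?_, ?_⟩
  · have : a / (4 * t) < 2 := by linarith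
    rw [div_lt_iff₀ (by linarith)] at this
    linarith
  · have : 1 < 2 * b / t := by linarith
    rw [lt_div_iff₀ ht] at this
    linarith
  · have : b / (2 * t) < 2 := by linarith
    rw [div_lt_iff₀ (by linarith)] at this
    linarith
  · have : 1 < 1024 * |r - par a b| / t := by linarith
    rw [lt_div_iff₀ ht] at this
    linarith

/-- Converse for the deviation of two literals with marks in `[t, 2t)`. -/
theorem ph_pos_of {t : ℝ} (ht : 0 < t) {a b r : ℝ} (ha : a ≤ 2 * t) (hb : t ≤ b) (hb' : b ≤ 2 * t)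
    (hr : t / 1024 < |r - par a b|) : 0 < ph t a b r := by
  unfold ph
  have h1 : (0 : ℝ) < 1024 * |r - par a b| / t - 1 := by
    have : 1 < 1024 * |r - par a b| / t := by rw [lt_div_iff₀ ht]; linarith
    linarith
  have h2 : (0 : ℝ) < 2 - a / (4 * t) := by
    have : a / (4 * t) < 2 := by rw [div_lt_iff₀ (by linarith)]; linarith
    linarith
  have h3 : (0 : ℝ) < 2 * b / t - 1 := by
    have : 1 < 2 * b / t := by rw [lt_div_iff₀ ht]; linarith
    linarith
  have h4 : (0 : ℝ) < 2 - b / (2 * t) := by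
    have : b / (2 * t) < 2 := by rw [div_lt_iff₀ (by linarith)]; linarith
    linarith
  refine mul_pos (mul_pos ?_ ?_) ?_
  · exact lt_min one_pos (lt_max_of_lt_right h1)
  · exact lt_min one_pos (lt_max_of_lt_right h2)
  · exact lt_max_of_lt_right (lt_min one_pos (lt_min h3 h4))

/-- For a genuine table `0 ≤ r ≤ min a b` a positive bump forces `t / 1024 < min a b`. -/
theorem ph_pos_min {t : ℝ} (ht : 0 < t) {a b r : ℝ} (hr : 0 ≤ r) (hra : r ≤ a) (hrb : r ≤ b)
    (h : 0 < ph t a b r) : t / 1024 < a ∧ t / 1024 < b := by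
  obtain ⟨_, _, _, h4⟩ := ph_pos ht h
  have ha : 0 ≤ a := hr.trans hra
  have hb : 0 ≤ b := hr.trans hrb
  have p0 : 0 ≤ par a b := PCGap.par_nonneg ha hb
  have p1 : par a b ≤ a := PCGap.par_le_left ha hb
  have p2 : par a b ≤ b := PCGap.par_le_right ha hb
  have h5 : |r - par a b| ≤ a := by rw [abs_le]; constructor <;> linarith
  have h6 : |r - par a b| ≤ b := by rw [abs_le]; constructor <;> linarith
  exact ⟨lt_of_lt_of_le h4 h5, lt_of_lt_of_le h4 h6⟩

variable {L ι : Type} [Fintype L] [Fintype ι] [DecidableEq ι] (P : PF L ι)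

theorem PF.D_nonneg (g : Finset ι) : 0 ≤ P.D g := by
  have := P.mono ∅ g ∅ g (Finset.empty_subset _) (Finset.empty_subset _)
  rw [P.empty] at this
  exact this

theorem PF.M_nonneg (g h : Finset ι) : 0 ≤ P.M g h := by
  have := P.mono ∅ g ∅ h (Finset.empty_subset _) (Finset.empty_subset _)
  rw [P.empty] at this
  exact this

theorem PF.M_le_left (g h : Finset ι) : P.M g h ≤ P.D g := P.diag g h

theorem PF.M_le_right (g h : Finset ι) : P.M g h ≤ P.D h := by
  rw [P.symm]; exact P.diag h g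

end Pool.Agent.Lib.MP_9cae81_PC
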