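import Pool.Agent.Lib.MP_9cae81_R.Defs

/-!
# Marks of one formula (pure part)

`PF L ι` collects the marks of one formula: `ι` is the finite type of clauses that may be added
(unit clauses `u l` and 2-clauses `pr l l'` among them), `M g h` is the (normalised) increase of
the functional `v` when the disjunction of the conjunctions `g` and `h` is added.
-/

open Finset
open scoped BigOperators

namespace Pool.Agent.Lib.MP_9cae81_PC

open Pool.Agent.Lib.MP_9cae81_R

/-- Average over a finite type. -/
noncomputable def Av {L : Type} [Fintype L] (f : L → ℝ) : ℝ := (∑ l, f l) / (Fintype.card L : ℝ)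

/-- The harmonic value. -/
noncomputable def par (a b : ℝ) : ℝ := a * b / (a + b)

/-- The marks of one formula.  `M g h` is the mark of the disjunction of the conjunctions `g`, `h`. -/
structure PF (L ι : Type) [Fintype L] [Fintype ι] [DecidableEq ι] where
  u : L → ι
  pr : L → L → ι
  M : Finset ι → Finset ι → ℝ
  u_inj : Function.Injective u
  symm : ∀ g h, M g h = M h g
  empty : ∀ g, M ∅ g = 0
  mono : ∀ g g' h h', g ⊆ g' → h ⊆ h' → M g h ≤ M g' h'
  diag : ∀ g h, M g h ≤ M g g
  lip : ∀ g g' h h', g ⊆ g' → h ⊆ h' →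
    M g' h' - M g h ≤ (M g' g' - M g g) + (M h' h' - M h h)
  pair : ∀ l l', M {pr l l'} {pr l l'} = M {u l} {u l'}

/-- `q` are the intensities of a gadget with `c2` units and `β` pairs in the mean, each intensity
at most `ρ`. -/
structure Gad {L ι : Type} [Fintype L] [Fintype ι] [DecidableEq ι] (P : PF L ι) (q : ι → ℝ)
    (c2 β ρ : ℝ) : Prop where
  nonneg : ∀ p, 0 ≤ q p
  law : ∀ f : ι → ℝ, ∑ p, q p * f p =
    c2 * Av (fun l => f (P.u l)) + β * Av (fun l => Av (fun l' => f (P.pr l l')))
  qu : ∀ l, q (P.u l) = c2 / (Fintype.card L : ℝ)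
  small : ∀ p, q p ≤ ρ

/-- Expectation over two independent gadgets. -/
noncomputable def E2 {ι : Type} [Fintype ι] [DecidableEq ι] (q : ι → ℝ)
    (Φ : Finset ι → Finset ι → ℝ) : ℝ := EE q (fun a => EE q (fun b => Φ a b))

/-- The bump of scale `t`: equal to `1` if `a ≤ 4 t`, `t ≤ b ≤ 2 t` and `|r - par a b| ≥ t / 512`,
and `0` unless `a < 8 t`, `t / 2 < b < 4 t` and `|r - par a b| > t / 1024`. -/
noncomputable def ph (t a b r : ℝ) : ℝ :=
  min 1 (max 0 (1024 * |r - par a b| / t - 1)) * min 1 (max 0 (2 - a / (4 * t))) *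
    max 0 (min 1 (min (2 * b / t - 1) (2 - b / (2 * t))))

namespace PF

variable {L ι : Type} [Fintype L] [Fintype ι] [DecidableEq ι] (P : PF L ι) (q : ι → ℝ)

/-- Mark of a conjunction. -/
def D (g : Finset ι) : ℝ := P.M g g
/-- Mark of a literal. -/
def d (l : L) : ℝ := P.M {P.u l} {P.u l}
/-- Mark of the disjunction of two literals. -/
def r (l l' : L) : ℝ := P.M {P.u l} {P.u l'}
/-- Mark of the new variable `x` with sides `a` (for the negation) and `b`. -/
def dx (a b : Finset ι) : ℝ := P.M b b - P.M a b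
/-- Mark of the disjunction of the new variable and the literal `l`. -/
def rx (a b : Finset ι) (l : L) : ℝ := P.M b (insert (P.u l) a) - P.M a b
/-- Additivity defect. -/
noncomputable def e (g : Finset ι) (p : ι) : ℝ :=
  |P.M (insert p g) (insert p g) - P.M g g - P.M {p} {p}|

/-- The quadratic functional `k`. -/
noncomputable def Ks (s : ℝ) : ℝ := Av fun l => Av fun l' => (min (P.d l) (P.d l')) ^ s
noncomputable def S1 (s : ℝ) : ℝ := Av fun l => (P.d l) ^ s
noncomputable def Rs (s : ℝ) : ℝ := Av fun l => Av fun l' => (P.r l l') ^ s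
/-- `s`-moment of the additivity defects. -/
noncomputable def Er (s : ℝ) : ℝ := ∑ p, q p * EE q (fun g => (P.e g p) ^ s)
/-- `E min(d, t) / t`. -/
noncomputable def hh (t : ℝ) : ℝ := (Av fun l => min (P.d l) t) / t
/-- Proportion of pairs seen by the bump. -/
noncomputable def jt (t : ℝ) : ℝ :=
  Av fun l => Av fun y => if 0 < ph t (P.d l) (P.d y) (P.r l y) then 1 else 0
noncomputable def Gt (t : ℝ) : ℝ := Av fun l => Av fun y => ph t (P.d l) (P.d y) (P.r l y)
noncomputable def Nt (t : ℝ) : ℝ :=
  E2 q fun a b => Av fun y => ph t (P.dx a b) (P.d y) (P.rx a b y)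
/-- Proportion of literals with mark in `[t, 2 t)`. -/
noncomputable def De (t : ℝ) : ℝ := Av fun l => if t ≤ P.d l ∧ P.d l < 2 * t then 1 else 0

/-- The weighted square deviation of a table. -/
noncomputable def dv (s a b R : ℝ) : ℝ := (min a b) ^ s * ((R - par a b) / min a b) ^ 2
noncomputable def Dev1 (s : ℝ) : ℝ := Av fun l => Av fun l' => dv s (P.d l) (P.d l') (P.r l l')
noncomputable def DevE (s : ℝ) : ℝ := E2 q fun a b => dv s (P.D a) (P.D b) (P.M a b)
/-- `E min(D a, D b) ^ s`. -/
noncomputable def Em (s : ℝ) : ℝ := E2 q fun a b => (min (P.D a) (P.D b)) ^ s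

end PF

end Pool.Agent.Lib.MP_9cae81_PC
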