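import Pool.Agent.Lib.MP_9cae81_PC.Mg.G003
import Pool.Agent.Lib.MP_9cae81_PC.Mg.G005

/-!
# Consequences of the bounds (B2s), (B2d): deaths, mass, additivity

`DH` collects the hypotheses for one bracket (stationarity under unit clauses and gadgets with error
`ε ≤ μ³ / 8`, the bounds (B2s) and (B2d) with constant `K`).  Results, with `μ = muq q`, `m = mm`:
`D1`: `[s f] ≤ 3 μ m`, `D4`: `|3 [s³] - 2 m| ≤ 9 K μ m`, `D2a`: `[s; killed by a gadget] ≤ 14 μ m`,
`D2b`: `[v (Δ_A v)²] ≤ 550 K μ² m`, `D2c`: `[v² (1 - v); killed] ≤ 282 K μ^(3/2) m`,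
`D3`: `[v E_z (second difference of v along A and z)²] ≤ 600 K μ^(5/2) m`, for `A` a gadget and for
the disjunction of two gadgets.
-/

set_option autoImplicit false
set_option linter.unusedSectionVars false
set_option linter.unusedVariables false

open Finset Filter
open scoped BigOperators Topology

namespace Pool.Agent.Lib.MP_9cae81_PC

open Pool.Agent.Lib.MP_9cae81_R

/-- Hypotheses on one bracket. -/
structure DH (q : ℝ) (N : ℕ) (x y K ε : ℝ) : Prop where
  q0 : 0 < q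
  q1 : q < 1
  mu1 : muq q ≤ 1
  x0 : 0 ≤ x
  y0 : 0 ≤ y
  win : ∀ n ∈ Finset.Icc (N - MW N) (N + MW N), 1 ≤ n
  hc2 : ∀ n ∈ Finset.Icc (N - MW N) (N + MW N),
    (2 * Iv N x + 3 * Iw N y) * Fintype.card (Lt (Fin n)) ≤ 2
  hβ : ∀ n ∈ Finset.Icc (N - MW N) (N + MW N),
    3 * Iw N y * (Fintype.card (Lt (Fin n)) : ℝ) ^ 2 ≤ 2
  ε0 : 0 ≤ ε
  εmu : ε ≤ muq q ^ 3 / 8
  K1 : 1 ≤ K
  Kmu : K * muq q ≤ 1 / 2
  st1 : ∀ h : Fun, B1 h → |Br N x y (fun n => P1 (h n)) - Br N x y h| ≤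
    ε * (Br N x y (fun n S => |h n S|) + mm q N x y)
  stG : ∀ h : Fun, B1 h → ∀ τ : ℝ, 0 ≤ τ → τ ≤ 1 →
    |Br N x y (fun n S => GA (Iv N x) (Iw N y) τ (fun A => h n (S ∩ A))) - Br N x y h| ≤
      ε * (Br N x y (fun n S => |h n S|) + mm q N x y)
  B2s : Br N x y (fun n S => (AS (Fin n)).Gp q S) ≤ K * muq q ^ 2 * mm q N x y
  B2d : Br N x y (fun n S => vv q S * (AS (Fin n)).Gm q S) ≤ K * muq q ^ 2 * mm q N x y

/-- Mean square of the second difference of `v` along `A` and a uniform literal. -/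
noncomputable def SD {V : Type} [Fintype V] (q : ℝ) (A S : As V) : ℝ :=
  (∑ a : Lt V, sd2 q A (lit a) S ^ 2) / Fintype.card (Lt V)

namespace D

section

variable {V : Type} [Fintype V] {q : ℝ}

theorem SD_nonneg (A S : As V) : 0 ≤ SD q A S :=
  div_nonneg (Finset.sum_nonneg fun _ _ => sq_nonneg _) (by positivity)

theorem muq_def (q : ℝ) : (1 - q) / q = muq q := rfl

theorem muq_pos (hq : 0 < q) (hq1 : q < 1) : 0 < muq q := div_pos (by linarith) hq

variable [Nonempty V]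

theorem ss_nonneg (hq : 0 ≤ q) (hq1 : q < 1) (S : As V) : 0 ≤ ss q S :=
  (AS V).s_nonneg hq hq1 S

theorem ss_le_one (hq : 0 ≤ q) (hq1 : q < 1) (S : As V) : ss q S ≤ 1 :=
  (AS V).s_le_one hq hq1 S

theorem ss_le_vv (S : As V) : ss q S ≤ vv q S := (AS V).s_le_v S

theorem ss_empty (hq : 0 ≤ q) (hq1 : q < 1) : ss q (∅ : As V) = 0 :=
  (AS V).s_of_un hq hq1 una_emp

theorem ss_of_ne {S : As V} (h : S ≠ ∅) : ss q S = vv q S := (AS V).s_of_sat (una_of_ne h)

theorem ff_empty : ff (∅ : As V) = 0 := (AS V).f_of_un una_emp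

/-- `(P2 - 1) un ≤ f`. -/
theorem P2_una_le (S : As V) : P2 una S - una S ≤ ff S := by
  have h0 := (AS V).P2_sub_self (una : As V → ℝ) S
  have hc := Sys.card_pos' (L := Lt V)
  rw [h0, div_le_iff₀ (by positivity)]
  have h1 : ff S * (Fintype.card (Lt V) : ℝ) ^ 2 =
      ∑ a : Lt V, ∑ _b : Lt V, ((AS V).un ((AS V).iu a S) - (AS V).un S) := by
    show (∑ a : Lt V, ((AS V).un ((AS V).iu a S) - (AS V).un S)) / Fintype.card (Lt V) *
      (Fintype.card (Lt V) : ℝ) ^ 2 = _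
    simp only [Finset.sum_const, Finset.card_univ, nsmul_eq_mul, ← Finset.mul_sum]
    field_simp
  rw [h1]
  refine Finset.sum_le_sum fun a _ => Finset.sum_le_sum fun b _ => ?_
  have h2 := (AS V).un_ip_sub a b S
  have h3 := (AS V).fr01 a S
  have h4 := (AS V).fr01 b S
  have h5 : una ((AS V).ip a b S) - una S = (AS V).un ((AS V).ip a b S) - (AS V).un S := rfl
  rw [h5, h2]
  nlinarith [h3.1, h3.2, h4.1, h4.2]

theorem P1_mul (c : ℝ) (h : As V → ℝ) (S : As V) : P1 (fun T => c * h T) S = c * P1 h S := by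
  rw [B2.P1_def, B2.P1_def, ← Finset.mul_sum, mul_div_assoc]

theorem P2_mul (c : ℝ) (h : As V → ℝ) (S : As V) : P2 (fun T => c * h T) S = c * P2 h S := by
  rw [B2.P2_def, B2.P2_def]
  simp only [← Finset.mul_sum]
  rw [mul_div_assoc]

/-- `s(M) f(S) ≤ s(S) f(S)` for `S ⊆ M`. -/
theorem ss_ff_le (hq : 0 ≤ q) (hq1 : q < 1) {M S : As V} (h : S ⊆ M) :
    ss q M * ff S ≤ ss q S * ff S := by
  by_cases hS : S = ∅
  · rw [hS, ff_empty, mul_zero, mul_zero]
  · have hM : M ≠ ∅ := fun h' => hS (Set.subset_eq_empty h h')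
    refine mul_le_mul_of_nonneg_right ?_ (ff_nonneg S)
    rw [ss_of_ne hM, ss_of_ne hS]
    exact vv_anti hq hq1 h

end

section

variable {q : ℝ} {N : ℕ} {x y : ℝ}

theorem Br_congr {h h' : (n : ℕ) → As (Fin n) → ℝ}
    (H : ∀ n ∈ Finset.Icc (N - MW N) (N + MW N), ∀ S, h n S = h' n S) :
    Br N x y h = Br N x y h' := by
  unfold Br
  refine Finset.sum_congr rfl fun n hn => ?_
  have : h n = h' n := funext (H n hn)
  rw [this]

theorem neF {n : ℕ} (hn : 1 ≤ n) : Nonempty (Fin n) := ⟨⟨0, hn⟩⟩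

end

end D

/-- An average over gadgets, for every number of variables. -/
structure GAv where
  G : (n : ℕ) → (As (Fin n) → ℝ) → ℝ
  add : ∀ n Φ Ψ, G n (fun A => Φ A + Ψ A) = G n Φ + G n Ψ
  mul : ∀ n c Φ, G n (fun A => c * Φ A) = c * G n Φ
  mono : ∀ n Φ Ψ, (∀ A, Φ A ≤ Ψ A) → G n Φ ≤ G n Ψ
  one : ∀ n, G n (fun _ => 1) = 1

namespace GAv

variable (𝒢 : GAv)

theorem zero (n : ℕ) : 𝒢.G n (fun _ => 0) = 0 := by
  have := 𝒢.mul n 0 (fun _ => 1)
  simpa using this

theorem sum {β : Type} (n : ℕ) (s : Finset β) (Φ : β → As (Fin n) → ℝ) :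
    𝒢.G n (fun A => ∑ b ∈ s, Φ b A) = ∑ b ∈ s, 𝒢.G n (Φ b) := by
  classical
  induction s using Finset.induction_on with
  | empty => simpa using 𝒢.zero n
  | insert b s hb ih =>
    simp only [Finset.sum_insert hb]
    rw [𝒢.add, ih]

theorem nonneg (n : ℕ) {Φ : As (Fin n) → ℝ} (h : ∀ A, 0 ≤ Φ A) : 0 ≤ 𝒢.G n Φ := by
  have := 𝒢.mono n (fun _ => 0) Φ h
  rwa [𝒢.zero] at this

theorem le_one (n : ℕ) {Φ : As (Fin n) → ℝ} (h : ∀ A, Φ A ≤ 1) : 𝒢.G n Φ ≤ 1 := by
  have := 𝒢.mono n Φ (fun _ => 1) h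
  rwa [𝒢.one] at this

theorem P1_comm {n : ℕ} (Φ : As (Fin n) → As (Fin n) → ℝ) (S : As (Fin n)) :
    P1 (fun T => 𝒢.G n (fun A => Φ A T)) S = 𝒢.G n (fun A => P1 (Φ A) S) := by
  simp only [B2.P1_def, div_eq_inv_mul]
  rw [𝒢.mul, 𝒢.sum]

end GAv

/-- One gadget. -/
noncomputable def GAv1 {v w : ℝ} (hv : 0 ≤ v) (hw : 0 ≤ w) : GAv where
  G n Φ := GA v w 1 Φ
  add n Φ Ψ := B2.GA_add _ _ _ _ _
  mul n c Φ := B2.GA_mul _ _ _ _ _
  mono n Φ Ψ h := B2.GA_mono hv hw zero_le_one h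
  one n := B2.GA_const _ _ _ _

/-- The disjunction of two gadgets. -/
noncomputable def GAv2 {v w : ℝ} (hv : 0 ≤ v) (hw : 0 ≤ w) : GAv where
  G n Φ := GA v w 1 (fun A => GA v w 1 (fun B => Φ (A ∪ B)))
  add n Φ Ψ := by simp only [B2.GA_add]
  mul n c Φ := by simp only [B2.GA_mul]
  mono n Φ Ψ h := B2.GA_mono hv hw zero_le_one fun A => B2.GA_mono hv hw zero_le_one fun B => h _
  one n := by simp only [B2.GA_const]

open D B2

namespace DH

variable {q : ℝ} {N : ℕ} {x y K ε : ℝ} (H : DH q N x y K ε)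

include H

theorem mm0 : 0 ≤ mm q N x y := Br_nonneg H.x0 H.y0 fun _ _ _ => sq_nonneg _

theorem mu0 : 0 < muq q := muq_pos H.q0 H.q1

theorem eps_le_mu : ε ≤ muq q / 8 := by
  have h1 := H.εmu
  have h2 := H.mu0
  have h3 := H.mu1
  nlinarith [mul_nonneg h2.le h2.le, mul_le_one₀ h3 h2.le h3]

/-- Stationarity for functionals bounded by one only for `n ≥ 1`. -/
theorem st1' (h : Fun) (hh : ∀ n, 1 ≤ n → ∀ S, |h n S| ≤ 1) :
    |Br N x y (fun n => P1 (h n)) - Br N x y h| ≤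
      ε * (Br N x y (fun n S => |h n S|) + mm q N x y) := by
  have key := H.st1 (fun n S => if 1 ≤ n then h n S else 0) ?_
  · have e1 : Br N x y (fun n => P1 ((fun n S => if 1 ≤ n then h n S else 0) n)) =
        Br N x y (fun n => P1 (h n)) := by
      refine Br_congr fun n hn S => ?_
      have : (fun S : As (Fin n) => if 1 ≤ n then h n S else 0) = h n := by
        funext S; rw [if_pos (H.win n hn)]
      show P1 (fun S : As (Fin n) => if 1 ≤ n then h n S else 0) S = _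
      rw [this]
    have e2 : Br N x y (fun n S => if 1 ≤ n then h n S else 0) = Br N x y h :=
      Br_congr fun n hn S => by rw [if_pos (H.win n hn)]
    have e3 : Br N x y (fun n S => |if 1 ≤ n then h n S else 0|) =
        Br N x y (fun n S => |h n S|) :=
      Br_congr fun n hn S => by rw [if_pos (H.win n hn)]
    rw [e1, e2, e3] at key
    exact key
  · intro n S
    by_cases hn : 1 ≤ n
    · simp only [if_pos hn]; exact hh n hn S
    · simp only [if_neg hn, abs_zero]; norm_num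

/-- Stationarity under gadgets for functionals in `[0, 1]` for `n ≥ 1`, one-sided. -/
theorem stG' (h : Fun) (h0 : ∀ n, 1 ≤ n → ∀ S, 0 ≤ h n S) (h1 : ∀ n, 1 ≤ n → ∀ S, h n S ≤ 1)
    {τ : ℝ} (hτ : τ ∈ Set.Icc (0 : ℝ) 1) :
    Br N x y (fun n S => GA (Iv N x) (Iw N y) τ (fun A => h n (S ∩ A))) ≤
      (1 + ε) * Br N x y h + ε * mm q N x y := by
  have key := H.stG (fun n S => if 1 ≤ n then h n S else 0) ?_ τ hτ.1 hτ.2
  · have e1 : Br N x y (fun n S => GA (Iv N x) (Iw N y) τ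
        (fun A => if 1 ≤ n then h n (S ∩ A) else 0)) =
        Br N x y (fun n S => GA (Iv N x) (Iw N y) τ (fun A => h n (S ∩ A))) := by
      refine Br_congr fun n hn S => ?_
      simp only [if_pos (H.win n hn)]
    have e2 : Br N x y (fun n S => if 1 ≤ n then h n S else 0) = Br N x y h :=
      Br_congr fun n hn S => by rw [if_pos (H.win n hn)]
    have e3 : Br N x y (fun n S => |if 1 ≤ n then h n S else 0|) = Br N x y h :=
      Br_congr fun n hn S => by
        rw [if_pos (H.win n hn), abs_of_nonneg (h0 n (H.win n hn) S)]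
    rw [e1, e2, e3] at key
    have := (abs_le.1 key).2
    linarith
  · intro n S
    by_cases hn : 1 ≤ n
    · simp only [if_pos hn]; rw [abs_of_nonneg (h0 n hn S)]; exact h1 n hn S
    · simp only [if_neg hn, abs_zero]; norm_num

/-! ### D1, D4 -/

theorem sB (n : ℕ) (hn : 1 ≤ n) (S : As (Fin n)) (k : ℕ) : |ss q S ^ k| ≤ 1 := by
  have := neF hn
  rw [abs_of_nonneg (pow_nonneg (ss_nonneg H.q0.le H.q1 S) k)]
  exact pow_le_one₀ (ss_nonneg H.q0.le H.q1 S) (ss_le_one H.q0.le H.q1 S)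

/-- **D1.** -/
theorem D1 : Br N x y (fun _ S => ss q S * ff S) ≤ 3 * muq q * mm q N x y := by
  have hm := H.mm0
  have hst := H.st1' (fun _ S => ss q S ^ 2) fun n hn S => H.sB n hn S 2
  have e3 : Br N x y (fun _ S => |ss q S ^ 2|) = mm q N x y :=
    Br_congr fun n _ S => abs_of_nonneg (sq_nonneg _)
  rw [e3] at hst
  have e4 : Br N x y (fun _ S => ss q S ^ 2) = mm q N x y := rfl
  rw [e4] at hst
  have h1 : Br N x y (fun _ S => ss q S * ff S) ≤ Br N x y (fun n S =>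
      (2 * muq q * ss q S ^ 2 + (AS (Fin n)).Gp q S) -
        (P1 (fun T => ss q T ^ 2) S - ss q S ^ 2)) := by
    refine Br_mono H.x0 H.y0 fun n hn S => ?_
    have := neF (H.win n hn)
    have h2 := (AS (Fin n)).P1_ssq H.q0 H.q1 S
    have h3 := (AS (Fin n)).f_s_le H.q0.le H.q1 S
    rw [muq_def] at h2
    show ss q S * ff S ≤ (2 * muq q * ss q S ^ 2 + (AS (Fin n)).Gp q S) -
        ((AS (Fin n)).P1 (fun T => (AS (Fin n)).s q T ^ 2) S - (AS (Fin n)).s q S ^ 2)
    rw [h2, mul_comm (ss q S)]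
    show (AS (Fin n)).f S * (AS (Fin n)).s q S ≤ _
    show _ ≤ (2 * muq q * (AS (Fin n)).s q S ^ 2 + (AS (Fin n)).Gp q S) - _
    linarith
  rw [Br_sub, Br_sub, Br_add, Br_mul, e4] at h1
  have h5 := (abs_le.1 hst).1
  have h6 := H.B2s
  have h7 := H.eps_le_mu
  have h8 := H.Kmu
  have h9 := H.mu0
  have h10 : Br N x y (fun n S => P1 (fun T => ss q T ^ 2) S) =
      Br N x y (fun n => P1 ((fun _ S => ss q S ^ 2) n)) := rfl
  rw [h10] at h1
  have h11 : K * muq q ^ 2 ≤ muq q / 2 := by nlinarith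
  have h12 : K * muq q ^ 2 * mm q N x y ≤ muq q / 2 * mm q N x y :=
    mul_le_mul_of_nonneg_right h11 hm
  have h13 : ε * (mm q N x y + mm q N x y) ≤ muq q / 8 * (mm q N x y + mm q N x y) :=
    mul_le_mul_of_nonneg_right h7 (by linarith)
  nlinarith [mul_nonneg h9.le hm]

/-- `[v (1 - v)² f] ≤ K μ² m`. -/
theorem D1' : Br N x y (fun _ S => vv q S * (ff S * (1 - vv q S) ^ 2)) ≤
    K * muq q ^ 2 * mm q N x y := by
  refine le_trans (Br_mono H.x0 H.y0 fun n hn S => ?_) H.B2d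
  have := neF (H.win n hn)
  refine mul_le_mul_of_nonneg_left ?_ (vv_nonneg H.q0.le H.q1 S)
  have h2 := (AS (Fin n)).Gm_eq H.q0.le H.q1 S
  have h3 := (AS (Fin n)).Gp_nonneg (q := q) S
  show (AS (Fin n)).f S * (1 - (AS (Fin n)).v q S) ^ 2 ≤ _
  linarith

/-- **D4.** -/
theorem D4 : |3 * Br N x y (fun _ S => ss q S ^ 3) - 2 * mm q N x y| ≤
    6 * K * muq q * mm q N x y := by
  have hm := H.mm0
  have hst := H.st1' (fun _ S => ss q S ^ 2) fun n hn S => H.sB n hn S 2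
  have e3 : Br N x y (fun _ S => |ss q S ^ 2|) = mm q N x y :=
    Br_congr fun n _ S => abs_of_nonneg (sq_nonneg _)
  have e4 : Br N x y (fun _ S => ss q S ^ 2) = mm q N x y := rfl
  rw [e3, e4] at hst
  have hst3 := H.st1' (fun _ S => ss q S ^ 3) fun n hn S => H.sB n hn S 3
  have e5 : Br N x y (fun _ S => |ss q S ^ 3|) ≤ mm q N x y :=
    Br_mono H.x0 H.y0 fun n hn S => by
      have := neF (H.win n hn)
      have h0 := ss_nonneg H.q0.le H.q1 S
      have h1 := ss_le_one H.q0.le H.q1 S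
      rw [abs_of_nonneg (pow_nonneg h0 3)]
      exact pow_le_pow_of_le_one h0 h1 (by norm_num)
  have e6 : Br N x y (fun _ S => ss q S ^ 3) ≤ mm q N x y :=
    (Br_mono H.x0 H.y0 fun n _ S => le_abs_self _).trans e5
  -- the bulk identity
  have hb1 : Br N x y (fun n S => (P1 (fun T => ss q T ^ 2) S - ss q S ^ 2) -
      (P1 (fun T => ss q T ^ 3) S - ss q S ^ 3) -
        muq q * (2 * ss q S ^ 2 - 3 * ss q S ^ 3)) ≤
      Br N x y (fun n S => 3 * (AS (Fin n)).Gp q S + 2 * (vv q S * (AS (Fin n)).Gm q S)) := by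
    refine Br_mono H.x0 H.y0 fun n hn S => ?_
    have := neF (H.win n hn)
    have h2 := (abs_le.1 ((AS (Fin n)).bulk H.q0 H.q1 S)).2
    have h3 : (AS (Fin n)).s q S * (AS (Fin n)).Gm q S ≤ (AS (Fin n)).v q S * (AS (Fin n)).Gm q S :=
      mul_le_mul_of_nonneg_right ((AS (Fin n)).s_le_v S) ((AS (Fin n)).Gm_nonneg S)
    refine le_trans h2 ?_
    show _ ≤ 3 * (AS (Fin n)).Gp q S + 2 * ((AS (Fin n)).v q S * (AS (Fin n)).Gm q S)
    linarith
  have hb2 : Br N x y (fun n S => -(3 * (AS (Fin n)).Gp q S + 2 * (vv q S * (AS (Fin n)).Gm q S))) ≤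
      Br N x y (fun n S => (P1 (fun T => ss q T ^ 2) S - ss q S ^ 2) -
      (P1 (fun T => ss q T ^ 3) S - ss q S ^ 3) -
        muq q * (2 * ss q S ^ 2 - 3 * ss q S ^ 3)) := by
    refine Br_mono H.x0 H.y0 fun n hn S => ?_
    have := neF (H.win n hn)
    have h2 := (abs_le.1 ((AS (Fin n)).bulk H.q0 H.q1 S)).1
    have h3 : (AS (Fin n)).s q S * (AS (Fin n)).Gm q S ≤ (AS (Fin n)).v q S * (AS (Fin n)).Gm q S :=
      mul_le_mul_of_nonneg_right ((AS (Fin n)).s_le_v S) ((AS (Fin n)).Gm_nonneg S)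
    refine le_trans ?_ h2
    show -(3 * (AS (Fin n)).Gp q S + 2 * ((AS (Fin n)).v q S * (AS (Fin n)).Gm q S)) ≤ _
    linarith
  have e7 : ∀ h : Fun, Br N x y (fun n S => -h n S) = -Br N x y h := by
    intro h
    have := Br_mul (N := N) (x := x) (y := y) (-1) h
    simpa using this
  rw [e7] at hb2
  simp only [Br_sub, Br_add, Br_mul] at hb1 hb2
  rw [e4] at hb1 hb2
  have h10 : Br N x y (fun n S => P1 (fun T => ss q T ^ 2) S) =
      Br N x y (fun n => P1 ((fun _ S => ss q S ^ 2) n)) := rfl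
  have h11 : Br N x y (fun n S => P1 (fun T => ss q T ^ 3) S) =
      Br N x y (fun n => P1 ((fun _ S => ss q S ^ 3) n)) := rfl
  rw [h10, h11] at hb1 hb2
  have h5 := abs_le.1 hst
  have h5' := abs_le.1 hst3
  have h6 := H.B2s
  have h6' := H.B2d
  have h9 := H.mu0
  have hε := H.ε0
  set X := Br N x y (fun _ S => ss q S ^ 3) with hX
  set m := mm q N x y with hmdef
  have h12 : ε * (m + m) ≤ muq q ^ 3 / 8 * (m + m) :=
    mul_le_mul_of_nonneg_right H.εmu (by linarith)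
  have h13 : ε * (Br N x y (fun _ S => |ss q S ^ 3|) + m) ≤ muq q ^ 3 / 8 * (m + m) :=
    (mul_le_mul_of_nonneg_left (by linarith) hε).trans h12
  have h14 : muq q * |3 * X - 2 * m| ≤ 5 * K * muq q ^ 2 * m + muq q ^ 3 * m / 2 := by
    rw [← abs_of_pos h9, ← abs_mul, abs_of_pos h9, abs_le]
    constructor <;> nlinarith
  have hmu1 := H.mu1
  have hK1 := H.K1
  have h15 : muq q ^ 3 * m / 2 ≤ K * muq q ^ 2 * m / 2 := by
    have : muq q ^ 3 ≤ K * muq q ^ 2 := by
      have : muq q ^ 3 = muq q * muq q ^ 2 := by ring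
      rw [this]
      exact mul_le_mul_of_nonneg_right (by linarith) (sq_nonneg _)
    nlinarith [mul_le_mul_of_nonneg_right this hm]
  have h16 : muq q * |3 * X - 2 * m| ≤ muq q * (6 * K * muq q * m) := by
    have : muq q * (6 * K * muq q * m) = 6 * (K * muq q ^ 2 * m) := by ring
    rw [this]
    have h17 : 0 ≤ K * muq q ^ 2 * m := by positivity
    nlinarith
  exact le_of_mul_le_mul_left h16 h9

/-! ### D2: one gadget -/

theorem hv0 : 0 ≤ Iv N x := Iv_nonneg H.x0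
theorem hw0 : 0 ≤ Iw N y := Iw_nonneg H.y0
theorem c0 (n : ℕ) : 0 ≤ (2 * Iv N x + 3 * Iw N y) * Fintype.card (Lt (Fin n)) :=
  mul_nonneg (by linarith [H.hv0, H.hw0]) (by positivity)
theorem b0 (n : ℕ) : 0 ≤ 3 * Iw N y * (Fintype.card (Lt (Fin n)) : ℝ) ^ 2 :=
  mul_nonneg (by linarith [H.hw0]) (by positivity)

/-- **D2a.**  Deaths by a gadget. -/
theorem D2a : Br N x y (fun _ M => GA (Iv N x) (Iw N y) 1 (fun A => ss q M * una (M ∩ A))) ≤
    14 * muq q * mm q N x y := by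
  have hm := H.mm0
  have hmu := H.mu0
  have h7 := H.eps_le_mu
  have hmu1 := H.mu1
  have hε := H.ε0
  have key := Br_growth (N := N) (x := x) (y := y) H.x0 H.y0 H.hv0 H.hw0
    (g := fun n M S => ss q M * una S) (U := fun n S => 4 * (ss q S * ff S))
    (a := 14 * muq q * mm q N x y) (b := 0) le_rfl (by positivity) ?_ ?_
  · refine key.trans ?_
    have e0 : Br N x y (fun _ M => ss q M * una M) = 0 := by
      have h1 : Br N x y (fun n M => ss q M * una M) = Br N x y (fun _ _ => 0 * 0) := by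
        refine Br_congr fun n hn M => ?_
        have := neF (H.win n hn)
        by_cases hM : M = ∅
        · rw [hM, ss_empty H.q0.le H.q1]; ring
        · rw [una_of_ne hM]; ring
      rw [h1, Br_mul, zero_mul]
    rw [e0, Real.exp_zero]
    linarith
  · intro n hn M S hS
    have := neF (H.win n hn)
    rw [P1_mul, P2_mul]
    have h1 : P1 una S - una S = ff S := ((AS (Fin n)).f_eq S).symm
    have h2 := P2_una_le S
    have h3 := ss_ff_le H.q0.le H.q1 hS
    have h4 := ss_nonneg H.q0.le H.q1 M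
    have h5 := ff_nonneg S
    have h6 : ss q M * (P2 una S - una S) ≤ ss q S * ff S :=
      (mul_le_mul_of_nonneg_left h2 h4).trans h3
    have h8 : ss q M * (P1 una S - una S) ≤ ss q S * ff S := by rw [h1]; exact h3
    have h9 := mul_nonneg (ss_nonneg H.q0.le H.q1 S) h5
    have h10 := mul_le_mul_of_nonneg_left h8 (H.c0 n)
    have h11 := mul_le_mul_of_nonneg_left h6 (H.b0 n)
    have h12 := mul_le_mul_of_nonneg_right (H.hc2 n hn) h9
    have h13 := mul_le_mul_of_nonneg_right (H.hβ n hn) h9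
    calc _ = (2 * Iv N x + 3 * Iw N y) * Fintype.card (Lt (Fin n)) *
          (ss q M * (P1 una S - una S)) + 3 * Iw N y * (Fintype.card (Lt (Fin n)) : ℝ) ^ 2 *
          (ss q M * (P2 una S - una S)) := by ring
      _ ≤ _ := by linarith
  · intro τ hτ
    have h1 := H.stG' (fun n S => ss q S * ff S) (fun n hn S => by
      have := neF hn
      exact mul_nonneg (ss_nonneg H.q0.le H.q1 S) (ff_nonneg S)) (fun n hn S => by
      have := neF hn
      exact mul_le_one₀ (ss_le_one H.q0.le H.q1 S) (ff_nonneg S) (ff_le_one S)) hτ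
    have h2 : Br N x y (fun n M => GA (Iv N x) (Iw N y) τ
        (fun A => 4 * (ss q (M ∩ A) * ff (M ∩ A)))) =
        4 * Br N x y (fun n M => GA (Iv N x) (Iw N y) τ
        (fun A => ss q (M ∩ A) * ff (M ∩ A))) := by
      simp only [GA_mul, Br_mul]
    rw [h2]
    have h3 := H.D1
    have h4 : (1 + ε) * Br N x y (fun n S => ss q S * ff S) ≤
        (1 + ε) * (3 * muq q * mm q N x y) :=
      mul_le_mul_of_nonneg_left h3 (by linarith)
    have h5 : (1 + ε) * (3 * muq q * mm q N x y) ≤ (1 + 1 / 8) * (3 * muq q * mm q N x y) :=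
      mul_le_mul_of_nonneg_right (by linarith) (by positivity)
    have h6 : ε * mm q N x y ≤ muq q / 8 * mm q N x y :=
      mul_le_mul_of_nonneg_right h7 hm
    nlinarith [mul_nonneg hmu.le hm]

/-- **D2b.**  Second moment of the increment of `v` along a gadget. -/
theorem D2b : Br N x y (fun _ M => GA (Iv N x) (Iw N y) 1
    (fun A => vv q M * (vv q (M ∩ A) - vv q M) ^ 2)) ≤
    550 * K * muq q ^ 2 * mm q N x y := by
  have hm := H.mm0
  have hmu := H.mu0
  have h7 := H.eps_le_mu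
  have hmu1 := H.mu1
  have hε := H.ε0
  have hK := H.K1
  have hεmu := H.εmu
  have key := Br_growth (N := N) (x := x) (y := y) H.x0 H.y0 H.hv0 H.hw0
    (g := fun n M S => vv q M * (vv q S - vv q M) ^ 2)
    (U := fun n S => 2 * (vv q S * (AS (Fin n)).Gm q S) + 6 * muq q ^ 2 * ss q S ^ 2)
    (a := 10 * K * muq q ^ 2 * mm q N x y) (b := 4) (by norm_num) (by positivity) ?_ ?_
  · refine key.trans ?_
    have e0 : Br N x y (fun _ M => vv q M * (vv q M - vv q M) ^ 2) = 0 := by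
      have h1 : Br N x y (fun n M => vv q M * (vv q M - vv q M) ^ 2) =
          Br N x y (fun _ _ => 0 * 0) := by
        refine Br_congr fun n hn M => ?_
        ring
      rw [h1, Br_mul, zero_mul]
    rw [e0, zero_add]
    have h4 : Real.exp 4 ≤ 55 := by
      have h1 := Real.exp_one_lt_d9
      have h2 : Real.exp 4 = Real.exp 1 ^ 4 := by rw [← Real.exp_nat_mul]; norm_num
      rw [h2]
      have h3 : Real.exp 1 ^ 4 ≤ 2.7182818286 ^ 4 :=
        pow_le_pow_left₀ (Real.exp_pos 1).le h1.le 4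
      norm_num at h3 ⊢
      linarith
    have h5 : 0 ≤ K * muq q ^ 2 * mm q N x y := by positivity
    nlinarith
  · intro n hn M S hS
    have := neF (H.win n hn)
    have hvM := vv_nonneg H.q0.le H.q1 M
    have hvS := vv_nonneg H.q0.le H.q1 S
    have hvM1 := vv_le_one H.q0.le H.q1 M
    have hMS := vv_anti H.q0.le H.q1 hS
    have hs0 := ss_nonneg H.q0.le H.q1 S
    have hGm := (AS (Fin n)).Gm_nonneg (q := q) S
    have hGc := (AS (Fin n)).Gc_le H.q0 H.q1 S
    rw [muq_def] at hGc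
    have hs1 := (AS (Fin n)).step_m1 H.q0 H.q1 (vv q M) S
    have hs2 := (AS (Fin n)).step_m2 H.q0 H.q1 (vv q M) (x := S) hMS
    rw [muq_def] at hs1 hs2
    rw [P1_mul, P2_mul]
    have h1 : P1 (fun T => (vv q T - vv q M) ^ 2) S - (vv q S - vv q M) ^ 2 =
        (AS (Fin n)).Gm q S + 2 * muq q * (vv q S - vv q M) * ss q S := by
      show (AS (Fin n)).P1 (fun T => ((AS (Fin n)).v q T - vv q M) ^ 2) S -
        ((AS (Fin n)).v q S - vv q M) ^ 2 = _
      rw [hs1]
      show _ = (AS (Fin n)).Gm q S + 2 * muq q * ((AS (Fin n)).v q S - vv q M) *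
        (AS (Fin n)).s q S
      ring
    have h2 : P2 (fun T => (vv q T - vv q M) ^ 2) S - (vv q S - vv q M) ^ 2 ≤
        (muq q * ss q S) ^ 2 + 2 * muq q * (vv q S - vv q M) * ss q S := by
      show (AS (Fin n)).P2 (fun T => ((AS (Fin n)).v q T - vv q M) ^ 2) S -
        ((AS (Fin n)).v q S - vv q M) ^ 2 ≤ (muq q * (AS (Fin n)).s q S) ^ 2 +
          2 * muq q * ((AS (Fin n)).v q S - vv q M) * (AS (Fin n)).s q S
      linarith
    set G := (AS (Fin n)).Gm q S with hG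
    set v0 := vv q M with hv0
    set v1 := vv q S with hv1
    set s := ss q S with hs
    set μ := muq q with hμ
    have hc := H.hc2 n hn
    have hb := H.hβ n hn
    have hc0 := H.c0 n
    have hb0 := H.b0 n
    set c := (2 * Iv N x + 3 * Iw N y) * Fintype.card (Lt (Fin n)) with hcdef
    set b := 3 * Iw N y * (Fintype.card (Lt (Fin n)) : ℝ) ^ 2 with hbdef
    have hdv : 0 ≤ v1 - v0 := by linarith
    have hX : 0 ≤ 2 * μ * (v1 - v0) * s := by positivity
    have h3 : 2 * μ * (v1 - v0) * s ≤ (v1 - v0) ^ 2 + μ ^ 2 * s ^ 2 := by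
      nlinarith [sq_nonneg ((v1 - v0) - μ * s)]
    -- c-part
    have h4 : c * (v0 * (G + 2 * μ * (v1 - v0) * s)) ≤ 2 * (v0 * (G + 2 * μ * (v1 - v0) * s)) :=
      mul_le_mul_of_nonneg_right hc (by positivity)
    have h5 : b * (v0 * ((μ * s) ^ 2 + 2 * μ * (v1 - v0) * s)) ≤
        2 * (v0 * ((μ * s) ^ 2 + 2 * μ * (v1 - v0) * s)) :=
      mul_le_mul_of_nonneg_right hb (by positivity)
    have h6 : b * (v0 * (P2 (fun T => (vv q T - v0) ^ 2) S - (v1 - v0) ^ 2)) ≤
        b * (v0 * ((μ * s) ^ 2 + 2 * μ * (v1 - v0) * s)) :=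
      mul_le_mul_of_nonneg_left (mul_le_mul_of_nonneg_left h2 hvM) hb0
    have h8 : v0 * G ≤ v1 * G := mul_le_mul_of_nonneg_right hMS hGm
    have h9 : v0 * (2 * μ * (v1 - v0) * s) ≤ v0 * ((v1 - v0) ^ 2 + μ ^ 2 * s ^ 2) :=
      mul_le_mul_of_nonneg_left h3 hvM
    have h10 : v0 * (μ ^ 2 * s ^ 2) ≤ μ ^ 2 * s ^ 2 :=
      mul_le_of_le_one_left (by positivity) hvM1
    calc _ = c * (v0 * (P1 (fun T => (vv q T - v0) ^ 2) S - (v1 - v0) ^ 2)) +
          b * (v0 * (P2 (fun T => (vv q T - v0) ^ 2) S - (v1 - v0) ^ 2)) := by ring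
      _ ≤ c * (v0 * (G + 2 * μ * (v1 - v0) * s)) +
          b * (v0 * ((μ * s) ^ 2 + 2 * μ * (v1 - v0) * s)) := by rw [h1]; linarith
      _ ≤ _ := by nlinarith
  · intro τ hτ
    have h1 := H.stG' (fun n S => vv q S * (AS (Fin n)).Gm q S) (fun n hn S => by
      have := neF hn
      exact mul_nonneg (vv_nonneg H.q0.le H.q1 S) ((AS (Fin n)).Gm_nonneg S)) (fun n hn S => by
      have := neF hn
      refine mul_le_one₀ (vv_le_one H.q0.le H.q1 S) ((AS (Fin n)).Gm_nonneg S) ?_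
      have h2 := (AS (Fin n)).Gm_le H.q0 H.q1 S
      rw [muq_def] at h2
      exact h2.trans (mul_le_one₀ hmu1 (ss_nonneg H.q0.le H.q1 S)
        (ss_le_one H.q0.le H.q1 S))) hτ
    have h2 := H.stG' (fun n S => ss q S ^ 2) (fun n hn S => sq_nonneg _) (fun n hn S => by
      exact (le_abs_self _).trans (H.sB n hn S 2)) hτ
    have e4 : Br N x y (fun _ S => ss q S ^ 2) = mm q N x y := rfl
    rw [e4] at h2
    have h3 : Br N x y (fun n M => GA (Iv N x) (Iw N y) τ (fun A =>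
        2 * (vv q (M ∩ A) * (AS (Fin n)).Gm q (M ∩ A)) + 6 * muq q ^ 2 * ss q (M ∩ A) ^ 2)) =
        2 * Br N x y (fun n M => GA (Iv N x) (Iw N y) τ (fun A =>
          vv q (M ∩ A) * (AS (Fin n)).Gm q (M ∩ A))) +
        6 * muq q ^ 2 * Br N x y (fun n M => GA (Iv N x) (Iw N y) τ (fun A =>
          ss q (M ∩ A) ^ 2)) := by
      simp only [GA_add, GA_mul, Br_add, Br_mul]
    rw [h3]
    have hB := H.B2d
    set X := Br N x y (fun n S => vv q S * (AS (Fin n)).Gm q S) with hX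
    set m := mm q N x y with hmdef
    set μ := muq q with hμ
    have h4 : (1 + ε) * X ≤ (1 + ε) * (K * μ ^ 2 * m) :=
      mul_le_mul_of_nonneg_left hB (by linarith)
    have hε8 : ε ≤ 1 / 8 := by linarith
    have hε2 : ε ≤ μ ^ 2 / 8 := by
      have : μ ^ 3 ≤ μ ^ 2 := pow_le_pow_of_le_one hmu.le hmu1 (by norm_num)
      linarith
    have h5 : (1 + ε) * (K * μ ^ 2 * m) ≤ (1 + 1 / 8) * (K * μ ^ 2 * m) :=
      mul_le_mul_of_nonneg_right (by linarith) (by positivity)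
    have h6 : ε * m ≤ μ ^ 2 / 8 * m := mul_le_mul_of_nonneg_right hε2 hm
    have h8 : (1 + ε) * m + ε * m ≤ 10 / 8 * m := by nlinarith
    have h9 : 6 * μ ^ 2 * Br N x y (fun n M => GA (Iv N x) (Iw N y) τ (fun A =>
          ss q (M ∩ A) ^ 2)) ≤ 6 * μ ^ 2 * (10 / 8 * m) :=
      mul_le_mul_of_nonneg_left (h2.trans h8) (by positivity)
    have h10 : μ ^ 2 * m ≤ K * μ ^ 2 * m := by
      have : 0 ≤ μ ^ 2 * m := by positivity
      nlinarith
    nlinarith

/-- **D2c.** -/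
theorem D2c : Br N x y (fun _ M => GA (Iv N x) (Iw N y) 1
    (fun A => vv q M ^ 2 * (1 - vv q M) * (una (M ∩ A) - una M))) ≤
    282 * K * muq q * Real.sqrt (muq q) * mm q N x y := by
  have hm := H.mm0
  have hmu := H.mu0
  have hK := H.K1
  set r := Real.sqrt (muq q) with hr
  have hr0 : 0 < r := Real.sqrt_pos.2 hmu
  have hr2 : r ^ 2 = muq q := Real.sq_sqrt hmu.le
  have h1 : Br N x y (fun _ M => GA (Iv N x) (Iw N y) 1
      (fun A => vv q M ^ 2 * (1 - vv q M) * (una (M ∩ A) - una M))) ≤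
      Br N x y (fun _ M => GA (Iv N x) (Iw N y) 1
      (fun A => r / 2 * (ss q M * una (M ∩ A)) +
        1 / (2 * r) * (vv q M * (vv q (M ∩ A) - vv q M) ^ 2))) := by
    refine Br_mono H.x0 H.y0 fun n hn M => GA_mono H.hv0 H.hw0 zero_le_one fun A => ?_
    have := neF (H.win n hn)
    have hvM := vv_nonneg H.q0.le H.q1 M
    have hvM1 := vv_le_one H.q0.le H.q1 M
    have hs := ss_nonneg H.q0.le H.q1 M
    rcases una01 (M ∩ A) with h | h
    · have h2 : una M = 0 := by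
        have := una_anti (S := M ∩ A) (T := M) Set.inter_subset_left
        have := una_nonneg M
        linarith
      rw [h, h2]
      have : 0 ≤ 1 / (2 * r) * (vv q M * (vv q (M ∩ A) - vv q M) ^ 2) := by positivity
      linarith
    · rcases una01 M with h2 | h2
      · have h3 : M ∩ A = ∅ := una_eq_one.1 h
        have h4 : M ≠ ∅ := una_eq_zero.1 h2
        rw [h, h2, ss_of_ne h4, h3, vv_empty H.q0.le H.q1]
        set v := vv q M
        have h5 : v * (1 - v) ≤ 1 - v := mul_le_of_le_one_left (by linarith) hvM1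
        have h6 : 1 - v ≤ r / 2 + 1 / (2 * r) * (1 - v) ^ 2 := by
          have e : r / 2 + 1 / (2 * r) * (1 - v) ^ 2 - (1 - v) =
              1 / (2 * r) * (r - (1 - v)) ^ 2 := by field_simp; ring
          have : 0 ≤ 1 / (2 * r) * (r - (1 - v)) ^ 2 := by positivity
          linarith
        have h7 := mul_le_mul_of_nonneg_left (h5.trans h6) hvM
        nlinarith
      · rw [h, h2]
        have : 0 ≤ 1 / (2 * r) * (vv q M * (vv q (M ∩ A) - vv q M) ^ 2) := by positivity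
        have : 0 ≤ r / 2 * (ss q M * 1) := by positivity
        linarith
  refine h1.trans ?_
  simp only [GA_add, GA_mul, Br_add, Br_mul]
  have h2 := H.D2a
  have h3 := H.D2b
  simp only [GA_mul] at h2 h3
  set X := Br N x y (fun _ M => ss q M * GA (Iv N x) (Iw N y) 1 (fun A => una (M ∩ A))) with hX
  set Y := Br N x y (fun _ M => vv q M * GA (Iv N x) (Iw N y) 1
    (fun A => (vv q (M ∩ A) - vv q M) ^ 2)) with hY
  set m := mm q N x y with hmdef
  have h4 : r / 2 * X ≤ r / 2 * (14 * muq q * m) :=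
    mul_le_mul_of_nonneg_left h2 (by positivity)
  have h5 : 1 / (2 * r) * Y ≤ 1 / (2 * r) * (550 * K * muq q ^ 2 * m) :=
    mul_le_mul_of_nonneg_left h3 (by positivity)
  have h6 : 1 / (2 * r) * (550 * K * muq q ^ 2 * m) = 275 * K * muq q * r * m := by
    rw [← hr2]; field_simp; ring
  have h7 : muq q * r * m ≤ K * muq q * r * m := by
    have : 0 ≤ muq q * r * m := by positivity
    nlinarith
  nlinarith

/-! ### D3: additivity -/

/-- Additivity for a general average over gadgets. -/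
theorem D3_gen (𝒢 : GAv)
    (h2 : Br N x y (fun n M => 𝒢.G n (fun A => vv q M * (vv q (M ∩ A) - vv q M) ^ 2)) ≤
      550 * K * muq q ^ 2 * mm q N x y)
    (h3 : Br N x y (fun n M => 𝒢.G n
      (fun A => vv q M ^ 2 * (1 - vv q M) * (una (M ∩ A) - una M))) ≤
      282 * K * muq q * Real.sqrt (muq q) * mm q N x y) :
    Br N x y (fun n M => 𝒢.G n (fun A => vv q M * SD q A M)) ≤
      600 * K * muq q ^ 2 * Real.sqrt (muq q) * mm q N x y := by
  have hm := H.mm0
  have hmu := H.mu0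
  have hmu1 := H.mu1
  have hK := H.K1
  have hε := H.ε0
  set r := Real.sqrt (muq q) with hr
  have hr0 : 0 < r := Real.sqrt_pos.2 hmu
  have hr2 : r ^ 2 = muq q := Real.sq_sqrt hmu.le
  have hr1 : r ≤ 1 := by
    by_contra h
    have h' : 1 < r := not_le.1 h
    nlinarith
  have h0 : ∀ n, 1 ≤ n → ∀ S : As (Fin n),
      0 ≤ 𝒢.G n (fun A => vv q S * (vv q (S ∩ A) - vv q S) ^ 2) := fun n hn S => by
    have := neF hn
    exact 𝒢.nonneg n fun A => mul_nonneg (vv_nonneg H.q0.le H.q1 S) (sq_nonneg _)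
  have h1 : ∀ n, 1 ≤ n → ∀ S : As (Fin n),
      𝒢.G n (fun A => vv q S * (vv q (S ∩ A) - vv q S) ^ 2) ≤ 1 := fun n hn S => by
    have := neF hn
    refine 𝒢.le_one n fun A => ?_
    have e1 := mk_nonneg H.q0.le H.q1 A S
    have e2 := mk_le_one H.q0.le H.q1 A S
    exact mul_le_one₀ (vv_le_one H.q0.le H.q1 S) (sq_nonneg _) (pow_le_one₀ e1 e2)
  have hst := H.st1' (fun n S => 𝒢.G n (fun A => vv q S * (vv q (S ∩ A) - vv q S) ^ 2))
    fun n hn S => by rw [abs_of_nonneg (h0 n hn S)]; exact h1 n hn S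
  have e3 : Br N x y (fun n S => |𝒢.G n (fun A => vv q S * (vv q (S ∩ A) - vv q S) ^ 2)|) =
      Br N x y (fun n S => 𝒢.G n (fun A => vv q S * (vv q (S ∩ A) - vv q S) ^ 2)) :=
    Br_congr fun n hn S => abs_of_nonneg (h0 n (H.win n hn) S)
  rw [e3] at hst
  have hmain : Br N x y (fun n M => 𝒢.G n (fun A => vv q M * SD q A M)) ≤
      Br N x y (fun n M =>
        (P1 (fun S => 𝒢.G n (fun A => vv q S * (vv q (S ∩ A) - vv q S) ^ 2)) M -
          𝒢.G n (fun A => vv q M * (vv q (M ∩ A) - vv q M) ^ 2)) +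
        2 * muq q * 𝒢.G n (fun A => vv q M ^ 2 * (1 - vv q M) * (una (M ∩ A) - una M))) := by
    refine Br_mono H.x0 H.y0 fun n hn M => ?_
    have := neF (H.win n hn)
    rw [𝒢.P1_comm (fun A S => vv q S * (vv q (S ∩ A) - vv q S) ^ 2) M, ← 𝒢.mul]
    have e4 : 𝒢.G n (fun A => P1 (fun S => vv q S * (vv q (S ∩ A) - vv q S) ^ 2) M) -
          𝒢.G n (fun A => vv q M * (vv q (M ∩ A) - vv q M) ^ 2) =
        𝒢.G n (fun A => P1 (fun S => vv q S * (vv q (S ∩ A) - vv q S) ^ 2) M +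
          (-1) * (vv q M * (vv q (M ∩ A) - vv q M) ^ 2)) := by
      rw [𝒢.add, 𝒢.mul n (-1) (fun A => vv q M * (vv q (M ∩ A) - vv q M) ^ 2)]; ring
    rw [e4, ← 𝒢.add]
    refine 𝒢.mono n _ _ fun A => ?_
    have key := (AS (Fin n)).carre H.q0 H.q1 (φ := fun S => S ∩ A)
      (fun a S => by
        show S ∩ A ∩ lit a = S ∩ lit a ∩ A
        exact Set.inter_right_comm _ _ _)
      (fun S => una_anti Set.inter_subset_left) M
    rw [muq_def] at key
    have e5 : SD q A M = (∑ a : Lt (Fin n),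
        (((AS (Fin n)).v q ((AS (Fin n)).iu a M ∩ A) - (AS (Fin n)).v q ((AS (Fin n)).iu a M)) -
        ((AS (Fin n)).v q (M ∩ A) - (AS (Fin n)).v q M)) ^ 2) / Fintype.card (Lt (Fin n)) := by
      unfold SD
      congr 1
      refine Finset.sum_congr rfl fun a _ => ?_
      unfold sd2
      rw [Set.inter_right_comm]
      show _ = ((vv q (M ∩ lit a ∩ A) - vv q (M ∩ lit a)) - (vv q (M ∩ A) - vv q M)) ^ 2
      ring
    rw [e5]
    have e6 : (AS (Fin n)).un (M ∩ A) - (AS (Fin n)).un M = una (M ∩ A) - una M := rfl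
    rw [e6] at key
    show (AS (Fin n)).v q M * _ ≤
      ((AS (Fin n)).P1 (fun S => (AS (Fin n)).v q S * ((AS (Fin n)).v q (S ∩ A) -
        (AS (Fin n)).v q S) ^ 2) M +
        (-1) * ((AS (Fin n)).v q M * ((AS (Fin n)).v q (M ∩ A) - (AS (Fin n)).v q M) ^ 2)) +
      2 * muq q * ((AS (Fin n)).v q M ^ 2 * (1 - (AS (Fin n)).v q M) * (una (M ∩ A) - una M))
    linarith
  refine hmain.trans ?_
  rw [Br_add, Br_sub, Br_mul]
  have h10 : Br N x y (fun n M =>
      P1 (fun S => 𝒢.G n (fun A => vv q S * (vv q (S ∩ A) - vv q S) ^ 2)) M) =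
      Br N x y (fun n => P1 ((fun n S => 𝒢.G n
        (fun A => vv q S * (vv q (S ∩ A) - vv q S) ^ 2)) n)) := rfl
  rw [h10]
  have h5 := (abs_le.1 hst).2
  set X := Br N x y (fun n S => 𝒢.G n (fun A => vv q S * (vv q (S ∩ A) - vv q S) ^ 2)) with hX
  set Y := Br N x y (fun n M => 𝒢.G n
    (fun A => vv q M ^ 2 * (1 - vv q M) * (una (M ∩ A) - una M))) with hY
  set m := mm q N x y with hmdef
  set μ := muq q with hμ
  have h6 : 2 * μ * Y ≤ 2 * μ * (282 * K * μ * r * m) :=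
    mul_le_mul_of_nonneg_left h3 (by positivity)
  have h7 : X + m ≤ 276 * m := by
    have h8 : 550 * K * μ ^ 2 * m = 550 * (K * μ) * μ * m := by ring
    have h9 : K * μ * μ ≤ 1 / 2 := by
      have := H.Kmu
      have : K * μ * μ ≤ 1 / 2 * 1 := mul_le_mul this hmu1 hmu.le (by norm_num)
      linarith
    nlinarith
  have h8 : ε * (X + m) ≤ μ ^ 3 / 8 * (276 * m) :=
    mul_le_mul H.εmu h7 (by
      have : 0 ≤ X := Br_nonneg H.x0 H.y0 fun n hn S => h0 n (H.win n hn) S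
      linarith) (by positivity)
  have h9 : μ ^ 3 ≤ K * μ ^ 2 * r := by
    have e1 : μ ≤ r := by rw [← hr2]; nlinarith
    calc μ ^ 3 = 1 * μ ^ 2 * μ := by ring
      _ ≤ K * μ ^ 2 * r := by gcongr
  have h11 : μ ^ 3 / 8 * (276 * m) ≤ 35 * (K * μ ^ 2 * r) * m := by
    have : μ ^ 3 * m ≤ K * μ ^ 2 * r * m := mul_le_mul_of_nonneg_right h9 hm
    have h12 : 0 ≤ K * μ ^ 2 * r * m := by positivity
    nlinarith
  have h12 : 0 ≤ K * μ ^ 2 * r * m := by positivity
  nlinarith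

/-- **D3** for one gadget. -/
theorem D3a : Br N x y (fun _ M => GA (Iv N x) (Iw N y) 1 (fun A => vv q M * SD q A M)) ≤
    600 * K * muq q ^ 2 * Real.sqrt (muq q) * mm q N x y :=
  H.D3_gen (GAv1 H.hv0 H.hw0) H.D2b H.D2c

/-- **D3** for the disjunction of two gadgets. -/
theorem D3b : Br N x y (fun _ M => GA (Iv N x) (Iw N y) 1
    (fun A => GA (Iv N x) (Iw N y) 1 (fun B => vv q M * SD q (A ∪ B) M))) ≤
    600 * K * muq q ^ 2 * Real.sqrt (muq q) * mm q N x y := by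
  refine H.D3_gen (GAv2 H.hv0 H.hw0) ?_ ?_
  · refine le_trans (Br_mono H.x0 H.y0 fun n hn M => ?_) H.D2b
    have := neF (H.win n hn)
    show GA (Iv N x) (Iw N y) 1 (fun A : As (Fin n) => GA (Iv N x) (Iw N y) 1
      (fun B : As (Fin n) => vv q M * (vv q (M ∩ (A ∪ B)) - vv q M) ^ 2)) ≤ _
    refine GA_mono H.hv0 H.hw0 zero_le_one fun A => ?_
    have h1 : vv q M * (vv q (M ∩ A) - vv q M) ^ 2 = GA (Iv N x) (Iw N y) 1
      (fun _ : As (Fin n) => vv q M * (vv q (M ∩ A) - vv q M) ^ 2) := (GA_const _ _ _ _).symm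
    rw [h1]
    refine GA_mono H.hv0 H.hw0 zero_le_one fun B => ?_
    refine mul_le_mul_of_nonneg_left ?_ (vv_nonneg H.q0.le H.q1 M)
    have e1 := mk_union_le_left H.q0.le H.q1 A B M
    have e2 := mk_nonneg H.q0.le H.q1 (A ∪ B) M
    exact pow_le_pow_left₀ e2 e1 2
  · refine le_trans (Br_mono H.x0 H.y0 fun n hn M => ?_) H.D2c
    have := neF (H.win n hn)
    show GA (Iv N x) (Iw N y) 1 (fun A : As (Fin n) => GA (Iv N x) (Iw N y) 1
      (fun B : As (Fin n) => vv q M ^ 2 * (1 - vv q M) * (una (M ∩ (A ∪ B)) - una M))) ≤ _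
    refine GA_mono H.hv0 H.hw0 zero_le_one fun A => ?_
    have h1 : vv q M ^ 2 * (1 - vv q M) * (una (M ∩ A) - una M) = GA (Iv N x) (Iw N y) 1
      (fun _ : As (Fin n) => vv q M ^ 2 * (1 - vv q M) * (una (M ∩ A) - una M)) :=
        (GA_const _ _ _ _).symm
    rw [h1]
    refine GA_mono H.hv0 H.hw0 zero_le_one fun B => ?_
    have e1 : una (M ∩ (A ∪ B)) ≤ una (M ∩ A) :=
      una_anti (Set.inter_subset_inter_right _ Set.subset_union_left)
    refine mul_le_mul_of_nonneg_left (by linarith) ?_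
    exact mul_nonneg (sq_nonneg _) (by linarith [vv_le_one H.q0.le H.q1 M])

end DH

/-- **Growth of `v` along a gadget.**  `E_A v(M ∩ A) ≤ e^((c2 + β) μ) v(M)`, with
`c2 + β ≤ 4`. -/
theorem GA_vv_le {V : Type} [Fintype V] [DecidableEq V] [Nonempty V] {q v w : ℝ} (hq : 0 < q)
    (hq1 : q < 1) (hv : 0 ≤ v) (hw : 0 ≤ w) {b : ℝ}
    (hb : ((2 * v + 3 * w) * Fintype.card (Lt V) + 3 * w * (Fintype.card (Lt V) : ℝ) ^ 2) *
      muq q ≤ b) (M : As V) :
    GA v w 1 (fun A => vv q (M ∩ A)) ≤ Real.exp b * vv q M := by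
  have hmu := muq_pos hq hq1
  have hc0 : 0 ≤ (2 * v + 3 * w) * Fintype.card (Lt V) := by positivity
  have hb0 : 0 ≤ 3 * w * (Fintype.card (Lt V) : ℝ) ^ 2 := by positivity
  have hbb : 0 ≤ b := le_trans (by positivity) hb
  have key := growth (fun τ => GA_hasDerivAt v w (fun A => vv q (M ∩ A)) τ) hbb le_rfl ?_
  · simp only [GA_zero, Set.inter_univ, add_zero] at key
    exact key
  · intro τ hτ
    simp only [P1_inter, P2_inter]
    rw [← GA_mul, ← GA_mul, ← GA_add, ← GA_mul, add_zero]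
    refine GA_mono hv hw hτ.1 fun A => ?_
    have h1 : P1 (vv q) (M ∩ A) - vv q (M ∩ A) = muq q * ss q (M ∩ A) := by
      have := (AS V).P1_v hq hq1 (M ∩ A)
      rw [muq_def] at this
      show (AS V).P1 ((AS V).v q) (M ∩ A) - (AS V).v q (M ∩ A) = muq q * (AS V).s q (M ∩ A)
      rw [this]
      unfold Sys.s
      ring
    have h2 : P2 (vv q) (M ∩ A) - vv q (M ∩ A) ≤ muq q * ss q (M ∩ A) := by
      have := (AS V).P2_v_le hq hq1 (M ∩ A)
      rw [muq_def] at this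
      show (AS V).P2 ((AS V).v q) (M ∩ A) - (AS V).v q (M ∩ A) ≤ muq q * (AS V).s q (M ∩ A)
      linarith
    have h3 : ss q (M ∩ A) ≤ vv q (M ∩ A) := ss_le_vv _
    have h4 : 0 ≤ vv q (M ∩ A) := vv_nonneg hq.le hq1 _
    have h5 : muq q * ss q (M ∩ A) ≤ muq q * vv q (M ∩ A) := mul_le_mul_of_nonneg_left h3 hmu.le
    have e1 : P1 (fun A => vv q A) (M ∩ A) = P1 (vv q) (M ∩ A) := rfl
    have h6 := mul_le_mul_of_nonneg_left (h1.le.trans h5) hc0
    have h7 := mul_le_mul_of_nonneg_left (h2.trans h5) hb0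
    have h8 := mul_le_mul_of_nonneg_right hb h4
    calc _ ≤ (2 * v + 3 * w) * Fintype.card (Lt V) * (muq q * vv q (M ∩ A)) +
          3 * w * (Fintype.card (Lt V) : ℝ) ^ 2 * (muq q * vv q (M ∩ A)) := add_le_add h6 h7
      _ = ((2 * v + 3 * w) * Fintype.card (Lt V) + 3 * w * (Fintype.card (Lt V) : ℝ) ^ 2) *
          muq q * vv q (M ∩ A) := by ring
      _ ≤ _ := h8

end Pool.Agent.Lib.MP_9cae81_PC
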