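import Pool.Agent.Lib.MP_9cae81_PC.D
import Pool.Agent.Lib.MP_9cae81_PC.Mg.G002
import Pool.Agent.Lib.MP_9cae81_PC.Mg.G004
import Pool.Agent.Lib.MP_9cae81_PC.Mg.G003

/-!
# Additivity for a gadget and a fresh pair; the hypotheses `DH` from block A and (B2s), (B2d)
-/

set_option autoImplicit false
set_option linter.unusedSectionVars false

open Finset Filter
open scoped BigOperators Topology

namespace Pool.Agent.Lib.MP_9cae81_PC

open Pool.Agent.Lib.MP_9cae81_R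

open D

/-- The hypotheses `DH` hold for all large `k`. -/
theorem DH_of {q x Y K ε : ℝ} (hq : 0 < q) (hq1 : q < 1) (hmu1 : muq q ≤ 1) (hK1 : 1 ≤ K)
    (hKmu : K * muq q ≤ 1 / 2) (hx : 1 / 2 ≤ x) (hx1 : x ≤ 1) (hY : Y ≤ 1) (C : Cen x Y)
    (hε : 0 < ε) (hε3 : ε ≤ muq q ^ 3 / 8)
    (hB2s : ∀ᶠ k in atTop, Br (C.N k) x (C.y k) (fun n S => (AS (Fin n)).Gp q S) ≤
      K * muq q ^ 2 * mm q (C.N k) x (C.y k))
    (hB2d : ∀ᶠ k in atTop, Br (C.N k) x (C.y k) (fun n S => vv q S * (AS (Fin n)).Gm q S) ≤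
      K * muq q ^ 2 * mm q (C.N k) x (C.y k)) :
    ∀ᶠ k in atTop, DH q (C.N k) x (C.y k) K ε := by
  have hx0 : 0 ≤ x := by linarith
  filter_upwards [hB2s, hB2d, C.hN.eventually A0_window, A0_param C (ε := 1 / 2) (by norm_num),
    A3_unit hq hq1 hx0 C hε, A3_batch hq hq1 hx hx1 hY C hε] with k h1 h2 h3 h4 h5 h6
  refine ⟨hq, hq1, hmu1, hx0, C.y0 k, ?_, ?_, ?_, hε.le, hε3, hK1, hKmu, h5, h6, h1, h2⟩
  · intro n hn
    have := (h3.2.1 n hn).1
    have := C.N1 k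
    omega
  · intro n hn
    rw [Lift_card]
    have := (abs_le.1 (h4 n hn).1).2
    linarith
  · intro n hn
    rw [Lift_card]
    have h7 := (abs_le.1 (h4 n hn).2).2
    have h8 := C.yY k
    nlinarith

/-! ### Lower bounds for `GA` -/

section

variable {V : Type} [Fintype V] [DecidableEq V]

theorem D5_wt_empty {ι : Type} [Fintype ι] [DecidableEq ι] (q : ι → ℝ) :
    wt q ∅ = Real.exp (-∑ c, q c) := by
  unfold wt
  simp only [Finset.notMem_empty, if_false]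
  rw [← Real.exp_sum, Finset.sum_neg_distrib]

theorem D5_wt_single {ι : Type} [Fintype ι] [DecidableEq ι] (q : ι → ℝ) (c : ι) :
    wt q {c} = (Real.exp (q c) - 1) * Real.exp (-∑ c, q c) := by
  unfold wt
  rw [← Finset.mul_prod_erase Finset.univ _ (Finset.mem_univ c)]
  have h1 : ∏ x ∈ Finset.univ.erase c,
      (if x ∈ ({c} : Finset ι) then 1 - Real.exp (-(q x)) else Real.exp (-(q x))) =
      ∏ x ∈ Finset.univ.erase c, Real.exp (-(q x)) := by
    refine Finset.prod_congr rfl fun x hx => ?_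
    rw [if_neg]
    rw [Finset.mem_singleton]
    exact Finset.ne_of_mem_erase hx
  rw [h1, if_pos (Finset.mem_singleton_self c), ← Real.exp_sum]
  have h2 : ∑ x, q x = q c + ∑ x ∈ Finset.univ.erase c, q x :=
    (Finset.add_sum_erase Finset.univ q (Finset.mem_univ c)).symm
  rw [h2, Finset.sum_neg_distrib, neg_add, Real.exp_add]
  have h3 : Real.exp (q c) * Real.exp (-(q c)) = 1 := by
    rw [← Real.exp_add, add_neg_cancel, Real.exp_zero]
  have h4 : (Real.exp (q c) - 1) * (Real.exp (-(q c)) *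
      Real.exp (-∑ x ∈ Finset.univ.erase c, q x)) =
      (Real.exp (q c) * Real.exp (-(q c)) - Real.exp (-(q c))) *
        Real.exp (-∑ x ∈ Finset.univ.erase c, q x) := by ring
  rw [h4, h3]

/-- The total intensity of a gadget. -/
noncomputable def tq (V : Type) [Fintype V] (v w : ℝ) : ℝ :=
  (2 * v + 3 * w) * Fintype.card (Lt V) + 3 * w * (Fintype.card (Lt V) : ℝ) ^ 2

theorem D5_sum_gq (v w : ℝ) : ∑ c : Cl V, gq v w 1 c = tq V v w := by
  rw [Fintype.sum_sum_type, Fintype.sum_sum_type]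
  have e1 : ∀ a : Lt V, gq v w 1 (Sum.inl a : Cl V) = 2 * v + 3 * w := by
    intro a; simp [gq, qq]
  have e2 : ∀ a : Lt V × Lt V, gq v w 1 (Sum.inr (Sum.inl a) : Cl V) = 3 * w := by
    intro a; simp [gq, qq]
  have e3 : ∀ a : Lt V × Lt V × Lt V, gq v w 1 (Sum.inr (Sum.inr a) : Cl V) = 0 := by
    intro a; simp [gq, qq]
  simp only [e1, e2, e3, Finset.sum_const, Finset.card_univ, nsmul_eq_mul, smul_zero, add_zero]
  have h1 : (Fintype.card (Lt V × Lt V) : ℝ) = (Fintype.card (Lt V) : ℝ) ^ 2 := by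
    rw [Fintype.card_prod]; push_cast; ring
  rw [h1]
  unfold tq
  ring

/-- The part of `GA` where the gadget is empty. -/
theorem GA_ge_univ {v w : ℝ} (hv : 0 ≤ v) (hw : 0 ≤ w) {Φ : As V → ℝ} (h : ∀ A, 0 ≤ Φ A) :
    Real.exp (-tq V v w) * Φ Set.univ ≤ GA v w 1 Φ := by
  have hq := gq_nonneg (V := V) hv hw zero_le_one
  unfold GA EE
  have h1 : Real.exp (-tq V v w) * Φ Set.univ =
      wt (gq v w 1 : Cl V → ℝ) ∅ * Φ (Md (∅ : Finset (Cl V))) := by
    rw [D5_wt_empty, D5_sum_gq, Lift_Md_empty]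
  rw [h1]
  exact Finset.single_le_sum (f := fun F : Finset (Cl V) => wt (gq v w 1) F * Φ (Md F))
    (fun F _ => mul_nonneg (wt_nonneg hq F) (h _)) (Finset.mem_univ ∅)

/-- The part of `GA` where the gadget is one pair. -/
theorem GA_ge_pair {v w : ℝ} (hv : 0 ≤ v) (hw : 0 ≤ w) {Φ : As V → ℝ} (h : ∀ A, 0 ≤ Φ A) :
    Real.exp (-tq V v w) * (3 * w * ∑ a : Lt V, ∑ b : Lt V, Φ (lit a ∪ lit b)) ≤
      GA v w 1 Φ := by
  have hq := gq_nonneg (V := V) hv hw zero_le_one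
  unfold GA EE
  set e : Lt V × Lt V → Finset (Cl V) := fun p => {cp p.1 p.2} with he
  have hinj : Function.Injective e := by
    intro p p' hp
    have h1 : cp p.1 p.2 = cp p'.1 p'.2 := Finset.singleton_injective hp
    simpa [cp, Prod.ext_iff] using h1
  have h1 : ∑ F ∈ (Finset.univ : Finset (Lt V × Lt V)).map ⟨e, hinj⟩,
      wt (gq v w 1) F * Φ (Md F) ≤ ∑ F : Finset (Cl V), wt (gq v w 1) F * Φ (Md F) :=
    Finset.sum_le_sum_of_subset_of_nonneg (Finset.subset_univ _)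
      fun F _ _ => mul_nonneg (wt_nonneg hq F) (h _)
  refine le_trans ?_ h1
  have h0 : ∑ F ∈ (Finset.univ : Finset (Lt V × Lt V)).map ⟨e, hinj⟩,
      wt (gq v w 1) F * Φ (Md F) = ∑ p : Lt V × Lt V, wt (gq v w 1) (e p) * Φ (Md (e p)) :=
    Finset.sum_map _ _ _
  rw [h0]
  have h2 : Real.exp (-tq V v w) * (3 * w * ∑ a : Lt V, ∑ b : Lt V, Φ (lit a ∪ lit b)) =
      ∑ p : Lt V × Lt V, Real.exp (-tq V v w) * (3 * w) * Φ (lit p.1 ∪ lit p.2) := by
    rw [← mul_assoc, Finset.mul_sum]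
    refine Eq.trans ?_ (Fintype.sum_prod_type
      (fun p : Lt V × Lt V => Real.exp (-tq V v w) * (3 * w) * Φ (lit p.1 ∪ lit p.2))).symm
    refine Finset.sum_congr rfl fun a _ => ?_
    rw [Finset.mul_sum]
  rw [h2]
  refine Finset.sum_le_sum fun p _ => ?_
  have h3 : Md (e p) = lit p.1 ∪ lit p.2 := by
    ext σ
    simp only [he, Md, Finset.mem_singleton, forall_eq, Set.mem_ofPred_eq, Set.mem_union, lit]
    rfl
  rw [h3]
  refine mul_le_mul_of_nonneg_right ?_ (h _)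
  have h4 : gq v w 1 (cp p.1 p.2) = 3 * w := by simp [gq, qq, cp]
  rw [he, D5_wt_single, D5_sum_gq, h4, mul_comm]
  refine mul_le_mul_of_nonneg_right ?_ (Real.exp_pos _).le
  linarith [Real.add_one_le_exp (3 * w)]

end

end Pool.Agent.Lib.MP_9cae81_PC
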