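import Pool.Agent.Lib.MP_9cae81_PC.P3a

/-!
# (H3), numbers

`gN` is the functional of (H3) as a function of numbers: `v` is the value of the formula, `x` the
value with the marked literal, `y l` with the literal `l`, `r l` with the disjunction of the marked
literal and `l`.
-/

set_option autoImplicit false

open Finset
open scoped BigOperators

namespace Pool.Agent.Lib.MP_9cae81_PC

open Pool.Agent.Lib.MP_9cae81_R

/-! ### The bump -/

private theorem H3_clip (x y : ℝ) : |min 1 (max 0 x) - min 1 (max 0 y)| ≤ |x - y| := by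
  refine (abs_min_sub_min_le_max 1 (max 0 x) 1 (max 0 y)).trans ?_
  rw [sub_self, abs_zero]
  refine max_le (abs_nonneg _) ?_
  refine (abs_max_sub_max_le_max 0 x 0 y).trans ?_
  rw [sub_self, abs_zero]
  exact max_le (abs_nonneg _) (le_refl _)

private theorem H3_clip' (x y : ℝ) : |max 0 (min 1 x) - max 0 (min 1 y)| ≤ |x - y| := by
  refine (abs_max_sub_max_le_max 0 (min 1 x) 0 (min 1 y)).trans ?_
  rw [sub_self, abs_zero]
  refine max_le (abs_nonneg _) ?_
  refine (abs_min_sub_min_le_max 1 x 1 y).trans ?_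
  rw [sub_self, abs_zero]
  exact max_le (abs_nonneg _) (le_refl _)

private theorem H3_ph_lip_b {t : ℝ} (ht : 0 < t) {a b b' r : ℝ} (ha : 0 ≤ a) (hb : 0 ≤ b)
    (hb' : 0 ≤ b') : |ph t a b r - ph t a b' r| ≤ 1026 / t * |b - b'| := by
  unfold ph
  have f01 : 0 ≤ min 1 (max 0 (1024 * |r - par a b| / t - 1)) ∧
      min 1 (max 0 (1024 * |r - par a b| / t - 1)) ≤ 1 :=
    ⟨le_min zero_le_one (le_max_left _ _), min_le_left _ _⟩
  have g01 : 0 ≤ min 1 (max 0 (2 - a / (4 * t))) ∧ min 1 (max 0 (2 - a / (4 * t))) ≤ 1 :=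
    ⟨le_min zero_le_one (le_max_left _ _), min_le_left _ _⟩
  have h01' : 0 ≤ max 0 (min 1 (min (2 * b' / t - 1) (2 - b' / (2 * t)))) ∧
      max 0 (min 1 (min (2 * b' / t - 1) (2 - b' / (2 * t)))) ≤ 1 :=
    ⟨le_max_left _ _, max_le zero_le_one (min_le_left _ _)⟩
  have hf := H3_clip (1024 * |r - par a b| / t - 1) (1024 * |r - par a b'| / t - 1)
  have hh := H3_clip' (min (2 * b / t - 1) (2 - b / (2 * t)))
    (min (2 * b' / t - 1) (2 - b' / (2 * t)))
  have hh2 : |min (2 * b / t - 1) (2 - b / (2 * t)) - min (2 * b' / t - 1) (2 - b' / (2 * t))| ≤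
      2 / t * |b - b'| := by
    refine (abs_min_sub_min_le_max _ _ _ _).trans (max_le ?_ ?_)
    · rw [show 2 * b / t - 1 - (2 * b' / t - 1) = 2 / t * (b - b') by ring, abs_mul,
        abs_of_pos (by positivity : (0 : ℝ) < 2 / t)]
    · rw [show 2 - b / (2 * t) - (2 - b' / (2 * t)) = 1 / (2 * t) * (b' - b) by ring, abs_mul,
        abs_of_pos (by positivity : (0 : ℝ) < 1 / (2 * t)), abs_sub_comm b' b]
      refine mul_le_mul_of_nonneg_right ?_ (abs_nonneg _)
      rw [div_le_div_iff₀ (by positivity) ht]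
      nlinarith
  have hpar : |par a b - par a b'| ≤ |b - b'| := by
    have := PCGap.par_lip ha ha hb hb'
    rw [sub_self, abs_zero, zero_add] at this
    exact this
  have e1 : 1024 * |r - par a b| / t - 1 - (1024 * |r - par a b'| / t - 1)
      = 1024 / t * (|r - par a b| - |r - par a b'|) := by ring
  rw [e1, abs_mul, abs_of_pos (by positivity : (0 : ℝ) < 1024 / t)] at hf
  have h3 : |(|r - par a b| - |r - par a b'|)| ≤ |b - b'| := by
    refine (abs_abs_sub_abs_le _ _).trans ?_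
    rw [show r - par a b - (r - par a b') = -(par a b - par a b') by ring, abs_neg]
    exact hpar
  have hf2 : |min 1 (max 0 (1024 * |r - par a b| / t - 1)) -
      min 1 (max 0 (1024 * |r - par a b'| / t - 1))| ≤ 1024 / t * |b - b'| :=
    hf.trans (mul_le_mul_of_nonneg_left h3 (by positivity))
  have hh3 := hh.trans hh2
  generalize min 1 (max 0 (1024 * |r - par a b| / t - 1)) = f at *
  generalize min 1 (max 0 (1024 * |r - par a b'| / t - 1)) = f' at *
  generalize min 1 (max 0 (2 - a / (4 * t))) = g at *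
  generalize max 0 (min 1 (min (2 * b / t - 1) (2 - b / (2 * t)))) = h at *
  generalize max 0 (min 1 (min (2 * b' / t - 1) (2 - b' / (2 * t)))) = h' at *
  calc |f * g * h - f' * g * h'| = |f * g * (h - h') + g * h' * (f - f')| := by ring_nf
    _ ≤ |f * g * (h - h')| + |g * h' * (f - f')| := abs_add_le _ _
    _ = f * g * |h - h'| + g * h' * |f - f'| := by
        rw [abs_mul (f * g), abs_mul (g * h'), abs_of_nonneg (mul_nonneg f01.1 g01.1),
          abs_of_nonneg (mul_nonneg g01.1 h01'.1)]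
    _ ≤ 1 * |h - h'| + 1 * |f - f'| := by
        refine add_le_add (mul_le_mul_of_nonneg_right ?_ (abs_nonneg _))
          (mul_le_mul_of_nonneg_right ?_ (abs_nonneg _))
        · exact mul_le_one₀ f01.2 g01.1 g01.2
        · exact mul_le_one₀ g01.2 h01'.1 h01'.2
    _ ≤ 1026 / t * |b - b'| := by
        have : 1026 / t * |b - b'| = 2 / t * |b - b'| + 1024 / t * |b - b'| := by ring
        rw [this]
        linarith

/-- The bump is Lipschitz in its three marks. -/
theorem H3_ph_lip {t : ℝ} (ht : 0 < t) {a a' b b' r r' : ℝ} (ha : 0 ≤ a) (ha' : 0 ≤ a')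
    (hb : 0 ≤ b) (hb' : 0 ≤ b') :
    |ph t a b r - ph t a' b' r'| ≤ 1026 / t * (|a - a'| + |b - b'| + |r - r'|) := by
  have h1 := ph_lip ht (r := r) (r' := r') ha ha' hb
  have h2 := H3_ph_lip_b ht (r := r') ha' hb hb'
  have h3 : 1025 / t * (|a - a'| + |r - r'|) ≤ 1026 / t * (|a - a'| + |r - r'|) := by
    refine mul_le_mul_of_nonneg_right ?_ (by positivity)
    gcongr
    norm_num
  calc |ph t a b r - ph t a' b' r'|
      = |(ph t a b r - ph t a' b r') + (ph t a' b r' - ph t a' b' r')| := by ring_nf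
    _ ≤ |ph t a b r - ph t a' b r'| + |ph t a' b r' - ph t a' b' r'| := abs_add_le _ _
    _ ≤ 1026 / t * (|a - a'| + |r - r'|) + 1026 / t * |b - b'| := by linarith
    _ = _ := by ring

/-- The bump sees the marks only up to `8 t`. -/
theorem H3_ph_cut {t a b r : ℝ} (ht : 0 < t) (hra : r ≤ a) :
    ph t a b r = ph t (min a (8 * t)) (min b (8 * t)) (min r (8 * t)) := by
  by_cases ha : 8 * t ≤ a
  · have h1 : ∀ b r, ph t a b r = 0 := by
      intro b r
      unfold ph
      have : 2 - a / (4 * t) ≤ 0 := by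
        have : 2 ≤ a / (4 * t) := by rw [le_div_iff₀ (by positivity)]; linarith
        linarith
      rw [max_eq_left this, min_eq_right zero_le_one]
      ring
    have h2 : ∀ b r, ph t (8 * t) b r = 0 := by
      intro b r
      unfold ph
      have : 2 - 8 * t / (4 * t) ≤ 0 := by
        have : 2 ≤ 8 * t / (4 * t) := by rw [le_div_iff₀ (by positivity)]; linarith
        linarith
      rw [max_eq_left this, min_eq_right zero_le_one]
      ring
    rw [min_eq_right ha, h1, h2]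
  · push Not at ha
    rw [min_eq_left ha.le, min_eq_left (by linarith : r ≤ 8 * t)]
    by_cases hb : 8 * t ≤ b
    · have h1 : ∀ b, 8 * t ≤ b → ph t a b r = 0 := by
        intro b hb
        unfold ph
        have h3 : min 1 (min (2 * b / t - 1) (2 - b / (2 * t))) ≤ 0 := by
          have : 2 ≤ b / (2 * t) := by rw [le_div_iff₀ (by positivity)]; linarith
          exact (min_le_right _ _).trans ((min_le_right _ _).trans (by linarith))
        rw [max_eq_left h3]
        ring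
      rw [min_eq_right hb, h1 b hb, h1 (8 * t) (le_refl _)]
    · push Not at hb
      rw [min_eq_left hb.le]

/-- Cut marks are Lipschitz in the numbers. -/
theorem H3_cut {m v v' p p' e K : ℝ} (hm : 0 < m) (hv : 0 < v) (hv' : 0 < v') (hK : 0 ≤ K)
    (hp' : 0 ≤ p') (hp : |p - p'| ≤ 2 * e) (hvv : |v - v'| ≤ e) :
    v * |min (p / (m * v)) K - min (p' / (m * v')) K| ≤ (2 / m + 2 * K) * e := by
  have e1 : v * min (p / (m * v)) K = min (p / m) (K * v) := by
    rw [mul_min_of_nonneg _ _ hv.le]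
    congr 1
    · field_simp
    · ring
  have e2 : v' * min (p' / (m * v')) K = min (p' / m) (K * v') := by
    rw [mul_min_of_nonneg _ _ hv'.le]
    congr 1
    · field_simp
    · ring
  have he : 0 ≤ e := (abs_nonneg _).trans hvv
  have h1 : |min (p / m) (K * v) - min (p' / m) (K * v')| ≤ 2 / m * e + K * e := by
    refine (abs_min_sub_min_le_max _ _ _ _).trans (max_le ?_ ?_)
    · rw [show p / m - p' / m = (p - p') / m by ring, abs_div, abs_of_pos hm]
      have : |p - p'| / m ≤ 2 * e / m := by gcongr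
      have h2 : 0 ≤ K * e := mul_nonneg hK he
      calc |p - p'| / m ≤ 2 * e / m := this
        _ = 2 / m * e := by ring
        _ ≤ _ := by linarith
    · rw [← mul_sub, abs_mul, abs_of_nonneg hK]
      have h2 : K * |v - v'| ≤ K * e := mul_le_mul_of_nonneg_left hvv hK
      have h3 : 0 ≤ 2 / m * e := by positivity
      linarith
  have h2 : |min (p' / (m * v')) K| ≤ K := by
    rw [abs_of_nonneg (le_min (by positivity) hK)]
    exact min_le_right _ _
  calc v * |min (p / (m * v)) K - min (p' / (m * v')) K|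
      = |v * min (p / (m * v)) K - v * min (p' / (m * v')) K| := by
        rw [← mul_sub, abs_mul, abs_of_pos hv]
    _ = |(v * min (p / (m * v)) K - v' * min (p' / (m * v')) K) +
          (v' - v) * min (p' / (m * v')) K| := by ring_nf
    _ ≤ |v * min (p / (m * v)) K - v' * min (p' / (m * v')) K| +
          |(v' - v) * min (p' / (m * v')) K| := abs_add_le _ _
    _ ≤ (2 / m * e + K * e) + e * K := by
        refine add_le_add ?_ ?_
        · rw [e1, e2]; exact h1
        · rw [abs_mul, abs_sub_comm]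
          exact mul_le_mul hvv h2 (abs_nonneg _) he
    _ = _ := by ring

/-- The bump in terms of numbers. -/
theorem H3_ph_num {t m v v' p p' y y' r r' e : ℝ} (ht : 0 < t) (hm : 0 < m) (hv : 0 < v)
    (hv' : 0 < v') (hp0 : 0 ≤ p) (hp0' : 0 ≤ p') (hy0 : 0 ≤ y) (hy0' : 0 ≤ y')
    (hr0' : 0 ≤ r') (hrp : r ≤ p) (hrp' : r' ≤ p') (hp : |p - p'| ≤ 2 * e)
    (hy : |y - y'| ≤ 2 * e) (hr : |r - r'| ≤ 2 * e) (hvv : |v - v'| ≤ e) :
    v * |ph t (p / (m * v)) (y / (m * v)) (r / (m * v)) -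
      ph t (p' / (m * v')) (y' / (m * v')) (r' / (m * v'))| ≤
      3078 / t * (2 / m + 16 * t) * e := by
  rw [H3_ph_cut ht (a := p / (m * v)) (r := r / (m * v)) (by gcongr),
    H3_ph_cut ht (a := p' / (m * v')) (r := r' / (m * v')) (by gcongr)]
  have h8 : 0 ≤ 8 * t := by positivity
  have c1 := H3_cut hm hv hv' h8 hp0' hp hvv
  have c2 := H3_cut hm hv hv' h8 hy0' hy hvv
  have c3 := H3_cut hm hv hv' h8 hr0' hr hvv
  have hl := H3_ph_lip ht (a := min (p / (m * v)) (8 * t)) (a' := min (p' / (m * v')) (8 * t))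
    (b := min (y / (m * v)) (8 * t)) (b' := min (y' / (m * v')) (8 * t))
    (r := min (r / (m * v)) (8 * t)) (r' := min (r' / (m * v')) (8 * t))
    (le_min (by positivity) h8) (le_min (by positivity) h8) (le_min (by positivity) h8)
    (le_min (by positivity) h8)
  refine (mul_le_mul_of_nonneg_left hl hv.le).trans ?_
  calc v * (1026 / t * (|min (p / (m * v)) (8 * t) - min (p' / (m * v')) (8 * t)| +
          |min (y / (m * v)) (8 * t) - min (y' / (m * v')) (8 * t)| +
          |min (r / (m * v)) (8 * t) - min (r' / (m * v')) (8 * t)|))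
      = 1026 / t * (v * |min (p / (m * v)) (8 * t) - min (p' / (m * v')) (8 * t)| +
          v * |min (y / (m * v)) (8 * t) - min (y' / (m * v')) (8 * t)| +
          v * |min (r / (m * v)) (8 * t) - min (r' / (m * v')) (8 * t)|) := by ring
    _ ≤ 1026 / t * ((2 / m + 2 * (8 * t)) * e + (2 / m + 2 * (8 * t)) * e +
          (2 / m + 2 * (8 * t)) * e) := by
        refine mul_le_mul_of_nonneg_left ?_ (by positivity)
        linarith
    _ = _ := by ring

/-! ### Averages over the literals of `n + 1` and of `n` variables -/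

theorem H3_sum_lit {n : ℕ} (i : Fin (n + 1)) (f : Lt (Fin (n + 1)) → ℝ) :
    ∑ l, f l = (∑ a : Lt (Fin n), f (i.succAbove a.1, a.2)) + (f (i, true) + f (i, false)) := by
  rw [Fintype.sum_prod_type, Fin.sum_univ_succAbove _ i, Fintype.sum_prod_type, add_comm]
  congr 1
  rw [Fintype.sum_bool]

theorem H3_Av {n : ℕ} (hn : 0 < n) (i : Fin (n + 1)) {f : Lt (Fin (n + 1)) → ℝ}
    {f' : Lt (Fin n) → ℝ} {ε : ℝ} (h0 : ∀ l, 0 ≤ f l) (h1 : ∀ l, f l ≤ 1) (h0' : ∀ l, 0 ≤ f' l)
    (h1' : ∀ l, f' l ≤ 1) (h : ∀ a, |f (i.succAbove a.1, a.2) - f' a| ≤ ε) :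
    |Av f - Av f'| ≤ ε + 1 / (n + 1) := by
  have hn' : (0 : ℝ) < n := by exact_mod_cast hn
  have c1 : (Fintype.card (Lt (Fin (n + 1))) : ℝ) = 2 * (n + 1) := by
    simp only [Fintype.card_prod, Fintype.card_fin, Fintype.card_bool]
    push_cast
    ring
  have c2 : (Fintype.card (Lt (Fin n)) : ℝ) = 2 * n := by
    simp only [Fintype.card_prod, Fintype.card_fin, Fintype.card_bool]
    push_cast
    ring
  unfold Av
  rw [c1, c2, H3_sum_lit i]
  have hs : |∑ a : Lt (Fin n), f (i.succAbove a.1, a.2) - ∑ a, f' a| ≤ 2 * n * ε := by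
    rw [← Finset.sum_sub_distrib]
    refine (Finset.abs_sum_le_sum_abs _ _).trans ?_
    refine (Finset.sum_le_card_nsmul _ _ ε (fun a _ => h a)).trans (le_of_eq ?_)
    rw [Finset.card_univ, nsmul_eq_mul, c2]
  have hε : 0 ≤ ε := by
    obtain ⟨a⟩ : Nonempty (Lt (Fin n)) := ⟨(⟨0, hn⟩, true)⟩
    exact (abs_nonneg _).trans (h a)
  have hS0 : 0 ≤ ∑ a, f' a := Finset.sum_nonneg fun a _ => h0' a
  have hS1 : ∑ a, f' a ≤ 2 * n := by
    refine (Finset.sum_le_card_nsmul _ _ 1 (fun a _ => h1' a)).trans (le_of_eq ?_)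
    rw [Finset.card_univ, nsmul_eq_mul, c2, mul_one]
  generalize ∑ a : Lt (Fin n), f (i.succAbove a.1, a.2) = S at hs ⊢
  generalize ∑ a, f' a = S' at hs hS0 hS1 ⊢
  have hT0 : 0 ≤ f (i, true) + f (i, false) := add_nonneg (h0 _) (h0 _)
  have hT1 : f (i, true) + f (i, false) ≤ 2 := by linarith [h1 (i, true), h1 (i, false)]
  generalize f (i, true) + f (i, false) = T at hT0 hT1 ⊢
  have e1 : (S + T) / (2 * ((n : ℝ) + 1)) - S' / (2 * n) =
      (S - S') / (2 * ((n : ℝ) + 1)) + (T / 2 - S' / (2 * n)) / (n + 1) := by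
    field_simp
    ring
  rw [e1]
  refine (abs_add_le _ _).trans (add_le_add ?_ ?_)
  · rw [abs_div, abs_of_pos (by positivity : (0 : ℝ) < 2 * ((n : ℝ) + 1)),
      div_le_iff₀ (by positivity)]
    nlinarith
  · rw [abs_div, abs_of_pos (by positivity : (0 : ℝ) < (n : ℝ) + 1)]
    gcongr
    have h3 : S' / (2 * n) ≤ 1 := by rw [div_le_one (by positivity)]; exact hS1
    have h4 : 0 ≤ S' / (2 * n) := by positivity
    rw [abs_le]
    constructor <;> linarith

/-! ### The functional -/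

/-- `E min(d, t) / t` in terms of numbers. -/
noncomputable def hN {L : Type} [Fintype L] (t m v : ℝ) (y : L → ℝ) : ℝ :=
  (Av fun l => min ((y l - v) / (m * v)) t) / t

/-- The functional of (H3) in terms of numbers. -/
noncomputable def gN {L : Type} [Fintype L] (t δ m v x : ℝ) (y r : L → ℝ) : ℝ :=
  v ^ 3 * (Av fun l => ph t ((x - v) / (m * v)) ((y l - v) / (m * v)) ((r l - v) / (m * v))) /
    (3 * δ + 15000 * hN t m v y)

theorem H3_Av_nonneg {L : Type} [Fintype L] {f : L → ℝ} (h : ∀ l, 0 ≤ f l) : 0 ≤ Av f :=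
  div_nonneg (Finset.sum_nonneg fun l _ => h l) (Nat.cast_nonneg _)

theorem H3_Av_le {L : Type} [Fintype L] {f g : L → ℝ} (h : ∀ l, f l ≤ g l) : Av f ≤ Av g :=
  div_le_div_of_nonneg_right (Finset.sum_le_sum fun l _ => h l) (Nat.cast_nonneg _)

theorem H3_Av_const_le {L : Type} [Fintype L] {c : ℝ} (hc : 0 ≤ c) : Av (fun _ : L => c) ≤ c := by
  unfold Av
  rw [Finset.sum_const, Finset.card_univ, nsmul_eq_mul]
  by_cases h : (Fintype.card L : ℝ) = 0
  · rw [h]; simpa using hc
  · rw [mul_div_cancel_left₀ _ h]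

theorem H3_Av_le_one {L : Type} [Fintype L] {f : L → ℝ} (h : ∀ l, f l ≤ 1) : Av f ≤ 1 :=
  (H3_Av_le h).trans (H3_Av_const_le zero_le_one)

theorem H3_Av_div {L : Type} [Fintype L] (f : L → ℝ) (t : ℝ) :
    (Av f) / t = Av (fun l => f l / t) := by
  unfold Av
  rw [← Finset.sum_div]
  ring

theorem H3_Av_mul {L : Type} [Fintype L] (f : L → ℝ) (c : ℝ) :
    Av (fun l => c * f l) = c * Av f := by
  unfold Av
  rw [← Finset.mul_sum]
  ring

theorem H3_Av_add {L : Type} [Fintype L] (f g : L → ℝ) :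
    Av (fun l => f l + g l) = Av f + Av g := by
  unfold Av
  rw [Finset.sum_add_distrib]
  ring

theorem H3_Av_sub_abs {L : Type} [Fintype L] (f g : L → ℝ) :
    |Av f - Av g| ≤ Av (fun l => |f l - g l|) := by
  unfold Av
  rw [← sub_div, ← Finset.sum_sub_distrib, abs_div, Nat.abs_cast]
  exact div_le_div_of_nonneg_right (Finset.abs_sum_le_sum_abs _ _) (Nat.cast_nonneg _)

theorem H3_hN_nonneg {L : Type} [Fintype L] {t m v : ℝ} (ht : 0 < t) (hm : 0 < m) (hv : 0 < v)
    {y : L → ℝ} (hy : ∀ l, v ≤ y l) : 0 ≤ hN t m v y := by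
  refine div_nonneg (H3_Av_nonneg fun l => le_min ?_ ht.le) ht.le
  exact div_nonneg (by linarith [hy l]) (by positivity)

theorem H3_min_div {t m v a : ℝ} (ht : 0 < t) (hm : 0 < m) (hv : 0 < v) (ha : v ≤ a) :
    0 ≤ min ((a - v) / (m * v)) t / t ∧ min ((a - v) / (m * v)) t / t ≤ 1 := by
  have h1 : 0 ≤ (a - v) / (m * v) := div_nonneg (by linarith) (by positivity)
  constructor
  · exact div_nonneg (le_min h1 ht.le) ht.le
  · rw [div_le_one ht]; exact min_le_right _ _

theorem H3_W {δ h h' : ℝ} (hδ : 0 < δ) (hh : 0 ≤ h) (hh' : 0 ≤ h') :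
    |1 / (3 * δ + 15000 * h) - 1 / (3 * δ + 15000 * h')| ≤ 15000 / (9 * δ ^ 2) * |h - h'| := by
  have h1 : 0 < 3 * δ + 15000 * h := by positivity
  have h2 : 0 < 3 * δ + 15000 * h' := by positivity
  rw [div_sub_div _ _ h1.ne' h2.ne', abs_div, abs_of_pos (mul_pos h1 h2)]
  rw [show (1 : ℝ) * (3 * δ + 15000 * h') - (3 * δ + 15000 * h) * 1 = 15000 * (h' - h) by ring,
    abs_mul, abs_of_pos (by norm_num : (0 : ℝ) < 15000), abs_sub_comm h' h]
  rw [div_mul_eq_mul_div]
  refine div_le_div_of_nonneg_left (by positivity) (by positivity) ?_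
  have h3 : 3 * δ ≤ 3 * δ + 15000 * h := by linarith
  have h4 : 3 * δ ≤ 3 * δ + 15000 * h' := by linarith
  calc 9 * δ ^ 2 = (3 * δ) * (3 * δ) := by ring
    _ ≤ (3 * δ + 15000 * h) * (3 * δ + 15000 * h') :=
        mul_le_mul h3 h4 (by positivity) h1.le

theorem H3_W_le {δ h : ℝ} (hδ : 0 < δ) (hh : 0 ≤ h) :
    0 < 1 / (3 * δ + 15000 * h) ∧ 1 / (3 * δ + 15000 * h) ≤ 1 / (3 * δ) :=
  ⟨by positivity, div_le_div_of_nonneg_left zero_le_one (by positivity) (by linarith)⟩

/-- The constant of the projection error. -/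
noncomputable def H3C (t δ m : ℝ) : ℝ :=
  1 / δ + (3078 / t * (2 / m + 16 * t) + 1) / (3 * δ) +
    15000 / (9 * δ ^ 2) * ((2 / m + 2 * t) / t + 1)

/-- **Projection error**, numbers. -/
theorem H3_num {n : ℕ} (hn : 0 < n) (i : Fin (n + 1)) {t δ m v v' x x' e : ℝ}
    {y r : Lt (Fin (n + 1)) → ℝ} {y' r' : Lt (Fin n) → ℝ} (ht : 0 < t) (hδ : 0 < δ) (hm : 0 < m)
    (hv : 0 < v) (hv' : 0 < v') (hv1 : v ≤ 1) (hv1' : v' ≤ 1) (hne : 1 / ((n : ℝ) + 1) ≤ e)
    (hx' : v' ≤ x') (hy : ∀ l, v ≤ y l) (hy' : ∀ l, v' ≤ y' l) (hr' : ∀ l, v' ≤ r' l)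
    (hrx : ∀ l, r l ≤ x) (hrx' : ∀ l, r' l ≤ x') (hr : ∀ l, v ≤ r l)
    (dv : |v - v'| ≤ e) (dx : |x - x'| ≤ e)
    (dy : ∀ a, |y (i.succAbove a.1, a.2) - y' a| ≤ e)
    (dr : ∀ a, |r (i.succAbove a.1, a.2) - r' a| ≤ e) :
    |gN t δ m v x y r - gN t δ m v' x' y' r'| ≤ H3C t δ m * (e * (v' + e)) := by
  have he : 0 < e := lt_of_lt_of_le (by positivity) hne
  have hx : v ≤ x := (hr (i, true)).trans (hrx (i, true))
  have two : ∀ {a a' b b' : ℝ}, |a - a'| ≤ e → |b - b'| ≤ e → |(a - b) - (a' - b')| ≤ 2 * e := by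
    intro a a' b b' h1 h2
    rw [show (a - b) - (a' - b') = (a - a') - (b - b') by ring]
    exact (abs_sub _ _).trans (by linarith)
  -- the average of the bump
  set φ := Av fun l => ph t ((x - v) / (m * v)) ((y l - v) / (m * v)) ((r l - v) / (m * v))
    with hφ
  set φ' := Av fun l => ph t ((x' - v') / (m * v')) ((y' l - v') / (m * v'))
    ((r' l - v') / (m * v')) with hφ'
  have hφ0 : 0 ≤ φ := H3_Av_nonneg fun l => ph_nonneg _ _ _ _
  have hφ1 : φ ≤ 1 := H3_Av_le_one fun l => ph_le_one _ _ _ _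
  have hφ0' : 0 ≤ φ' := H3_Av_nonneg fun l => ph_nonneg _ _ _ _
  have hφ1' : φ' ≤ 1 := H3_Av_le_one fun l => ph_le_one _ _ _ _
  have d1 : |φ - φ'| ≤ 3078 / t * (2 / m + 16 * t) * e / v + 1 / (n + 1) := by
    refine H3_Av hn i (fun l => ph_nonneg _ _ _ _) (fun l => ph_le_one _ _ _ _)
      (fun l => ph_nonneg _ _ _ _) (fun l => ph_le_one _ _ _ _) fun a => ?_
    rw [le_div_iff₀ hv, mul_comm]
    exact H3_ph_num ht hm hv hv' (by linarith) (by linarith)
      (by linarith [hy (i.succAbove a.1, a.2)]) (by linarith [hy' a]) (by linarith [hr' a])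
      (by linarith [hrx (i.succAbove a.1, a.2)]) (by linarith [hrx' a]) (two dx dv)
      (two (dy a) dv) (two (dr a) dv) dv
  -- h
  have hh0 : 0 ≤ hN t m v y := H3_hN_nonneg ht hm hv hy
  have hh0' : 0 ≤ hN t m v' y' := H3_hN_nonneg ht hm hv' hy'
  have d2 : |hN t m v y - hN t m v' y'| ≤ (2 / m + 2 * t) * e / v / t + 1 / (n + 1) := by
    unfold hN
    rw [H3_Av_div, H3_Av_div]
    refine H3_Av hn i (fun l => (H3_min_div ht hm hv (hy l)).1)
      (fun l => (H3_min_div ht hm hv (hy l)).2) (fun l => (H3_min_div ht hm hv' (hy' l)).1)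
      (fun l => (H3_min_div ht hm hv' (hy' l)).2) fun a => ?_
    rw [← sub_div, abs_div, abs_of_pos ht]
    gcongr
    rw [le_div_iff₀ hv, mul_comm]
    exact H3_cut hm hv hv' ht.le (by linarith [hy' a]) (two (dy a) dv) dv
  set W := 1 / (3 * δ + 15000 * hN t m v y) with hW
  set W' := 1 / (3 * δ + 15000 * hN t m v' y') with hW'
  have dW : |W - W'| ≤ 15000 / (9 * δ ^ 2) * |hN t m v y - hN t m v' y'| := H3_W hδ hh0 hh0'
  obtain ⟨hW0, hW1⟩ := H3_W_le hδ hh0
  obtain ⟨hW0', hW1'⟩ := H3_W_le hδ hh0'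
  rw [← hW] at hW0 hW1
  rw [← hW'] at hW0' hW1'
  have g1 : gN t δ m v x y r = v ^ 3 * (φ * W) := by
    unfold gN
    rw [hφ, hW]
    ring
  have g2 : gN t δ m v' x' y' r' = v' ^ 3 * (φ' * W') := by
    unfold gN
    rw [hφ', hW']
    ring
  rw [g1, g2]
  have hvv : v ≤ v' + e := by linarith [(abs_le.1 dv).2]
  have hs0 : 0 < v' + e := by linarith
  have k1 : |v ^ 3 - v' ^ 3| ≤ 3 * (e * (v' + e)) := by
    rw [show v ^ 3 - v' ^ 3 = (v - v') * (v * v + v * v' + v' * v') by ring, abs_mul,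
      abs_of_nonneg (by positivity : 0 ≤ v * v + v * v' + v' * v')]
    have h1 : v * v + v * v' + v' * v' ≤ 3 * (v' + e) := by
      have a1 : v * v ≤ v * 1 := mul_le_mul_of_nonneg_left hv1 hv.le
      have a2 : v * v' ≤ 1 * v' := mul_le_mul_of_nonneg_right hv1 hv'.le
      have a3 : v' * v' ≤ v' * 1 := mul_le_mul_of_nonneg_left hv1' hv'.le
      linarith
    calc |v - v'| * (v * v + v * v' + v' * v') ≤ e * (3 * (v' + e)) :=
          mul_le_mul dv h1 (by positivity) he.le
      _ = _ := by ring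
  have hv3 : v ^ 3 ≤ v' + e := by
    have : v ^ 3 ≤ v := by nlinarith [mul_nonneg hv.le hv.le, mul_le_mul_of_nonneg_left hv1 hv.le]
    linarith
  have hv3v : v ^ 3 * (1 / v) ≤ v' + e := by
    have : v ^ 3 * (1 / v) = v * v := by field_simp
    rw [this]
    nlinarith
  have k2 : v ^ 3 * |φ - φ'| ≤ (3078 / t * (2 / m + 16 * t) + 1) * (e * (v' + e)) := by
    have c1 : 0 ≤ 3078 / t * (2 / m + 16 * t) * e := by positivity
    calc v ^ 3 * |φ - φ'| ≤ v ^ 3 * (3078 / t * (2 / m + 16 * t) * e / v + 1 / (n + 1)) :=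
          mul_le_mul_of_nonneg_left d1 (by positivity)
      _ = (3078 / t * (2 / m + 16 * t) * e) * (v ^ 3 * (1 / v)) + v ^ 3 * (1 / (n + 1)) := by ring
      _ ≤ (3078 / t * (2 / m + 16 * t) * e) * (v' + e) + (v' + e) * e :=
          add_le_add (mul_le_mul_of_nonneg_left hv3v c1)
            (mul_le_mul hv3 hne (by positivity) hs0.le)
      _ = _ := by ring
  have k3 : v ^ 3 * |hN t m v y - hN t m v' y'| ≤ ((2 / m + 2 * t) / t + 1) * (e * (v' + e)) := by
    have c1 : 0 ≤ (2 / m + 2 * t) / t * e := by positivity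
    calc v ^ 3 * |hN t m v y - hN t m v' y'|
        ≤ v ^ 3 * ((2 / m + 2 * t) * e / v / t + 1 / (n + 1)) :=
          mul_le_mul_of_nonneg_left d2 (by positivity)
      _ = ((2 / m + 2 * t) / t * e) * (v ^ 3 * (1 / v)) + v ^ 3 * (1 / (n + 1)) := by ring
      _ ≤ ((2 / m + 2 * t) / t * e) * (v' + e) + (v' + e) * e :=
          add_le_add (mul_le_mul_of_nonneg_left hv3v c1)
            (mul_le_mul hv3 hne (by positivity) hs0.le)
      _ = _ := by ring
  have k4 : v ^ 3 * |W - W'| ≤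
      15000 / (9 * δ ^ 2) * (((2 / m + 2 * t) / t + 1) * (e * (v' + e))) := by
    calc v ^ 3 * |W - W'| ≤ v ^ 3 * (15000 / (9 * δ ^ 2) * |hN t m v y - hN t m v' y'|) :=
          mul_le_mul_of_nonneg_left dW (by positivity)
      _ = 15000 / (9 * δ ^ 2) * (v ^ 3 * |hN t m v y - hN t m v' y'|) := by ring
      _ ≤ _ := mul_le_mul_of_nonneg_left k3 (by positivity)
  calc |v ^ 3 * (φ * W) - v' ^ 3 * (φ' * W')|
      = |(v ^ 3 - v' ^ 3) * (φ' * W') + (v ^ 3 * (φ - φ') * W + v ^ 3 * φ' * (W - W'))| := by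
        congr 1; ring
    _ ≤ |(v ^ 3 - v' ^ 3) * (φ' * W')| + (|v ^ 3 * (φ - φ') * W| + |v ^ 3 * φ' * (W - W')|) :=
        (abs_add_le _ _).trans (add_le_add le_rfl (abs_add_le _ _))
    _ = |v ^ 3 - v' ^ 3| * (φ' * W') + ((v ^ 3 * |φ - φ'|) * W + (v ^ 3 * |W - W'|) * φ') := by
        rw [abs_mul, abs_of_nonneg (mul_nonneg hφ0' hW0'.le), abs_mul, abs_mul, abs_mul, abs_mul,
          abs_of_pos hW0, abs_of_nonneg hφ0', abs_of_pos (by positivity : 0 < v ^ 3)]
        ring
    _ ≤ 3 * (e * (v' + e)) * (1 * (1 / (3 * δ))) +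
        ((3078 / t * (2 / m + 16 * t) + 1) * (e * (v' + e)) * (1 / (3 * δ)) +
          15000 / (9 * δ ^ 2) * (((2 / m + 2 * t) / t + 1) * (e * (v' + e))) * 1) := by
        refine add_le_add ?_ (add_le_add ?_ ?_)
        · refine mul_le_mul k1 (mul_le_mul hφ1' hW1' hW0'.le zero_le_one) (by positivity)
            (by positivity)
        · exact mul_le_mul k2 hW1 hW0.le (by positivity)
        · exact mul_le_mul k4 hφ1' hφ0' (by positivity)
    _ = _ := by
        unfold H3C
        field_simp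
        ring

end Pool.Agent.Lib.MP_9cae81_PC
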