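import Pool.Agent.Lib.MP_9cae81_R.Mg.G009
import Pool.Agent.Lib.MP_9cae81_PC.D
import Pool.Agent.Lib.MP_9cae81_PC.PDefs

/-!
# (H3), third error term

The products of the two marks of the sides, and the additivity defect, with the weight `ss`.
`H3e_core`: at one `N`, from (B-a) `GA (v(M ∩ A) - v(M)) ≤ cb μ v(M)` and (D3)
`Br (ss GA GA Av sd2²) ≤ (D μ^(5/2) + e) m`.  `H3e_DH`: from the structure `DH`.
-/

set_option autoImplicit false

open Finset Filter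
open scoped BigOperators Topology

namespace Pool.Agent.Lib.MP_9cae81_PC

open Pool.Agent.Lib.MP_9cae81_R

section GA

variable {V : Type} [Fintype V] [DecidableEq V]

omit [Fintype V] in
theorem H3e_gq_nonneg {v w τ : ℝ} (hv : 0 ≤ v) (hw : 0 ≤ w) (hτ : 0 ≤ τ) (c : Cl V) :
    0 ≤ gq v w τ c :=
  qq_nonneg (mul_nonneg hτ (by linarith)) (mul_nonneg hτ (by linarith)) le_rfl c

theorem H3e_GA_mono {v w : ℝ} (hv : 0 ≤ v) (hw : 0 ≤ w) {Φ Ψ : As V → ℝ} (h : ∀ A, Φ A ≤ Ψ A) :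
    GA v w 1 Φ ≤ GA v w 1 Ψ :=
  EE_mono (fun c => H3e_gq_nonneg hv hw zero_le_one c) fun F => h (Md F)

theorem H3e_GA_nonneg {v w : ℝ} (hv : 0 ≤ v) (hw : 0 ≤ w) {Φ : As V → ℝ} (h : ∀ A, 0 ≤ Φ A) :
    0 ≤ GA v w 1 Φ := by
  have := H3e_GA_mono hv hw (Φ := fun _ => 0) h
  rwa [show GA v w 1 (fun _ : As V => (0 : ℝ)) = 0 from EE_const _ _] at this

theorem H3e_GA_const (v w c : ℝ) : GA v w 1 (fun _ : As V => c) = c := EE_const _ _

theorem H3e_GA_add (v w : ℝ) (Φ Ψ : As V → ℝ) :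
    GA v w 1 (fun A => Φ A + Ψ A) = GA v w 1 Φ + GA v w 1 Ψ := EE_add _ _ _

theorem H3e_GA_mul (v w c : ℝ) (Φ : As V → ℝ) :
    GA v w 1 (fun A => c * Φ A) = c * GA v w 1 Φ := by
  unfold GA EE
  rw [Finset.mul_sum]
  exact Finset.sum_congr rfl fun F _ => by ring

end GA

/-! ### One state -/

section pointwise

variable {V : Type} [Fintype V] [Nonempty V] [DecidableEq V] {q : ℝ}

theorem H3e_muq_pos (hq : 0 < q) (hq1 : q < 1) : 0 < muq q := by
  unfold muq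
  exact div_pos (by linarith) hq

/-- The arithmetic-geometric mean inequality behind the third term. -/
theorem H3e_amgm {m s d : ℝ} (hm : 0 < m) (hs : 0 ≤ s) (hs1 : s ≤ 1) :
    s ^ 2 * |d| / m ≤
      1 / 2 * m ^ (1 / 4 : ℝ) * s ^ 2 + 1 / 2 * m ^ (-(9 / 4) : ℝ) * (s * d ^ 2) := by
  set p := m ^ (1 / 8 : ℝ) with hp
  have hp0 : 0 < p := Real.rpow_pos_of_pos hm _
  set r := m ^ (-(9 / 8) : ℝ) with hr
  have hr0 : 0 < r := Real.rpow_pos_of_pos hm _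
  have e1 : m ^ (1 / 4 : ℝ) = p ^ 2 := by
    rw [hp, ← Real.rpow_natCast, ← Real.rpow_mul hm.le]; norm_num
  have e2 : m ^ (-(9 / 4) : ℝ) = r ^ 2 := by
    rw [hr, ← Real.rpow_natCast, ← Real.rpow_mul hm.le]; norm_num
  have e3 : p * r = m⁻¹ := by
    rw [hp, hr, ← Real.rpow_add hm, ← Real.rpow_neg_one]; norm_num
  rw [e1, e2, div_eq_mul_inv, ← e3]
  have h1 : 0 ≤ s * (p * s - r * |d|) ^ 2 := mul_nonneg hs (sq_nonneg _)
  have h2 : |d| ^ 2 = d ^ 2 := sq_abs d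
  have h3 : s ^ 3 ≤ s ^ 2 := by nlinarith [sq_nonneg s]
  have h4 : p ^ 2 * s ^ 3 ≤ p ^ 2 * s ^ 2 := mul_le_mul_of_nonneg_left h3 (sq_nonneg p)
  have h5 : s * (p * s - r * |d|) ^ 2 =
      p ^ 2 * s ^ 3 - 2 * (s ^ 2 * |d| * (p * r)) + r ^ 2 * (s * |d| ^ 2) := by ring
  rw [h5, h2] at h1
  linarith

omit [Nonempty V] [DecidableEq V] in
theorem H3e_Av_mono {f g : Lt V → ℝ} (h : ∀ a, f a ≤ g a) : Av f ≤ Av g :=
  div_le_div_of_nonneg_right (Finset.sum_le_sum fun a _ => h a) (Nat.cast_nonneg _)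

omit [DecidableEq V] in
theorem H3e_Av_lin (c c' : ℝ) (f : Lt V → ℝ) : Av (fun a => c + c' * f a) = c + c' * Av f := by
  have hc : (Fintype.card (Lt V) : ℝ) ≠ 0 := by exact_mod_cast Fintype.card_ne_zero
  unfold Av
  rw [Finset.sum_add_distrib, Finset.sum_const, Finset.card_univ, nsmul_eq_mul, ← Finset.mul_sum]
  field_simp

omit [Nonempty V] [DecidableEq V] in
theorem H3e_Av_mul (c : ℝ) (f : Lt V → ℝ) : Av (fun a => c * f a) = c * Av f := by
  unfold Av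
  rw [← Finset.mul_sum, mul_div_assoc]

/-- The bound for one state. -/
theorem H3e_pt (hq : 0 < q) (hq1 : q < 1) {v w cb : ℝ} (hv : 0 ≤ v) (hw : 0 ≤ w) (hcb : 0 ≤ cb)
    (M : As V) (ha : GA v w 1 (fun A => vv q (M ∩ A) - vv q M) ≤ cb * muq q * vv q M) :
    GA v w 1 (fun A => GA v w 1 fun B =>
      ss q M * ((vv q (M ∩ A) - vv q M) * (vv q (M ∩ B) - vv q M)) / muq q +
        ss q M ^ 2 * (vv q (M ∩ A) - vv q M) +
        ss q M ^ 2 * Av (fun y : Lt V => |sd2 q (A ∪ B) (lit y) M|) / muq q) ≤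
      ((cb ^ 2 + cb) * muq q + 1 / 2 * muq q ^ (1 / 4 : ℝ)) * ss q M ^ 2 +
        1 / 2 * muq q ^ (-(9 / 4) : ℝ) * (ss q M * GA v w 1 (fun A => GA v w 1 fun B =>
          Av (fun y : Lt V => sd2 q (A ∪ B) (lit y) M ^ 2))) := by
  have hm := H3e_muq_pos hq hq1
  have hs0 : 0 ≤ ss q M := (AS V).s_nonneg hq.le hq1 M
  have hs1 : ss q M ≤ 1 := (AS V).s_le_one hq.le hq1 M
  have hv0 : 0 ≤ vv q M := vv_nonneg hq.le hq1 M
  have hv1 : vv q M ≤ 1 := vv_le_one hq.le hq1 M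
  have hsq : ss q M ^ 2 = vv q M * ss q M := (AS V).s_sq hq.le hq1 M
  have hA0 : ∀ A : As V, 0 ≤ vv q (M ∩ A) - vv q M := fun A => by
    linarith [vv_le_inter hq.le hq1 M A]
  set a := GA v w 1 (fun A => vv q (M ∩ A) - vv q M) with hadef
  have ha0 : 0 ≤ a := H3e_GA_nonneg hv hw hA0
  set E := GA v w 1 (fun A => GA v w 1 fun B =>
    Av (fun y : Lt V => sd2 q (A ∪ B) (lit y) M ^ 2)) with hE
  -- the third term, for one pair of gadgets
  have h3 : ∀ A B : As V, ss q M ^ 2 * Av (fun y : Lt V => |sd2 q (A ∪ B) (lit y) M|) / muq q ≤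
      1 / 2 * muq q ^ (1 / 4 : ℝ) * ss q M ^ 2 + 1 / 2 * muq q ^ (-(9 / 4) : ℝ) * ss q M *
        Av (fun y : Lt V => sd2 q (A ∪ B) (lit y) M ^ 2) := by
    intro A B
    have e1 : ss q M ^ 2 * Av (fun y : Lt V => |sd2 q (A ∪ B) (lit y) M|) / muq q =
        Av (fun y : Lt V => ss q M ^ 2 / muq q * |sd2 q (A ∪ B) (lit y) M|) := by
      rw [H3e_Av_mul]; ring
    rw [e1, ← H3e_Av_lin]
    refine H3e_Av_mono fun y => ?_
    have := H3e_amgm hm hs0 hs1 (d := sd2 q (A ∪ B) (lit y) M)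
    calc ss q M ^ 2 / muq q * |sd2 q (A ∪ B) (lit y) M|
        = ss q M ^ 2 * |sd2 q (A ∪ B) (lit y) M| / muq q := by ring
      _ ≤ _ := this
      _ = _ := by ring
  -- all terms
  have h4 : GA v w 1 (fun A => GA v w 1 fun B =>
      ss q M * ((vv q (M ∩ A) - vv q M) * (vv q (M ∩ B) - vv q M)) / muq q +
        ss q M ^ 2 * (vv q (M ∩ A) - vv q M) +
        ss q M ^ 2 * Av (fun y : Lt V => |sd2 q (A ∪ B) (lit y) M|) / muq q) ≤
      GA v w 1 (fun A => GA v w 1 fun B =>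
        (ss q M * (vv q (M ∩ A) - vv q M) / muq q) * (vv q (M ∩ B) - vv q M) +
        (ss q M ^ 2 * (vv q (M ∩ A) - vv q M) + 1 / 2 * muq q ^ (1 / 4 : ℝ) * ss q M ^ 2) +
        (1 / 2 * muq q ^ (-(9 / 4) : ℝ) * ss q M) *
          Av (fun y : Lt V => sd2 q (A ∪ B) (lit y) M ^ 2)) := by
    refine H3e_GA_mono hv hw fun A => H3e_GA_mono hv hw fun B => ?_
    have := h3 A B
    calc _ = ss q M * (vv q (M ∩ A) - vv q M) / muq q * (vv q (M ∩ B) - vv q M) +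
          ss q M ^ 2 * (vv q (M ∩ A) - vv q M) +
          ss q M ^ 2 * Av (fun y : Lt V => |sd2 q (A ∪ B) (lit y) M|) / muq q := by ring
      _ ≤ _ := by linarith
  refine h4.trans ?_
  have h5 : GA v w 1 (fun A => GA v w 1 fun B =>
        (ss q M * (vv q (M ∩ A) - vv q M) / muq q) * (vv q (M ∩ B) - vv q M) +
        (ss q M ^ 2 * (vv q (M ∩ A) - vv q M) + 1 / 2 * muq q ^ (1 / 4 : ℝ) * ss q M ^ 2) +
        (1 / 2 * muq q ^ (-(9 / 4) : ℝ) * ss q M) *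
          Av (fun y : Lt V => sd2 q (A ∪ B) (lit y) M ^ 2)) =
      ss q M / muq q * a * a + ss q M ^ 2 * a + 1 / 2 * muq q ^ (1 / 4 : ℝ) * ss q M ^ 2 +
        1 / 2 * muq q ^ (-(9 / 4) : ℝ) * ss q M * E := by
    have e1 : ∀ A : As V, GA v w 1 (fun B =>
        (ss q M * (vv q (M ∩ A) - vv q M) / muq q) * (vv q (M ∩ B) - vv q M) +
        (ss q M ^ 2 * (vv q (M ∩ A) - vv q M) + 1 / 2 * muq q ^ (1 / 4 : ℝ) * ss q M ^ 2) +
        (1 / 2 * muq q ^ (-(9 / 4) : ℝ) * ss q M) *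
          Av (fun y : Lt V => sd2 q (A ∪ B) (lit y) M ^ 2)) =
        (ss q M / muq q * a + ss q M ^ 2) * (vv q (M ∩ A) - vv q M) +
          1 / 2 * muq q ^ (1 / 4 : ℝ) * ss q M ^ 2 +
          (1 / 2 * muq q ^ (-(9 / 4) : ℝ) * ss q M) * GA v w 1 (fun B =>
            Av (fun y : Lt V => sd2 q (A ∪ B) (lit y) M ^ 2)) := by
      intro A
      rw [H3e_GA_add, H3e_GA_add, H3e_GA_mul, H3e_GA_const, H3e_GA_mul]
      ring
    simp only [e1]
    rw [H3e_GA_add, H3e_GA_add, H3e_GA_mul, H3e_GA_const, H3e_GA_mul]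
    ring
  rw [h5]
  have h6 : ss q M / muq q * a * a ≤ cb ^ 2 * muq q * ss q M ^ 2 := by
    have h7 : a * a ≤ (cb * muq q * vv q M) * (cb * muq q * vv q M) :=
      mul_le_mul ha ha ha0 (ha0.trans ha)
    have h8 : ss q M / muq q * (a * a) ≤ ss q M / muq q *
        ((cb * muq q * vv q M) * (cb * muq q * vv q M)) :=
      mul_le_mul_of_nonneg_left h7 (div_nonneg hs0 hm.le)
    have h9 : ss q M / muq q * ((cb * muq q * vv q M) * (cb * muq q * vv q M)) =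
        cb ^ 2 * muq q * (vv q M * ss q M) * vv q M := by field_simp
    have h10 : cb ^ 2 * muq q * (vv q M * ss q M) * vv q M ≤
        cb ^ 2 * muq q * (vv q M * ss q M) * 1 :=
      mul_le_mul_of_nonneg_left hv1 (by positivity)
    calc ss q M / muq q * a * a = ss q M / muq q * (a * a) := by ring
      _ ≤ _ := by rw [hsq]; linarith
  have h11 : ss q M ^ 2 * a ≤ cb * muq q * ss q M ^ 2 := by
    calc ss q M ^ 2 * a ≤ ss q M ^ 2 * (cb * muq q * vv q M) :=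
          mul_le_mul_of_nonneg_left ha (sq_nonneg _)
      _ ≤ ss q M ^ 2 * (cb * muq q * 1) := by
          refine mul_le_mul_of_nonneg_left ?_ (sq_nonneg _)
          exact mul_le_mul_of_nonneg_left hv1 (by positivity)
      _ = _ := by ring
  linarith

end pointwise

/-! ### The bracket -/

/-- **Third error term of (H3)** at one `N`. -/
theorem H3e_core {q : ℝ} (hq : 0 < q) (hq1 : q < 1) (hμ : muq q ≤ 1) {x y : ℝ} (hx : 0 ≤ x)
    (hy : 0 ≤ y) {N : ℕ} {v w cb : ℝ} (hv : 0 ≤ v) (hw : 0 ≤ w) (hcb : 0 ≤ cb) {D e : ℝ}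
    (hn : ∀ n ∈ Finset.Icc (N - MW N) (N + MW N), 1 ≤ n)
    (hBa : ∀ n ∈ Finset.Icc (N - MW N) (N + MW N), ∀ M : As (Fin n),
      GA v w 1 (fun A => vv q (M ∩ A) - vv q M) ≤ cb * muq q * vv q M)
    (hD3 : Br N x y (fun n M => ss q M * GA v w 1 (fun A => GA v w 1 fun B =>
      Av (fun z : Lt (Fin n) => sd2 q (A ∪ B) (lit z) M ^ 2))) ≤
        (D * muq q ^ (5 / 2 : ℝ) + e) * mm q N x y) :
    Br N x y (fun n M => GA v w 1 (fun A => GA v w 1 fun B =>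
      ss q M * ((vv q (M ∩ A) - vv q M) * (vv q (M ∩ B) - vv q M)) / muq q +
        ss q M ^ 2 * (vv q (M ∩ A) - vv q M) +
        ss q M ^ 2 * Av (fun z : Lt (Fin n) => |sd2 q (A ∪ B) (lit z) M|) / muq q)) ≤
      ((cb ^ 2 + cb + 1 / 2 + D / 2) * muq q ^ (1 / 4 : ℝ) +
        1 / 2 * muq q ^ (-(9 / 4) : ℝ) * e) *
        mm q N x y := by
  have hm := H3e_muq_pos hq hq1
  have hqq : ∀ (n : ℕ) (c : Cl (Fin n)), 0 ≤ qq (Iu N) (Iv N x) (Iw N y) c := by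
    intro n c
    refine qq_nonneg ?_ ?_ ?_ c
    · unfold Iu LN; positivity
    · unfold Iv; positivity
    · unfold Iw; positivity
  have hW : ∀ n, 0 ≤ Wt N n := fun n => (Real.exp_pos _).le
  -- the bracket of the bound
  have h1 : Br N x y (fun n M => GA v w 1 (fun A => GA v w 1 fun B =>
      ss q M * ((vv q (M ∩ A) - vv q M) * (vv q (M ∩ B) - vv q M)) / muq q +
        ss q M ^ 2 * (vv q (M ∩ A) - vv q M) +
        ss q M ^ 2 * Av (fun z : Lt (Fin n) => |sd2 q (A ∪ B) (lit z) M|) / muq q)) ≤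
      ((cb ^ 2 + cb) * muq q + 1 / 2 * muq q ^ (1 / 4 : ℝ)) * mm q N x y +
        1 / 2 * muq q ^ (-(9 / 4) : ℝ) * Br N x y (fun n M => ss q M *
          GA v w 1 (fun A => GA v w 1 fun B =>
            Av (fun z : Lt (Fin n) => sd2 q (A ∪ B) (lit z) M ^ 2))) := by
    unfold mm Br
    rw [Finset.mul_sum, Finset.mul_sum, ← Finset.sum_add_distrib]
    refine Finset.sum_le_sum fun n hn' => ?_
    have hn1 := hn n hn'
    have : Nonempty (Fin n) := ⟨⟨0, hn1⟩⟩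
    have h2 : En N x y n (fun M => GA v w 1 (fun A => GA v w 1 fun B =>
        ss q M * ((vv q (M ∩ A) - vv q M) * (vv q (M ∩ B) - vv q M)) / muq q +
        ss q M ^ 2 * (vv q (M ∩ A) - vv q M) +
        ss q M ^ 2 * Av (fun z : Lt (Fin n) => |sd2 q (A ∪ B) (lit z) M|) / muq q)) ≤
        En N x y n (fun M => ((cb ^ 2 + cb) * muq q + 1 / 2 * muq q ^ (1 / 4 : ℝ)) * ss q M ^ 2 +
          1 / 2 * muq q ^ (-(9 / 4) : ℝ) * (ss q M * GA v w 1 (fun A => GA v w 1 fun B =>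
          Av (fun z : Lt (Fin n) => sd2 q (A ∪ B) (lit z) M ^ 2)))) :=
      EE_mono (hqq n) fun F => H3e_pt hq hq1 hv hw hcb (Md F) (hBa n hn' (Md F))
    have h3 : En N x y n (fun M => ((cb ^ 2 + cb) * muq q + 1 / 2 * muq q ^ (1 / 4 : ℝ)) * ss q M ^ 2 +
          1 / 2 * muq q ^ (-(9 / 4) : ℝ) * (ss q M * GA v w 1 (fun A => GA v w 1 fun B =>
          Av (fun z : Lt (Fin n) => sd2 q (A ∪ B) (lit z) M ^ 2)))) =
        ((cb ^ 2 + cb) * muq q + 1 / 2 * muq q ^ (1 / 4 : ℝ)) * En N x y n (fun M => ss q M ^ 2) +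
          1 / 2 * muq q ^ (-(9 / 4) : ℝ) * En N x y n (fun M => ss q M *
            GA v w 1 (fun A => GA v w 1 fun B =>
              Av (fun z : Lt (Fin n) => sd2 q (A ∪ B) (lit z) M ^ 2))) := by
      unfold En EE
      rw [Finset.mul_sum, Finset.mul_sum, ← Finset.sum_add_distrib]
      exact Finset.sum_congr rfl fun F _ => by ring
    have h4 := mul_le_mul_of_nonneg_left (h2.trans h3.le) (hW n)
    refine h4.trans (le_of_eq ?_)
    ring
  have hmm : 0 ≤ mm q N x y := by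
    unfold mm Br
    refine Finset.sum_nonneg fun n _ => mul_nonneg (hW n) ?_
    unfold En EE
    exact Finset.sum_nonneg fun F _ => mul_nonneg (wt_nonneg (hqq n) F) (sq_nonneg _)
  have h5 : muq q ≤ muq q ^ (1 / 4 : ℝ) := by
    calc muq q = muq q ^ (1 : ℝ) := (Real.rpow_one _).symm
      _ ≤ muq q ^ (1 / 4 : ℝ) := Real.rpow_le_rpow_of_exponent_ge hm hμ (by norm_num)
  have h6 : muq q ^ (-(9 / 4) : ℝ) * muq q ^ (5 / 2 : ℝ) = muq q ^ (1 / 4 : ℝ) := by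
    rw [← Real.rpow_add hm]; norm_num
  have h7 : 0 ≤ 1 / 2 * muq q ^ (-(9 / 4) : ℝ) := by positivity
  have h8 := mul_le_mul_of_nonneg_left hD3 h7
  have h9 : 1 / 2 * muq q ^ (-(9 / 4) : ℝ) * ((D * muq q ^ (5 / 2 : ℝ) + e) * mm q N x y) =
      (D / 2 * (muq q ^ (-(9 / 4) : ℝ) * muq q ^ (5 / 2 : ℝ)) +
        1 / 2 * muq q ^ (-(9 / 4) : ℝ) * e) * mm q N x y := by ring
  rw [h9, h6] at h8
  have h10 : (cb ^ 2 + cb) * muq q * mm q N x y ≤
      (cb ^ 2 + cb) * muq q ^ (1 / 4 : ℝ) * mm q N x y :=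
    mul_le_mul_of_nonneg_right (mul_le_mul_of_nonneg_left h5 (by positivity)) hmm
  calc _ ≤ _ := h1
    _ ≤ (cb ^ 2 + cb) * muq q ^ (1 / 4 : ℝ) * mm q N x y + 1 / 2 * muq q ^ (1 / 4 : ℝ) * mm q N x y +
        (D / 2 * muq q ^ (1 / 4 : ℝ) + 1 / 2 * muq q ^ (-(9 / 4) : ℝ) * e) * mm q N x y := by
          linarith
    _ = _ := by ring

/-- (B-a): `E (v(M ∩ A) - v(M)) ≤ 13 μ v(M)`. -/
theorem H3e_Ba {q : ℝ} {N : ℕ} {x y K ε : ℝ} (H : DH q N x y K ε) {n : ℕ}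
    (hn : n ∈ Finset.Icc (N - MW N) (N + MW N)) (M : As (Fin n)) :
    GA (Iv N x) (Iw N y) 1 (fun A => vv q (M ∩ A) - vv q M) ≤ 13 * muq q * vv q M := by
  have hn1 := H.win n hn
  have : Nonempty (Fin n) := ⟨⟨0, hn1⟩⟩
  have hm := H3e_muq_pos H.q0 H.q1
  have hx := H.x0
  have hy := H.y0
  have hv : 0 ≤ Iv N x := by unfold Iv; positivity
  have hw : 0 ≤ Iw N y := by unfold Iw; positivity
  have h1 : ((2 * Iv N x + 3 * Iw N y) * Fintype.card (Lt (Fin n)) +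
      3 * Iw N y * (Fintype.card (Lt (Fin n)) : ℝ) ^ 2) * muq q ≤ 4 * muq q := by
    refine mul_le_mul_of_nonneg_right ?_ hm.le
    linarith [H.hc2 n hn, H.hβ n hn]
  have h2 := GA_vv_le H.q0 H.q1 hv hw h1 M
  have hmu : muq q ≤ 1 / 2 := by
    have h3 : muq q ≤ K * muq q := by
      have := mul_le_mul_of_nonneg_right H.K1 hm.le
      linarith
    exact h3.trans H.Kmu
  have h3 : GA (Iv N x) (Iw N y) 1 (fun A : As (Fin n) => vv q (M ∩ A) - vv q M) =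
      GA (Iv N x) (Iw N y) 1 (fun A : As (Fin n) => vv q (M ∩ A)) - vv q M := by
    have := H3e_GA_add (Iv N x) (Iw N y) (fun A : As (Fin n) => vv q (M ∩ A) - vv q M)
      (fun _ => vv q M)
    rw [H3e_GA_const] at this
    simp only [sub_add_cancel] at this
    linarith
  rw [h3]
  -- `exp (4 μ) - 1 ≤ 13 μ` for `0 ≤ μ ≤ 1/2` by convexity
  have h4 : Real.exp (4 * muq q) ≤ 1 + 13 * muq q := by
    have hc := convexOn_exp.2 (Set.mem_univ (0 : ℝ)) (Set.mem_univ (2 : ℝ))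
      (show 0 ≤ 1 - 2 * muq q by linarith) (show 0 ≤ 2 * muq q by linarith) (by ring)
    simp only [smul_eq_mul, mul_zero, zero_add, Real.exp_zero, mul_one] at hc
    have h5 : Real.exp 2 ≤ 7.5 := by
      have h6 := Real.exp_one_lt_d9
      have h7 : Real.exp 2 = Real.exp 1 ^ 2 := by rw [← Real.exp_nat_mul]; norm_num
      rw [h7]
      have h8 := Real.exp_pos 1
      nlinarith
    have h9 : 2 * muq q * 2 = 4 * muq q := by ring
    rw [h9] at hc
    nlinarith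
  have h10 : 0 ≤ vv q M := vv_nonneg H.q0.le H.q1 M
  have h11 := mul_le_mul_of_nonneg_right h4 h10
  linarith

/-- **Third error term of (H3)**, from `DH`. -/
theorem H3e_DH {q : ℝ} {N : ℕ} {x y K ε : ℝ} (H : DH q N x y K ε) :
    Br N x y (fun n M => GA (Iv N x) (Iw N y) 1 (fun A => GA (Iv N x) (Iw N y) 1 fun B =>
      ss q M * ((vv q (M ∩ A) - vv q M) * (vv q (M ∩ B) - vv q M)) / muq q +
        ss q M ^ 2 * (vv q (M ∩ A) - vv q M) +
        ss q M ^ 2 * Av (fun z : Lt (Fin n) => |sd2 q (A ∪ B) (lit z) M|) / muq q)) ≤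
      500 * K * muq q ^ (1 / 4 : ℝ) * mm q N x y := by
  have hm := H3e_muq_pos H.q0 H.q1
  have hx := H.x0
  have hy := H.y0
  have hv : 0 ≤ Iv N x := by unfold Iv; positivity
  have hw : 0 ≤ Iw N y := by unfold Iw; positivity
  have hs : muq q ^ 2 * Real.sqrt (muq q) = muq q ^ (5 / 2 : ℝ) := by
    rw [Real.sqrt_eq_rpow, ← Real.rpow_natCast, ← Real.rpow_add hm]; norm_num
  have hmm : 0 ≤ mm q N x y := by
    unfold mm Br
    refine Finset.sum_nonneg fun n _ => mul_nonneg (Real.exp_pos _).le ?_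
    unfold En EE
    refine Finset.sum_nonneg fun F _ => mul_nonneg (wt_nonneg (fun c => ?_) F) (sq_nonneg _)
    refine qq_nonneg ?_ ?_ ?_ c
    · unfold Iu LN; positivity
    · unfold Iv; positivity
    · unfold Iw; positivity
  have hD3 : Br N x y (fun n M => ss q M * GA (Iv N x) (Iw N y) 1 (fun A =>
      GA (Iv N x) (Iw N y) 1 fun B =>
      Av (fun z : Lt (Fin n) => sd2 q (A ∪ B) (lit z) M ^ 2))) ≤
        (600 * K * muq q ^ (5 / 2 : ℝ) + 0) * mm q N x y := by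
    have h1 := H.D3b
    rw [add_zero, ← hs]
    refine le_trans ?_ (h1.trans (le_of_eq (by ring)))
    unfold Br
    refine Finset.sum_le_sum fun n hn => mul_le_mul_of_nonneg_left ?_ (Real.exp_pos _).le
    have : Nonempty (Fin n) := ⟨⟨0, H.win n hn⟩⟩
    refine EE_mono (fun c => qq_nonneg (by unfold Iu LN; positivity) (by unfold Iv; positivity)
      (by unfold Iw; positivity) c) fun F => ?_
    have h2 : ss q (Md F) ≤ vv q (Md F) := (AS (Fin n)).s_le_v _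
    show ss q (Md F) * GA (Iv N x) (Iw N y) 1 (fun A => GA (Iv N x) (Iw N y) 1 fun B =>
      Av (fun z : Lt (Fin n) => sd2 q (A ∪ B) (lit z) (Md F) ^ 2)) ≤
      GA (Iv N x) (Iw N y) 1 (fun A => GA (Iv N x) (Iw N y) 1 fun B =>
        vv q (Md F) * SD q (A ∪ B) (Md F))
    rw [← H3e_GA_mul]
    refine H3e_GA_mono hv hw fun A => ?_
    rw [← H3e_GA_mul]
    refine H3e_GA_mono hv hw fun B => ?_
    have h3 : Av (fun z : Lt (Fin n) => sd2 q (A ∪ B) (lit z) (Md F) ^ 2) = SD q (A ∪ B) (Md F) :=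
      rfl
    rw [h3]
    exact mul_le_mul_of_nonneg_right h2 (D.SD_nonneg _ _)
  have key := H3e_core H.q0 H.q1 H.mu1 hx hy hv hw (cb := 13) (by norm_num) H.win
    (fun n hn M => H3e_Ba H hn M) hD3
  refine key.trans (mul_le_mul_of_nonneg_right ?_ hmm)
  have hK := H.K1
  have h4 : 0 ≤ muq q ^ (1 / 4 : ℝ) := Real.rpow_nonneg hm.le _
  have h5 : (0 : ℝ) ≤ (K - 1) * muq q ^ (1 / 4 : ℝ) := mul_nonneg (by linarith) h4
  nlinarith

end Pool.Agent.Lib.MP_9cae81_PC
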