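import Pool.Agent.Lib.MP_9cae81_PC.Mg.G005
import Pool.Agent.Lib.MP_9cae81_PC.Mg.G001
import Pool.Agent.Lib.MP_9cae81_PC.H3e

/-!
# (H3), the change of the weight `ss ^ 3` by a disjunction of two gadgets

`H3d`: `Br (GA GA |ss (M ∩ (A ∪ B)) ^ 3 - ss M ^ 3|) ≤ (K μ + ε) m`.
-/

set_option autoImplicit false
set_option linter.unusedSectionVars false

open Finset Filter
open scoped BigOperators Topology

namespace Pool.Agent.Lib.MP_9cae81_PC

open Pool.Agent.Lib.MP_9cae81_R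

section

variable {V : Type} [Fintype V] [DecidableEq V] [Nonempty V] {q : ℝ}

theorem H3d_ss_ne {S : As V} (h : S ≠ ∅) : ss q S = vv q S :=
  (AS V).s_of_sat (una_of_ne h)

theorem H3d_ss_empty (hq : 0 ≤ q) (hq1 : q < 1) : ss q (∅ : As V) = 0 :=
  (AS V).s_of_un hq hq1 (una_of_eq rfl)

/-- The pointwise bound. -/
theorem H3d_point (hq : 0 ≤ q) (hq1 : q < 1) (M A B : As V) :
    |ss q (M ∩ (A ∪ B)) ^ 3 - ss q M ^ 3| ≤
      6 * ss q M ^ 2 * mk q A M + 6 * (mk q A M * mk q B M) + ss q M ^ 3 * una (M ∩ A) := by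
  have ha := mk_nonneg hq hq1 A M
  have hb := mk_nonneg hq hq1 B M
  have hs : 0 ≤ ss q M := (AS V).s_nonneg hq hq1 M
  have hu := una_nonneg (M ∩ A)
  by_cases hM : M = ∅
  · subst hM
    rw [Set.empty_inter, H3d_ss_empty hq hq1]
    rw [sub_self, abs_zero]
    positivity
  · rw [H3d_ss_ne hM]
    have hv0 := vv_nonneg hq hq1 M
    by_cases h0 : M ∩ (A ∪ B) = ∅
    · rw [h0, H3d_ss_empty hq hq1]
      have hA : M ∩ A = ∅ := by
        refine Set.eq_empty_of_subset_empty ?_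
        rw [← h0]
        exact Set.inter_subset_inter_right M Set.subset_union_left
      rw [una_of_eq hA]
      have : |(0 : ℝ) ^ 3 - vv q M ^ 3| = vv q M ^ 3 := by
        rw [show (0 : ℝ) ^ 3 - vv q M ^ 3 = -(vv q M ^ 3) by ring, abs_neg,
          abs_of_nonneg (by positivity)]
      rw [this]
      have h1 : 0 ≤ 6 * vv q M ^ 2 * mk q A M := by positivity
      have h2 : 0 ≤ 6 * (mk q A M * mk q B M) := by positivity
      linarith
    · rw [H3d_ss_ne h0]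
      have e1 : vv q M ≤ vv q (M ∩ (A ∪ B)) := vv_le_inter hq hq1 _ _
      have e2 : vv q (M ∩ (A ∪ B)) ≤ vv q (M ∩ A) :=
        vv_anti hq hq1 (Set.inter_subset_inter_right M Set.subset_union_left)
      have e3 : vv q (M ∩ (A ∪ B)) ≤ vv q (M ∩ B) :=
        vv_anti hq hq1 (Set.inter_subset_inter_right M Set.subset_union_right)
      have e4 := vv_le_one hq hq1 (M ∩ (A ∪ B))
      have eA : mk q A M = vv q (M ∩ A) - vv q M := rfl
      have eB : mk q B M = vv q (M ∩ B) - vv q M := rfl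
      generalize vv q (M ∩ (A ∪ B)) = v0 at *
      generalize hα : mk q A M = α at *
      generalize hβ : mk q B M = β at *
      generalize vv q M = v at *
      have t1 : v0 - v ≤ α := by rw [eA]; linarith
      have t2 : v0 - v ≤ β := by rw [eB]; linarith
      obtain ⟨t, ht⟩ : ∃ t, t = v0 - v := ⟨_, rfl⟩
      rw [← ht] at t1 t2
      have t0 : 0 ≤ t := by rw [ht]; linarith
      have hv : v0 = v + t := by rw [ht]; ring
      subst hv
      have t3 : t ≤ 1 := by linarith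
      have h1 : (v + t) ^ 3 - v ^ 3 ≤ 6 * v ^ 2 * t + 6 * t ^ 2 := by
        nlinarith [mul_nonneg hv0 t0, mul_nonneg (mul_nonneg hv0 hv0) t0, mul_nonneg t0 t0,
          mul_nonneg hv0 (mul_nonneg t0 t0), mul_nonneg t0 (mul_nonneg t0 t0),
          mul_nonneg t0 (sq_nonneg (v - t)), mul_nonneg (mul_nonneg t0 t0) (sub_nonneg.2 t3)]
      have h2 : 0 ≤ (v + t) ^ 3 - v ^ 3 := by
        have := pow_le_pow_left₀ hv0 (by linarith : v ≤ v + t) 3
        linarith
      rw [abs_of_nonneg h2]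
      have h3 : 6 * v ^ 2 * t ≤ 6 * v ^ 2 * α := mul_le_mul_of_nonneg_left t1 (by positivity)
      have h4 : t ^ 2 ≤ α * β := by
        rw [sq]
        exact mul_le_mul t1 t2 t0 ha
      have h5 : 0 ≤ v ^ 3 * una (M ∩ A) := by positivity
      linarith

/-- The average over the two gadgets. -/
theorem H3d_avg (hq : 0 < q) (hq1 : q < 1) (hmu : muq q ≤ 1 / 20) {v w : ℝ} (hv : 0 ≤ v)
    (hw : 0 ≤ w)
    (hb : (2 * v + 3 * w) * Fintype.card (Lt V) + 3 * w * (Fintype.card (Lt V) : ℝ) ^ 2 ≤ 13 / 5)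
    (M : As V) :
    GA v w 1 (fun A => GA v w 1 fun B => |ss q (M ∩ (A ∪ B)) ^ 3 - ss q M ^ 3|) ≤
      21 * muq q * ss q M ^ 2 + GA v w 1 (fun A => ss q M ^ 3 * una (M ∩ A)) := by
  have hmu0 : 0 ≤ muq q := div_nonneg (by linarith) hq.le
  have hmk : GA v w 1 (fun A => mk q A M) ≤ 3 * muq q * vv q M := by
    have h := Ba_vv hq hq1 hv hw hb M zero_le_one le_rfl
    have h1 : GA v w 1 (fun A => mk q A M) = GA v w 1 (fun A => vv q (M ∩ A)) - vv q M := by
      unfold mk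
      rw [B2.GA_sub, B2.GA_const]
    have h2 : Real.exp (13 / 5 * muq q) ≤ 1 + 3 * muq q := by
      have h3 : 0 ≤ 13 / 5 * muq q := by positivity
      have h4 : 13 / 5 * muq q ≤ 13 / 100 := by linarith
      have h5 := Real.abs_exp_sub_one_sub_id_le (x := 13 / 5 * muq q)
        (by rw [abs_of_nonneg h3]; linarith)
      have h6 := (abs_le.1 h5).2
      nlinarith
    have h7 := mul_le_mul_of_nonneg_right h2 (vv_nonneg hq.le hq1 M)
    rw [h1]
    nlinarith
  have hs : 0 ≤ ss q M := (AS V).s_nonneg hq.le hq1 M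
  have hs1 : ss q M ≤ 1 := ((AS V).s_le_v M).trans (vv_le_one hq.le hq1 M)
  by_cases hM : M = ∅
  · subst hM
    have e : GA v w 1 (fun A => GA v w 1 fun B =>
        |ss q ((∅ : As V) ∩ (A ∪ B)) ^ 3 - ss q (∅ : As V) ^ 3|) = 0 := by
      have e1 : ∀ A B : As V, |ss q ((∅ : As V) ∩ (A ∪ B)) ^ 3 - ss q (∅ : As V) ^ 3| = 0 := by
        intro A B
        rw [Set.empty_inter, sub_self, abs_zero]
      simp only [e1, B2.GA_const]
    rw [e]
    have e2 : 0 ≤ GA v w 1 (fun A => ss q (∅ : As V) ^ 3 * una ((∅ : As V) ∩ A)) :=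
      B2.GA_nonneg hv hw zero_le_one fun A => mul_nonneg (by positivity) (una_nonneg _)
    have : 0 ≤ 21 * muq q * ss q (∅ : As V) ^ 2 := by positivity
    linarith
  · have hsv : ss q M = vv q M := H3d_ss_ne hM
    have hmk' : GA v w 1 (fun A => mk q A M) ≤ 3 * muq q * ss q M := by rw [hsv]; exact hmk
    have hmk0 : 0 ≤ GA v w 1 (fun A => mk q A M) :=
      B2.GA_nonneg hv hw zero_le_one fun A => mk_nonneg hq.le hq1 A M
    have hB : ∀ A : As V, GA v w 1 (fun B => |ss q (M ∩ (A ∪ B)) ^ 3 - ss q M ^ 3|) ≤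
        (6 * ss q M ^ 2 + 6 * (3 * muq q * ss q M)) * mk q A M + ss q M ^ 3 * una (M ∩ A) := by
      intro A
      have h1 := B2.GA_mono hv hw zero_le_one (fun B => H3d_point hq.le hq1 M A B)
      refine h1.trans ?_
      have e1 : GA v w 1 (fun B => 6 * ss q M ^ 2 * mk q A M + 6 * (mk q A M * mk q B M) +
          ss q M ^ 3 * una (M ∩ A)) = 6 * ss q M ^ 2 * mk q A M +
          (6 * mk q A M) * GA v w 1 (fun B => mk q B M) + ss q M ^ 3 * una (M ∩ A) := by
        rw [B2.GA_add, B2.GA_const, B2.GA_add, B2.GA_const]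
        congr 2
        rw [← B2.GA_mul]
        congr 1
        funext B
        ring
      rw [e1]
      have h2 : (6 * mk q A M) * GA v w 1 (fun B => mk q B M) ≤
          (6 * mk q A M) * (3 * muq q * ss q M) :=
        mul_le_mul_of_nonneg_left hmk' (mul_nonneg (by norm_num) (mk_nonneg hq.le hq1 A M))
      nlinarith
    have h3 := B2.GA_mono hv hw zero_le_one hB
    refine h3.trans ?_
    rw [B2.GA_add, B2.GA_mul]
    have h4 : (6 * ss q M ^ 2 + 6 * (3 * muq q * ss q M)) * GA v w 1 (fun A => mk q A M) ≤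
        (6 * ss q M ^ 2 + 6 * (3 * muq q * ss q M)) * (3 * muq q * ss q M) :=
      mul_le_mul_of_nonneg_left hmk' (by positivity)
    have h5 : (6 * ss q M ^ 2 + 6 * (3 * muq q * ss q M)) * (3 * muq q * ss q M) ≤
        21 * muq q * ss q M ^ 2 := by
      have h6 : ss q M ^ 3 ≤ ss q M ^ 2 := by
        have := mul_le_mul_of_nonneg_left hs1 (sq_nonneg (ss q M))
        nlinarith
      have h7 : muq q * ss q M ^ 3 ≤ muq q * ss q M ^ 2 := mul_le_mul_of_nonneg_left h6 hmu0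
      have h8 : muq q * (muq q * ss q M ^ 2) ≤ 1 / 20 * (muq q * ss q M ^ 2) :=
        mul_le_mul_of_nonneg_right hmu (by positivity)
      nlinarith
    linarith

end

/-- Parameters: `c₂ + β ≤ 13/5` in the window. -/
theorem H3d_param {x Y : ℝ} (hx1 : x ≤ 1) (hY : Y ≤ 1) (C : Cen x Y) : ∀ᶠ k in atTop,
    ∀ n ∈ Finset.Icc (C.N k - MW (C.N k)) (C.N k + MW (C.N k)),
      (2 * Iv (C.N k) x + 3 * Iw (C.N k) (C.y k)) * Fintype.card (Lt (Fin n)) +
        3 * Iw (C.N k) (C.y k) * (Fintype.card (Lt (Fin n)) : ℝ) ^ 2 ≤ 13 / 5 := by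
  filter_upwards [A0_param C (ε := 1 / 20) (by norm_num)] with k hk n hn
  obtain ⟨h1, h2⟩ := hk n hn
  have hc : (Fintype.card (Lt (Fin n)) : ℝ) = 2 * n := by
    have : Fintype.card (Lt (Fin n)) = 2 * n := by
      show Fintype.card (Fin n × Bool) = 2 * n
      simp [mul_comm]
    rw [this]; push_cast; ring
  rw [hc]
  have h3 := (abs_le.1 h1).2
  have h4 := (abs_le.1 h2).2
  have h5 := C.yY k
  nlinarith

/-- **H3d**, with (B-b) as a hypothesis. -/
theorem H3d_of {x Y : ℝ} (hx : 0 ≤ x) (hx1 : x ≤ 1) (hY : Y ≤ 1) (C : Cen x Y) {q : ℝ}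
    (hq : 0 < q) (hq1 : q < 1) (hmu : muq q ≤ 1 / 20) {K : ℝ}
    (hBb : ∀ ε : ℝ, 0 < ε → ∀ᶠ k in atTop, Br (C.N k) x (C.y k) (fun _ M =>
      GA (Iv (C.N k) x) (Iw (C.N k) (C.y k)) 1 (fun A => ss q M ^ 3 * una (M ∩ A))) ≤
        (K * muq q + ε) * mm q (C.N k) x (C.y k))
    {ε : ℝ} (hε : 0 < ε) : ∀ᶠ k in atTop, Br (C.N k) x (C.y k) (fun _ M =>
      GA (Iv (C.N k) x) (Iw (C.N k) (C.y k)) 1 fun A =>
        GA (Iv (C.N k) x) (Iw (C.N k) (C.y k)) 1 fun B =>
          |ss q (M ∩ (A ∪ B)) ^ 3 - ss q M ^ 3|) ≤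
        ((21 + K) * muq q + ε) * mm q (C.N k) x (C.y k) := by
  filter_upwards [hBb ε hε, H3d_param hx1 hY C, C.hN.eventually A0_window] with k h1 h2 h3
  have hy := C.y0 k
  have hv : 0 ≤ Iv (C.N k) x := B2.Iv_nonneg hx
  have hw : 0 ≤ Iw (C.N k) (C.y k) := B2.Iw_nonneg hy
  have key : Br (C.N k) x (C.y k) (fun _ M =>
      GA (Iv (C.N k) x) (Iw (C.N k) (C.y k)) 1 fun A =>
        GA (Iv (C.N k) x) (Iw (C.N k) (C.y k)) 1 fun B =>
          |ss q (M ∩ (A ∪ B)) ^ 3 - ss q M ^ 3|) ≤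
      Br (C.N k) x (C.y k) (fun n M => (21 * muq q) * (fun _ S => ss q S ^ 2 :
        (n : ℕ) → As (Fin n) → ℝ) n M +
        (fun _ M => GA (Iv (C.N k) x) (Iw (C.N k) (C.y k)) 1
          (fun A => ss q M ^ 3 * una (M ∩ A)) : (n : ℕ) → As (Fin n) → ℝ) n M) := by
    refine B2.Br_mono hx hy fun n hn S => ?_
    have : Nonempty (Fin n) := by
      have := (h3.2.1 n hn).1
      have := C.N1 k
      exact ⟨⟨0, by omega⟩⟩
    exact H3d_avg hq hq1 hmu hv hw (h2 n hn) S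
  refine key.trans ?_
  rw [B2.Br_add, B2.Br_mul]
  have e : Br (C.N k) x (C.y k) (fun _ S => ss q S ^ 2 : (n : ℕ) → As (Fin n) → ℝ) =
    mm q (C.N k) x (C.y k) := rfl
  rw [e]
  linarith

/-- The average over the two gadgets, from a bound for the mean growth by one gadget. -/
theorem H3d_avg_gen {V : Type} [Fintype V] [DecidableEq V] [Nonempty V] {q : ℝ}
    (hq : 0 < q) (hq1 : q < 1) {v w : ℝ} (hv : 0 ≤ v) (hw : 0 ≤ w) {c : ℝ} (hc : 0 ≤ c)
    (M : As V) (hmk : GA v w 1 (fun A => mk q A M) ≤ c * vv q M) :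
    GA v w 1 (fun A => GA v w 1 fun B => |ss q (M ∩ (A ∪ B)) ^ 3 - ss q M ^ 3|) ≤
      (6 * c + 6 * c ^ 2) * ss q M ^ 2 + GA v w 1 (fun A => ss q M * una (M ∩ A)) := by
  have hs : 0 ≤ ss q M := (AS V).s_nonneg hq.le hq1 M
  have hs1 : ss q M ≤ 1 := ((AS V).s_le_v M).trans (vv_le_one hq.le hq1 M)
  have hs3 : ss q M ^ 3 ≤ ss q M := by
    have h1 : ss q M ^ 2 ≤ 1 := pow_le_one₀ hs hs1
    have := mul_le_mul_of_nonneg_left h1 hs
    nlinarith
  have hlast : GA v w 1 (fun A => ss q M ^ 3 * una (M ∩ A)) ≤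
      GA v w 1 (fun A => ss q M * una (M ∩ A)) :=
    B2.GA_mono hv hw zero_le_one fun A => mul_le_mul_of_nonneg_right hs3 (una_nonneg _)
  by_cases hM : M = ∅
  · subst hM
    have e : GA v w 1 (fun A => GA v w 1 fun B =>
        |ss q ((∅ : As V) ∩ (A ∪ B)) ^ 3 - ss q (∅ : As V) ^ 3|) = 0 := by
      have e1 : ∀ A B : As V, |ss q ((∅ : As V) ∩ (A ∪ B)) ^ 3 - ss q (∅ : As V) ^ 3| = 0 := by
        intro A B
        rw [Set.empty_inter, sub_self, abs_zero]
      simp only [e1, B2.GA_const]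
    rw [e]
    have e2 : 0 ≤ GA v w 1 (fun A => ss q (∅ : As V) * una ((∅ : As V) ∩ A)) :=
      B2.GA_nonneg hv hw zero_le_one fun A => mul_nonneg hs (una_nonneg _)
    have : 0 ≤ (6 * c + 6 * c ^ 2) * ss q (∅ : As V) ^ 2 := by positivity
    linarith
  · have hsv : ss q M = vv q M := H3d_ss_ne hM
    have hmk' : GA v w 1 (fun A => mk q A M) ≤ c * ss q M := by rw [hsv]; exact hmk
    have hmk0 : 0 ≤ GA v w 1 (fun A => mk q A M) :=
      B2.GA_nonneg hv hw zero_le_one fun A => mk_nonneg hq.le hq1 A M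
    have hB : ∀ A : As V, GA v w 1 (fun B => |ss q (M ∩ (A ∪ B)) ^ 3 - ss q M ^ 3|) ≤
        (6 * ss q M ^ 2 + 6 * (c * ss q M)) * mk q A M + ss q M ^ 3 * una (M ∩ A) := by
      intro A
      have h1 := B2.GA_mono hv hw zero_le_one (fun B => H3d_point hq.le hq1 M A B)
      refine h1.trans ?_
      have e1 : GA v w 1 (fun B => 6 * ss q M ^ 2 * mk q A M + 6 * (mk q A M * mk q B M) +
          ss q M ^ 3 * una (M ∩ A)) = 6 * ss q M ^ 2 * mk q A M +
          (6 * mk q A M) * GA v w 1 (fun B => mk q B M) + ss q M ^ 3 * una (M ∩ A) := by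
        rw [B2.GA_add, B2.GA_const, B2.GA_add, B2.GA_const]
        congr 2
        rw [← B2.GA_mul]
        congr 1
        funext B
        ring
      rw [e1]
      have h2 : (6 * mk q A M) * GA v w 1 (fun B => mk q B M) ≤
          (6 * mk q A M) * (c * ss q M) :=
        mul_le_mul_of_nonneg_left hmk' (mul_nonneg (by norm_num) (mk_nonneg hq.le hq1 A M))
      nlinarith
    have h3 := B2.GA_mono hv hw zero_le_one hB
    refine h3.trans ?_
    rw [B2.GA_add, B2.GA_mul]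
    have h4 : (6 * ss q M ^ 2 + 6 * (c * ss q M)) * GA v w 1 (fun A => mk q A M) ≤
        (6 * ss q M ^ 2 + 6 * (c * ss q M)) * (c * ss q M) :=
      mul_le_mul_of_nonneg_left hmk' (by positivity)
    have h5 : (6 * ss q M ^ 2 + 6 * (c * ss q M)) * (c * ss q M) ≤
        (6 * c + 6 * c ^ 2) * ss q M ^ 2 := by
      have h6 : ss q M ^ 3 ≤ ss q M ^ 2 := by
        have := mul_le_mul_of_nonneg_left hs1 (sq_nonneg (ss q M))
        nlinarith
      have h7 : c * ss q M ^ 3 ≤ c * ss q M ^ 2 := mul_le_mul_of_nonneg_left h6 hc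
      nlinarith
    linarith

/-- **H3d** at one `k`, from `DH`. -/
theorem H3d_DH {q : ℝ} {N : ℕ} {x y K ε : ℝ} (H : DH q N x y K ε) :
    Br N x y (fun _ M => GA (Iv N x) (Iw N y) 1 fun A => GA (Iv N x) (Iw N y) 1 fun B =>
      |ss q (M ∩ (A ∪ B)) ^ 3 - ss q M ^ 3|) ≤ 600 * muq q * mm q N x y := by
  have hx := H.x0
  have hy := H.y0
  have hv : 0 ≤ Iv N x := B2.Iv_nonneg hx
  have hw : 0 ≤ Iw N y := B2.Iw_nonneg hy
  have hmu0 : 0 < muq q := D.muq_pos H.q0 H.q1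
  have hmu : muq q ≤ 1 / 2 := by nlinarith [H.K1, H.Kmu]
  have hm0 : 0 ≤ mm q N x y := B2.Br_nonneg hx hy fun n _ S => sq_nonneg _
  have key : Br N x y (fun _ M => GA (Iv N x) (Iw N y) 1 fun A =>
      GA (Iv N x) (Iw N y) 1 fun B => |ss q (M ∩ (A ∪ B)) ^ 3 - ss q M ^ 3|) ≤
      Br N x y (fun n M => (6 * (13 * muq q) + 6 * (13 * muq q) ^ 2) *
        (fun _ S => ss q S ^ 2 : (n : ℕ) → As (Fin n) → ℝ) n M +
        (fun _ M => GA (Iv N x) (Iw N y) 1
          (fun A => ss q M * una (M ∩ A)) : (n : ℕ) → As (Fin n) → ℝ) n M) := by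
    refine B2.Br_mono hx hy fun n hn S => ?_
    have hn1 := H.win n hn
    have : Nonempty (Fin n) := ⟨⟨0, hn1⟩⟩
    exact H3d_avg_gen H.q0 H.q1 hv hw (by positivity) S (H3e_Ba H hn S)
  refine key.trans ?_
  rw [B2.Br_add, B2.Br_mul]
  have e : Br N x y (fun _ S => ss q S ^ 2 : (n : ℕ) → As (Fin n) → ℝ) = mm q N x y := rfl
  rw [e]
  have h1 : Br N x y (fun _ M => GA (Iv N x) (Iw N y) 1
      (fun A => ss q M * una (M ∩ A)) : (n : ℕ) → As (Fin n) → ℝ) ≤ 14 * muq q * mm q N x y :=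
    H.D2a
  have h2 : (6 * (13 * muq q) + 6 * (13 * muq q) ^ 2) * mm q N x y ≤
      585 * muq q * mm q N x y := by
    refine mul_le_mul_of_nonneg_right ?_ hm0
    nlinarith
  nlinarith [mul_nonneg hmu0.le hm0]

end Pool.Agent.Lib.MP_9cae81_PC
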