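import Pool.Agent.Lib.MP_9cae81_PC.Mg.G015
import Pool.Agent.Lib.MP_9cae81_PC.Mg.G010

/-! The key theorem: below `2`-clause density `1`, and for `3`-clause densities slightly above
`2/3`, the model with independent clauses is satisfiable with probability tending to `1`. -/

open Finset Filter
open scoped BigOperators Topology

namespace Pool.Agent.Lib.MP_9cae81_PC

open Pool.Agent.Lib.MP_9cae81_R

theorem key : ∃ e0 : ℝ, 0 < e0 ∧ ∀ d : ℝ, 0 < d → d ≤ 1 / 10 →
    Tendsto (fun n : ℕ => ZZ n 0 (1 - d) (2 / 3 * (1 + e0))) atTop (𝓝 0) :=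
  key_of_blockC blockC

end Pool.Agent.Lib.MP_9cae81_PC
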