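import Pool.Agent.Lib.MP_9cae81_PC.Mg.G005
import Pool.Agent.Lib.MP_9cae81_PC.Mg.G012

/-! Two big pieces. -/

open Finset
open scoped BigOperators

namespace Pool.Agent.Lib.MP_9cae81_PC

open Pool.Agent.Lib.MP_9cae81_R

variable {L ι : Type} [Fintype L] [Nonempty L] [Fintype ι] [DecidableEq ι] (P : PF L ι)
variable {q : ι → ℝ} {c2 β ρ : ℝ}

omit [Fintype L] [Nonempty L] in
/-- A double sum of nonnegative terms dominates the double sum along an injective map. -/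
private theorem P4d_double (u : L → ι) (hu : Function.Injective u) (S : Finset L)
    (F : ι → ι → ℝ) (hF : ∀ c c', 0 ≤ F c c') :
    ∑ l ∈ S, ∑ l' ∈ S, F (u l) (u l') ≤ ∑ c, ∑ c', F c c' := by
  classical
  have h1 : ∑ l ∈ S, ∑ l' ∈ S, F (u l) (u l') =
      ∑ c ∈ S.image u, ∑ c' ∈ S.image u, F c c' := by
    rw [Finset.sum_image (fun a _ b _ h => hu h)]
    refine Finset.sum_congr rfl fun l _ => ?_
    rw [Finset.sum_image (fun a _ b _ h => hu h)]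
  rw [h1]
  calc ∑ c ∈ S.image u, ∑ c' ∈ S.image u, F c c'
      ≤ ∑ c ∈ S.image u, ∑ c', F c c' :=
        Finset.sum_le_sum fun c _ => Finset.sum_le_sum_of_subset_of_nonneg
          (Finset.subset_univ _) fun c' _ _ => hF c c'
    _ ≤ ∑ c, ∑ c', F c c' := Finset.sum_le_sum_of_subset_of_nonneg
          (Finset.subset_univ _) fun c _ _ => Finset.sum_nonneg fun c' _ => hF c c'

/-- `Av` of a nonnegative function dominates the normalised sum over a subset. -/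
private theorem P4d_av (S : Finset L) (f : L → ℝ) (hf : ∀ l, 0 ≤ f l) :
    (∑ l ∈ S, f l) / (Fintype.card L : ℝ) ≤ Av f := by
  unfold Av
  have : ∑ l ∈ S, f l ≤ ∑ l, f l :=
    Finset.sum_le_sum_of_subset_of_nonneg (Finset.subset_univ _) fun l _ _ => hf l
  gcongr

private theorem P4d_id (w K D j X κ s1 : ℝ) (hK : 0 < K) (h : w * K = κ) (hs : s1 = K * D) :
    w ^ 2 / K * (1 / 2) * (s1 ^ 3 - s1 * (K ^ 2 * j) - s1 * (K ^ 2 * (42025 * X)) - s1 ^ 2) =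
      κ ^ 2 / 2 * D ^ 3 - κ ^ 2 / 2 * (D * j) - κ ^ 2 / 2 * (D * (42025 * X)) -
        κ ^ 2 * (D ^ 2 * (1 / (2 * K))) := by
  subst hs
  subst h
  field_simp

/-- TWO BIG PIECES.  Keep the units with marks in `[t, 2t)` (they are big), spectator in `[t, 2t)`;
`q (u l) (1 - q (u l)) ≥ (1 - ρ) c2 / |L|`; `triple` (average over the three literals;
`∑ 1 = De³`, `∑ 1(bump of (l2,l1) > 0) ≤ De jt`, defect by `unit2_defect`, `l2 = l3` excluded in
the first configuration: `1 / |L| ≤ ρ / c2 ≤ 2 ρ`):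
`≥ ((1-ρ) c2)² (1/2) (De³ - De jt - 1025 * 41 Er/t^s - 2 ρ)` and `((1-ρ) c2)² ∈ [1/5, 1]`. -/
theorem two_big (hG : Gad P q c2 β ρ) (hc2 : 1 / 2 ≤ c2) (hc21 : c2 ≤ 1) (hβ : 0 ≤ β)
    (hc : c2 + β ≤ 11 / 5) (hρ : ρ ≤ 1 / 100) {t : ℝ} (ht : 0 < t) (s : ℝ) (hs : 0 < s)
    (hs1 : s ≤ 1) (Φ : Finset ι → Finset ι → ℝ)
    (hΦ : Φ = fun a b => Av fun y => ph t (P.dx a b) (P.d y) (P.rx a b y)) :
    (1 / 10) * P.De t ^ 3 - P.De t * P.jt t - 22000 * P.Er q s / t ^ s - ρ ≤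
      (1 / 2) * (∑ c, ∑ c', if P.D {c} < t / 1024 ∨ P.D {c'} < t / 1024 ∨ c = c' then 0 else
          q c * (1 - q c) * (q c' * (1 - q c')) * Φ ∅ {c, c'}) +
        ∑ c, ∑ c', if P.D {c} < t / 1024 ∨ P.D {c'} < t / 1024 then 0 else
          q c * (1 - q c) * (q c' * (1 - q c')) * Φ {c} {c'} := by
  classical
  -- basic quantities
  set K : ℝ := (Fintype.card L : ℝ) with hK
  have hK1 : 1 ≤ K := by
    rw [hK]; exact_mod_cast Fintype.card_pos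
  have hK0 : 0 < K := by linarith
  set S : Finset L := Finset.univ.filter (fun l => t ≤ P.d l ∧ P.d l < 2 * t) with hS
  have hSmem : ∀ l, l ∈ S ↔ (t ≤ P.d l ∧ P.d l < 2 * t) := by
    intro l; simp [hS]
  have hΦ0 : ∀ a b, 0 ≤ Φ a b := by
    intro a b
    rw [hΦ]
    show 0 ≤ Av fun y => ph t (P.dx a b) (P.d y) (P.rx a b y)
    unfold Av
    exact div_nonneg (Finset.sum_nonneg fun y _ => ph_nonneg _ _ _ _) hK0.le
  have hq0 := hG.nonneg
  have hq1 : ∀ c, q c ≤ 1 := fun c => (hG.small c).trans (by linarith)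
  have hw : ∀ c, 0 ≤ q c * (1 - q c) := fun c =>
    mul_nonneg (hq0 c) (by linarith [hq1 c])
  set w : ℝ := c2 / K * (1 - c2 / K) with hwdef
  have hquw : ∀ l, q (P.u l) * (1 - q (P.u l)) = w := by
    intro l; rw [hG.qu l]
  obtain ⟨l0⟩ := (inferInstance : Nonempty L)
  have hcK : c2 / K ≤ ρ := by
    have := hG.small (P.u l0)
    rwa [hG.qu l0] at this
  have hcK0 : 0 ≤ c2 / K := by positivity
  -- De, jt
  set s1 : ℝ := (S.card : ℝ) with hs1'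
  have hDe : P.De t = s1 / K := by
    unfold PF.De Av
    rw [hs1', hS, Finset.card_filter]
    push_cast
    rfl
  have hs10 : 0 ≤ s1 := by rw [hs1']; positivity
  have hs1K : s1 ≤ K := by
    rw [hs1', hK]
    exact_mod_cast Finset.card_le_univ S
  set J : L → L → ℝ := fun l2 l1 => if 0 < ph t (P.d l2) (P.d l1) (P.r l2 l1) then 1 else 0
    with hJ
  have hJ0 : ∀ a b, 0 ≤ J a b := by
    intro a b; rw [hJ]; dsimp only; split_ifs <;> norm_num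
  have hjt : (∑ l2, ∑ l1, J l2 l1) = K ^ 2 * P.jt t := by
    unfold PF.jt Av
    rw [← hK]
    rw [← Finset.sum_div]
    field_simp
    rfl
  set A : L → L → L → ℝ := fun l1 l2 l3 =>
    ph t (P.D {P.u l2, P.u l3}) (P.d l1) (P.M {P.u l2, P.u l3} {P.u l1}) with hA
  set B : L → L → L → ℝ := fun l1 l2 l3 =>
    ph t (P.d l1 - P.r l1 l2) (P.d l3) (P.M {P.u l1} {P.u l2, P.u l3} - P.r l1 l2) with hB
  set E : L → L → ℝ := fun l2 l3 => (1025 * P.e {P.u l2} (P.u l3) / t) ^ s with hE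
  have he0 : ∀ g p, 0 ≤ P.e g p := fun g p => abs_nonneg _
  have hE0 : ∀ a b, 0 ≤ E a b := by
    intro a b
    rw [hE]; dsimp only
    have := he0 {P.u a} (P.u b)
    positivity
  -- the triple inequality
  have htri : ∀ l1 ∈ S, ∀ l2 ∈ S, ∀ l3 ∈ S, 1 ≤ J l2 l1 + (A l1 l2 l3 + E l2 l3) + B l1 l2 l3 := by
    intro l1 h1 l2 h2 l3 h3
    have a1 := (hSmem l1).1 h1
    have a2 := (hSmem l2).1 h2
    have a3 := (hSmem l3).1 h3
    exact triple P ht s hs hs1 l1 l2 l3 a1.1 a1.2 a2.1 a2.2 a3.1 a3.2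
  have hsum : s1 ^ 3 ≤ (∑ l1 ∈ S, ∑ l2 ∈ S, ∑ l3 ∈ S, J l2 l1) +
      ((∑ l1 ∈ S, ∑ l2 ∈ S, ∑ l3 ∈ S, A l1 l2 l3) + (∑ l1 ∈ S, ∑ l2 ∈ S, ∑ l3 ∈ S, E l2 l3)) +
      (∑ l1 ∈ S, ∑ l2 ∈ S, ∑ l3 ∈ S, B l1 l2 l3) := by
    have h : ∑ l1 ∈ S, ∑ l2 ∈ S, ∑ l3 ∈ S, (1 : ℝ) ≤
        ∑ l1 ∈ S, ∑ l2 ∈ S, ∑ l3 ∈ S, (J l2 l1 + (A l1 l2 l3 + E l2 l3) + B l1 l2 l3) :=
      Finset.sum_le_sum fun l1 h1 => Finset.sum_le_sum fun l2 h2 =>
        Finset.sum_le_sum fun l3 h3 => htri l1 h1 l2 h2 l3 h3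
    simp only [Finset.sum_add_distrib] at h
    simp only [Finset.sum_const, nsmul_eq_mul, mul_one] at h ⊢
    calc s1 ^ 3 = (S.card : ℝ) * ((S.card : ℝ) * (S.card : ℝ)) := by rw [hs1']; ring
      _ ≤ _ := h
  -- the J part
  have hJpart : ∑ l1 ∈ S, ∑ l2 ∈ S, ∑ l3 ∈ S, J l2 l1 ≤ s1 * (K ^ 2 * P.jt t) := by
    simp only [Finset.sum_const, nsmul_eq_mul]
    simp only [← Finset.mul_sum]
    rw [← hs1', ← hjt]
    refine mul_le_mul_of_nonneg_left ?_ hs10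
    rw [Finset.sum_comm]
    calc ∑ l2 ∈ S, ∑ l1 ∈ S, J l2 l1 ≤ ∑ l2 ∈ S, ∑ l1, J l2 l1 :=
          Finset.sum_le_sum fun l2 _ => Finset.sum_le_sum_of_subset_of_nonneg
            (Finset.subset_univ _) fun l1 _ _ => hJ0 l2 l1
      _ ≤ ∑ l2, ∑ l1, J l2 l1 := Finset.sum_le_sum_of_subset_of_nonneg
            (Finset.subset_univ _) fun l2 _ _ => Finset.sum_nonneg fun l1 _ => hJ0 l2 l1
  -- the defect part
  have hEr0 : 0 ≤ P.Er q s := by
    unfold PF.Er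
    refine Finset.sum_nonneg fun p _ => mul_nonneg (hq0 p) (EE_nonneg hq0 fun g => ?_)
    exact Real.rpow_nonneg (he0 g p) s
  have htp : 0 < t ^ s := Real.rpow_pos_of_pos ht s
  have hEtot : ∑ l2, ∑ l3, E l2 l3 ≤ K ^ 2 * (42025 * (P.Er q s / t ^ s)) := by
    have h1 : ∑ l2, ∑ l3, E l2 l3 =
        (1025 : ℝ) ^ s / t ^ s * (∑ l2, ∑ l3, (P.e {P.u l2} (P.u l3)) ^ s) := by
      rw [Finset.mul_sum]
      refine Finset.sum_congr rfl fun l2 _ => ?_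
      rw [Finset.mul_sum]
      refine Finset.sum_congr rfl fun l3 _ => ?_
      rw [hE]; dsimp only
      rw [Real.div_rpow (mul_nonneg (by norm_num) (he0 _ _)) ht.le,
        Real.mul_rpow (by norm_num) (he0 _ _)]
      ring
    have h2 : ∑ l2, ∑ l3, (P.e {P.u l2} (P.u l3)) ^ s =
        K ^ 2 * Av (fun l => Av fun l' => (P.e {P.u l} (P.u l')) ^ s) := by
      unfold Av
      rw [← hK, ← Finset.sum_div]
      field_simp
    have h3 := unit2_defect P hG hc2 hβ hc hρ s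
    have h4 : (1025 : ℝ) ^ s ≤ 1025 := by
      calc (1025 : ℝ) ^ s ≤ (1025 : ℝ) ^ (1 : ℝ) :=
            Real.rpow_le_rpow_of_exponent_le (by norm_num) hs1
        _ = 1025 := Real.rpow_one _
    rw [h1, h2]
    calc (1025 : ℝ) ^ s / t ^ s * (K ^ 2 * Av (fun l => Av fun l' => (P.e {P.u l} (P.u l')) ^ s))
        ≤ 1025 / t ^ s * (K ^ 2 * (41 * P.Er q s)) := by
          have h5 : (1025 : ℝ) ^ s / t ^ s ≤ 1025 / t ^ s := by gcongr
          have h6 : K ^ 2 * Av (fun l => Av fun l' => (P.e {P.u l} (P.u l')) ^ s) ≤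
              K ^ 2 * (41 * P.Er q s) := by gcongr
          have h7 : 0 ≤ 1025 / t ^ s := by positivity
          have h8 : 0 ≤ K ^ 2 * Av (fun l => Av fun l' => (P.e {P.u l} (P.u l')) ^ s) := by
            rw [← h2]
            exact Finset.sum_nonneg fun _ _ => Finset.sum_nonneg fun _ _ =>
              Real.rpow_nonneg (he0 _ _) s
          exact mul_le_mul h5 h6 h8 h7
      _ = K ^ 2 * (42025 * (P.Er q s / t ^ s)) := by ring
  have hEpart : ∑ l1 ∈ S, ∑ l2 ∈ S, ∑ l3 ∈ S, E l2 l3 ≤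
      s1 * (K ^ 2 * (42025 * (P.Er q s / t ^ s))) := by
    rw [Finset.sum_const, nsmul_eq_mul, ← hs1']
    refine mul_le_mul_of_nonneg_left (le_trans ?_ hEtot) hs10
    calc ∑ l2 ∈ S, ∑ l3 ∈ S, E l2 l3 ≤ ∑ l2 ∈ S, ∑ l3, E l2 l3 :=
          Finset.sum_le_sum fun l2 _ => Finset.sum_le_sum_of_subset_of_nonneg
            (Finset.subset_univ _) fun l3 _ _ => hE0 l2 l3
      _ ≤ ∑ l2, ∑ l3, E l2 l3 := Finset.sum_le_sum_of_subset_of_nonneg
            (Finset.subset_univ _) fun l2 _ _ => Finset.sum_nonneg fun l3 _ => hE0 l2 l3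
  -- removing the diagonal of the first configuration
  have hA1 : ∀ l1 l2 l3, A l1 l2 l3 ≤ 1 := fun l1 l2 l3 => ph_le_one _ _ _ _
  have hA0 : ∀ l1 l2 l3, 0 ≤ A l1 l2 l3 := fun l1 l2 l3 => ph_nonneg _ _ _ _
  have hB0 : ∀ l1 l2 l3, 0 ≤ B l1 l2 l3 := fun l1 l2 l3 => ph_nonneg _ _ _ _
  have hApart : ∑ l1 ∈ S, ∑ l2 ∈ S, ∑ l3 ∈ S, A l1 l2 l3 ≤
      (∑ l1 ∈ S, ∑ l2 ∈ S, ∑ l3 ∈ S, if l2 = l3 then 0 else A l1 l2 l3) + s1 ^ 2 := by
    have h1 : ∀ l1 ∈ S, ∀ l2 ∈ S, ∑ l3 ∈ S, A l1 l2 l3 ≤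
        (∑ l3 ∈ S, if l2 = l3 then 0 else A l1 l2 l3) + 1 := by
      intro l1 _ l2 h2
      have h3 : ∀ l3 ∈ S, A l1 l2 l3 ≤ (if l2 = l3 then 0 else A l1 l2 l3) +
          (if l2 = l3 then 1 else 0) := by
        intro l3 _
        by_cases h : l2 = l3
        · rw [if_pos h, if_pos h, zero_add]; exact hA1 _ _ _
        · rw [if_neg h, if_neg h, add_zero]
      calc ∑ l3 ∈ S, A l1 l2 l3 ≤ ∑ l3 ∈ S, ((if l2 = l3 then 0 else A l1 l2 l3) +
          (if l2 = l3 then 1 else 0)) := Finset.sum_le_sum h3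
        _ = (∑ l3 ∈ S, if l2 = l3 then 0 else A l1 l2 l3) + 1 := by
          rw [Finset.sum_add_distrib]
          congr 1
          rw [Finset.sum_ite_eq]
          simp [h2]
    calc ∑ l1 ∈ S, ∑ l2 ∈ S, ∑ l3 ∈ S, A l1 l2 l3
        ≤ ∑ l1 ∈ S, ∑ l2 ∈ S, ((∑ l3 ∈ S, if l2 = l3 then 0 else A l1 l2 l3) + 1) :=
          Finset.sum_le_sum fun l1 h1' => Finset.sum_le_sum fun l2 h2' => h1 l1 h1' l2 h2'
      _ = (∑ l1 ∈ S, ∑ l2 ∈ S, ∑ l3 ∈ S, if l2 = l3 then 0 else A l1 l2 l3) + s1 ^ 2 := by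
          simp only [Finset.sum_add_distrib, Finset.sum_const, nsmul_eq_mul, mul_one]
          rw [hs1']; ring
  -- lower bounds of the two sums
  have hw0 : 0 ≤ w := by rw [← hquw l0]; exact hw _
  have hlow : ∀ l ∈ S, ¬ P.D {P.u l} < t / 1024 := by
    intro l hl
    have h1 := ((hSmem l).1 hl).1
    have h2 : P.D {P.u l} = P.d l := rfl
    rw [h2, not_lt]
    linarith
  have hfirst : w ^ 2 / K * (∑ l1 ∈ S, ∑ l2 ∈ S, ∑ l3 ∈ S, if l2 = l3 then 0 else A l1 l2 l3) ≤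
      ∑ c, ∑ c', if P.D {c} < t / 1024 ∨ P.D {c'} < t / 1024 ∨ c = c' then 0 else
          q c * (1 - q c) * (q c' * (1 - q c')) * Φ ∅ {c, c'} := by
    have h1 := P4d_double P.u P.u_inj S (fun c c' =>
      if P.D {c} < t / 1024 ∨ P.D {c'} < t / 1024 ∨ c = c' then 0 else
          q c * (1 - q c) * (q c' * (1 - q c')) * Φ ∅ {c, c'}) (by
        intro c c'
        split_ifs
        · exact le_refl _
        · exact mul_nonneg (mul_nonneg (hw c) (hw c')) (hΦ0 _ _))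
    refine le_trans ?_ h1
    have h2 : ∑ l1 ∈ S, ∑ l2 ∈ S, ∑ l3 ∈ S, (if l2 = l3 then 0 else A l1 l2 l3) =
        ∑ l2 ∈ S, ∑ l3 ∈ S, ∑ l1 ∈ S, (if l2 = l3 then 0 else A l1 l2 l3) := by
      rw [Finset.sum_comm]
      refine Finset.sum_congr rfl fun l2 _ => ?_
      rw [Finset.sum_comm]
    rw [h2, Finset.mul_sum]
    refine Finset.sum_le_sum fun l2 h2' => ?_
    rw [Finset.mul_sum]
    refine Finset.sum_le_sum fun l3 h3' => ?_
    by_cases h : l2 = l3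
    · simp [h]
    · have hne : P.u l2 ≠ P.u l3 := fun h' => h (P.u_inj h')
      rw [if_neg (by
        rintro (h' | h' | h')
        · exact hlow l2 h2' h'
        · exact hlow l3 h3' h'
        · exact hne h')]
      rw [hquw, hquw]
      have h4 : (∑ l1 ∈ S, A l1 l2 l3) / K ≤ Φ ∅ {P.u l2, P.u l3} := by
        rw [hΦ]
        have h5 := P4d_av S (fun y => ph t (P.dx ∅ {P.u l2, P.u l3}) (P.d y)
          (P.rx ∅ {P.u l2, P.u l3} y)) (fun y => ph_nonneg _ _ _ _)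
        refine le_trans (le_of_eq ?_) h5
        congr 1
        refine Finset.sum_congr rfl fun l1 _ => ?_
        show ph t (P.D {P.u l2, P.u l3}) (P.d l1) (P.M {P.u l2, P.u l3} {P.u l1}) = _
        rw [dx_empty, rx_empty]
      have h6 : ∑ l1 ∈ S, (if l2 = l3 then 0 else A l1 l2 l3) = ∑ l1 ∈ S, A l1 l2 l3 :=
        Finset.sum_congr rfl fun l1 _ => if_neg h
      rw [h6]
      calc w ^ 2 / K * ∑ l1 ∈ S, A l1 l2 l3 = w * w * ((∑ l1 ∈ S, A l1 l2 l3) / K) := by ring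
        _ ≤ w * w * Φ ∅ {P.u l2, P.u l3} := mul_le_mul_of_nonneg_left h4 (mul_nonneg hw0 hw0)
  have hsecond : w ^ 2 / K * (∑ l1 ∈ S, ∑ l2 ∈ S, ∑ l3 ∈ S, B l1 l2 l3) ≤
      ∑ c, ∑ c', if P.D {c} < t / 1024 ∨ P.D {c'} < t / 1024 then 0 else
          q c * (1 - q c) * (q c' * (1 - q c')) * Φ {c} {c'} := by
    have h1 := P4d_double P.u P.u_inj S (fun c c' =>
      if P.D {c} < t / 1024 ∨ P.D {c'} < t / 1024 then 0 else
          q c * (1 - q c) * (q c' * (1 - q c')) * Φ {c} {c'}) (by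
        intro c c'
        split_ifs
        · exact le_refl _
        · exact mul_nonneg (mul_nonneg (hw c) (hw c')) (hΦ0 _ _))
    refine le_trans ?_ h1
    have h2 : ∑ l1 ∈ S, ∑ l2 ∈ S, ∑ l3 ∈ S, B l1 l2 l3 =
        ∑ l2 ∈ S, ∑ l1 ∈ S, ∑ l3 ∈ S, B l1 l2 l3 := Finset.sum_comm
    rw [h2, Finset.mul_sum]
    refine Finset.sum_le_sum fun l2 h2' => ?_
    rw [Finset.mul_sum]
    refine Finset.sum_le_sum fun l1 h1' => ?_
    rw [if_neg (by
      rintro (h' | h')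
      · exact hlow l2 h2' h'
      · exact hlow l1 h1' h')]
    rw [hquw, hquw]
    have h4 : (∑ l3 ∈ S, B l1 l2 l3) / K ≤ Φ {P.u l2} {P.u l1} := by
      rw [hΦ]
      have h5 := P4d_av S (fun y => ph t (P.dx {P.u l2} {P.u l1}) (P.d y)
        (P.rx {P.u l2} {P.u l1} y)) (fun y => ph_nonneg _ _ _ _)
      refine le_trans (le_of_eq ?_) h5
      congr 1
      refine Finset.sum_congr rfl fun l3 _ => ?_
      show ph t (P.d l1 - P.r l1 l2) (P.d l3) (P.M {P.u l1} {P.u l2, P.u l3} - P.r l1 l2) = _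
      rw [dx_single, rx_single]
    calc w ^ 2 / K * ∑ l3 ∈ S, B l1 l2 l3 = w * w * ((∑ l3 ∈ S, B l1 l2 l3) / K) := by ring
      _ ≤ w * w * Φ {P.u l2} {P.u l1} := mul_le_mul_of_nonneg_left h4 (mul_nonneg hw0 hw0)
  -- assembly
  set TA : ℝ := ∑ l1 ∈ S, ∑ l2 ∈ S, ∑ l3 ∈ S, (if l2 = l3 then 0 else A l1 l2 l3) with hTA
  set TB : ℝ := ∑ l1 ∈ S, ∑ l2 ∈ S, ∑ l3 ∈ S, B l1 l2 l3 with hTB
  have hTB0 : 0 ≤ TB := Finset.sum_nonneg fun _ _ => Finset.sum_nonneg fun _ _ =>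
    Finset.sum_nonneg fun _ _ => hB0 _ _ _
  have hTlow : s1 ^ 3 - s1 * (K ^ 2 * P.jt t) - s1 * (K ^ 2 * (42025 * (P.Er q s / t ^ s))) -
      s1 ^ 2 ≤ TA + TB := by linarith
  set D : ℝ := P.De t with hD
  set X : ℝ := P.Er q s / t ^ s with hX
  have hX0 : 0 ≤ X := by rw [hX]; positivity
  have hs1D : s1 = K * D := by
    have h : D * K = s1 := by rw [hDe]; exact div_mul_cancel₀ _ hK0.ne'
    linarith
  have hD0 : 0 ≤ D := by rw [hDe]; exact div_nonneg hs10 hK0.le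
  have hD1 : D ≤ 1 := by rw [hDe, div_le_one hK0]; exact hs1K
  have hj0 : 0 ≤ P.jt t := by
    have h : 0 ≤ K ^ 2 * P.jt t := by
      rw [← hjt]
      exact Finset.sum_nonneg fun _ _ => Finset.sum_nonneg fun _ _ => hJ0 _ _
    exact nonneg_of_mul_nonneg_right h (by positivity)
  -- `κ = w K`
  set κ : ℝ := c2 * (1 - c2 / K) with hκ
  have hwκ : w * K = κ := by rw [hwdef, hκ]; field_simp
  have hκ1 : κ ≤ 1 := by
    rw [hκ]
    have h1 : 1 - c2 / K ≤ 1 := by linarith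
    have h2 : 0 ≤ 1 - c2 / K := by linarith
    calc c2 * (1 - c2 / K) ≤ 1 * 1 := mul_le_mul hc21 h1 h2 (by norm_num)
      _ = 1 := by norm_num
  have hκlow : 495 / 1000 ≤ κ := by
    rw [hκ]
    have h2 : 99 / 100 ≤ 1 - c2 / K := by linarith
    calc (495 / 1000 : ℝ) = 1 / 2 * (99 / 100) := by norm_num
      _ ≤ c2 * (1 - c2 / K) := mul_le_mul hc2 h2 (by norm_num) (by linarith)
  have hKρ : 1 / (2 * K) ≤ ρ := by
    have h1 : 1 / (2 * K) ≤ c2 / K := by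
      rw [div_le_div_iff₀ (by positivity) hK0]
      nlinarith
    linarith
  have hmain : w ^ 2 / K * (1 / 2) * (TA + TB) ≤
      (1 / 2) * (∑ c, ∑ c', if P.D {c} < t / 1024 ∨ P.D {c'} < t / 1024 ∨ c = c' then 0 else
          q c * (1 - q c) * (q c' * (1 - q c')) * Φ ∅ {c, c'}) +
        ∑ c, ∑ c', if P.D {c} < t / 1024 ∨ P.D {c'} < t / 1024 then 0 else
          q c * (1 - q c) * (q c' * (1 - q c')) * Φ {c} {c'} := by
    have h1 : 0 ≤ w ^ 2 / K * TB := by positivity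
    have h2 : w ^ 2 / K * (1 / 2) * (TA + TB) =
        (1 / 2) * (w ^ 2 / K * TA) + (1 / 2) * (w ^ 2 / K * TB) := by ring
    rw [h2]
    linarith
  refine le_trans ?_ hmain
  have hstep : w ^ 2 / K * (1 / 2) * (s1 ^ 3 - s1 * (K ^ 2 * P.jt t) -
      s1 * (K ^ 2 * (42025 * X)) - s1 ^ 2) ≤ w ^ 2 / K * (1 / 2) * (TA + TB) :=
    mul_le_mul_of_nonneg_left hTlow (by positivity)
  refine le_trans ?_ hstep
  have hid : w ^ 2 / K * (1 / 2) * (s1 ^ 3 - s1 * (K ^ 2 * P.jt t) -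
      s1 * (K ^ 2 * (42025 * X)) - s1 ^ 2) =
      κ ^ 2 / 2 * D ^ 3 - κ ^ 2 / 2 * (D * P.jt t) - κ ^ 2 / 2 * (D * (42025 * X)) -
        κ ^ 2 * (D ^ 2 * (1 / (2 * K))) := by
    exact P4d_id w K D (P.jt t) X κ s1 hK0 hwκ hs1D
  rw [hid]
  have hκ2 : 1 / 10 ≤ κ ^ 2 / 2 := by nlinarith
  have hκ3 : κ ^ 2 / 2 ≤ 1 / 2 := by nlinarith
  have hκ4 : κ ^ 2 ≤ 1 := by nlinarith
  have hκ5 : 0 ≤ κ ^ 2 := by positivity
  have t1 : 1 / 10 * D ^ 3 ≤ κ ^ 2 / 2 * D ^ 3 :=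
    mul_le_mul_of_nonneg_right hκ2 (by positivity)
  have t2 : κ ^ 2 / 2 * (D * P.jt t) ≤ 1 * (D * P.jt t) :=
    mul_le_mul_of_nonneg_right (by linarith) (by positivity)
  have t3 : κ ^ 2 / 2 * (D * (42025 * X)) ≤ 1 / 2 * (1 * (42025 * X)) := by
    have h1 : D * (42025 * X) ≤ 1 * (42025 * X) :=
      mul_le_mul_of_nonneg_right hD1 (by positivity)
    exact mul_le_mul hκ3 h1 (by positivity) (by norm_num)
  have t4 : κ ^ 2 * (D ^ 2 * (1 / (2 * K))) ≤ 1 * (1 * ρ) := by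
    have h1 : D ^ 2 ≤ 1 := by nlinarith
    have h2 : D ^ 2 * (1 / (2 * K)) ≤ 1 * ρ := mul_le_mul h1 hKρ (by positivity) (by norm_num)
    exact mul_le_mul hκ4 h2 (by positivity) (by norm_num)
  have t5 : 22000 * P.Er q s / t ^ s = 22000 * X := by rw [hX]; ring
  rw [t5]
  linarith

end Pool.Agent.Lib.MP_9cae81_PC
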