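import Pool.Agent.Lib.MP_9cae81_PC.Mg.G005
import Pool.Agent.Lib.MP_9cae81_PC.Mg.G013
import Pool.Agent.Lib.MP_9cae81_PC.P4d

/-! The J-lemma. -/

open Finset
open scoped BigOperators

namespace Pool.Agent.Lib.MP_9cae81_PC

open Pool.Agent.Lib.MP_9cae81_R

theorem P4e_Av_mono {L : Type} [Fintype L] {f g : L → ℝ} (h : ∀ l, f l ≤ g l) : Av f ≤ Av g := by
  unfold Av
  exact div_le_div_of_nonneg_right (Finset.sum_le_sum fun l _ => h l) (Nat.cast_nonneg _)

theorem P4e_Av_nonneg {L : Type} [Fintype L] {f : L → ℝ} (h : ∀ l, 0 ≤ f l) : 0 ≤ Av f := by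
  unfold Av
  exact div_nonneg (Finset.sum_nonneg fun l _ => h l) (Nat.cast_nonneg _)

theorem P4e_Av_const {L : Type} [Fintype L] [Nonempty L] (c : ℝ) : Av (fun _ : L => c) = c := by
  unfold Av
  have : (Fintype.card L : ℝ) ≠ 0 := Nat.cast_ne_zero.2 Fintype.card_ne_zero
  simp [Finset.sum_const, nsmul_eq_mul, this]

variable {L ι : Type} [Fintype L] [Nonempty L] [Fintype ι] [DecidableEq ι] (P : PF L ι)
variable {q : ι → ℝ} {c2 β ρ : ℝ}

/-- THE J-LEMMA, every scale `t > 0`.  `split_lb` with `sm c = (D {c} < t/1024)`,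
`Φ a b = Av_y ph t (dx a b) (d y) (rx a b y)`, so `E2 q Φ = Nt`.  With `λ = ∑ big ≤ 2253 h`:
`exp(-22/5) two_big ≤ Nt - exp(-2λ) one_big ≤ (Nt - Gt) + (1 - exp(-2λ)(1-ρ)(1-δ')) Gt + ...`,
`1 - exp(-2λ)(1-ρ)(1-δ') ≤ 2λ + ρ + δ'`, `Gt ≤ jt ≤ 1`, `De ≤ h`, `exp(-22/5)/10 ≥ 1/1000`. -/
theorem jlemma (hG : Gad P q c2 β ρ) (hc2 : 1 / 2 ≤ c2) (hc21 : c2 ≤ 1) (hβ : 0 ≤ β)
    (hc : c2 + β ≤ 11 / 5) (hρ : ρ ≤ 1 / 100) (hρ0 : 0 ≤ ρ) {δ' : ℝ} (hδ : 1 - δ' ≤ c2)
    (hδ1 : δ' ≤ 1) {t : ℝ} (ht : 0 < t) (s : ℝ) (hs : 0 < s) (hs1 : s ≤ 1) :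
    (1 / 1000) * P.De t ^ 3 ≤ (δ' + 15000 * P.hh t) * P.jt t + (P.Nt q t - P.Gt t) +
      200000 * P.Er q s / t ^ s + 2 * ρ := by
  classical
  have hd0 : ∀ l, 0 ≤ P.d l := fun l => P.D_nonneg {P.u l}
  have hh0 : 0 ≤ P.hh t := by
    unfold PF.hh
    exact div_nonneg (P4e_Av_nonneg fun l => le_min (hd0 l) ht.le) ht.le
  have hG0 : 0 ≤ P.Gt t := by
    unfold PF.Gt
    exact P4e_Av_nonneg fun l => P4e_Av_nonneg fun y => ph_nonneg _ _ _ _
  have hGj : P.Gt t ≤ P.jt t := by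
    unfold PF.Gt PF.jt
    refine P4e_Av_mono fun l => P4e_Av_mono fun y => ?_
    split_ifs with h
    · exact ph_le_one _ _ _ _
    · exact not_lt.1 h
  have hj0 : 0 ≤ P.jt t := hG0.trans hGj
  have hj1 : P.jt t ≤ 1 := by
    unfold PF.jt
    calc _ ≤ Av (fun _ : L => Av fun _ : L => (1 : ℝ)) := by
          refine P4e_Av_mono fun l => P4e_Av_mono fun y => ?_
          split_ifs <;> norm_num
      _ = 1 := by rw [P4e_Av_const, P4e_Av_const]
  have hDe0 : 0 ≤ P.De t := by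
    unfold PF.De
    refine P4e_Av_nonneg fun l => ?_
    split_ifs <;> norm_num
  have hDe := De_le P ht
  have hE0 : 0 ≤ P.Er q s := by
    unfold PF.Er
    refine Finset.sum_nonneg fun p _ => mul_nonneg (hG.nonneg p) ?_
    exact EE_nonneg hG.nonneg fun g => Real.rpow_nonneg (abs_nonneg _) _
  have hts : 0 < t ^ s := Real.rpow_pos_of_pos ht s
  obtain ⟨E, hE⟩ : ∃ E, E = P.Er q s / t ^ s := ⟨_, rfl⟩
  have hEnn : 0 ≤ E := hE ▸ div_nonneg hE0 hts.le
  have hq1 : ∀ c, q c ≤ 1 := fun c => (hG.small c).trans (by linarith)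
  have hsplit := split_lb q hG.nonneg hq1 (fun c => P.D {c} < t / 1024)
    (fun a b => Av fun y => ph t (P.dx a b) (P.d y) (P.rx a b y))
    (fun a b => P4e_Av_nonneg fun y => ph_nonneg _ _ _ _)
  have hone := one_big P hG hc2 hc21 hβ hc hρ ht s hs hs1
  have htwo := two_big P hG hc2 hc21 hβ hc hρ ht s hs hs1 _ rfl
  have hbig := big_mass P hG (by linarith) hβ hc ht
  have hNt : E2 q (fun a b => Av fun y => ph t (P.dx a b) (P.d y) (P.rx a b y)) = P.Nt q t := rfl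
  rw [hNt] at hsplit
  have hS : ∑ c, q c = c2 + β := by
    have := hG.law (fun _ => 1)
    simp only [mul_one, P4e_Av_const] at this
    exact this
  set Lam : ℝ := ∑ c, (if P.D {c} < t / 1024 then 0 else q c) with hLam
  have hLam0 : 0 ≤ Lam := Finset.sum_nonneg fun c _ => by
    split_ifs
    · exact le_refl _
    · exact hG.nonneg c
  rw [hS] at hsplit
  set A1 := EE (fun c => if P.D {c} < t / 1024 then q c else 0) (fun a =>
        EE (fun c => if P.D {c} < t / 1024 then q c else 0) (fun b =>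
          ∑ c, (if P.D {c} < t / 1024 then 0 else q c * (1 - q c)) *
            Av fun y => ph t (P.dx a (insert c b)) (P.d y) (P.rx a (insert c b) y))) with hA1
  set B1 := (1 / 2) * (∑ c, ∑ c', if P.D {c} < t / 1024 ∨ P.D {c'} < t / 1024 ∨ c = c' then 0 else
          q c * (1 - q c) * (q c' * (1 - q c')) *
            (fun a b => Av fun y => ph t (P.dx a b) (P.d y) (P.rx a b y)) ∅ {c, c'}) +
        ∑ c, ∑ c', (if P.D {c} < t / 1024 ∨ P.D {c'} < t / 1024 then 0 else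
          q c * (1 - q c) * (q c' * (1 - q c')) *
            (fun a b => Av fun y => ph t (P.dx a b) (P.d y) (P.rx a b y)) {c} {c'}) with hB1
  have hsplit' : Real.exp (-(2 * Lam)) * A1 + Real.exp (-(2 * (c2 + β))) * B1 ≤ P.Nt q t := hsplit
  have e1 : 110000 * P.Er q s / t ^ s = 110000 * E := by rw [hE]; ring
  have e2 : 22000 * P.Er q s / t ^ s = 22000 * E := by rw [hE]; ring
  have e3 : 200000 * P.Er q s / t ^ s = 200000 * E := by rw [hE]; ring
  rw [e1] at hone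
  rw [e2] at htwo
  rw [e3]
  -- exponentials
  have x0 : 0 < Real.exp (-(2 * Lam)) := Real.exp_pos _
  have x1 : Real.exp (-(2 * Lam)) ≤ 1 := Real.exp_le_one_iff.2 (by linarith)
  have x2 : 1 - 2 * Lam ≤ Real.exp (-(2 * Lam)) := by
    have := Real.add_one_le_exp (-(2 * Lam)); linarith
  have y1 : Real.exp (-(2 * (c2 + β))) ≤ 1 := Real.exp_le_one_iff.2 (by linarith)
  have y2 : (1 : ℝ) / 100 ≤ Real.exp (-(2 * (c2 + β))) := by
    have h1 : Real.exp (-(22 / 5 : ℝ)) ≤ Real.exp (-(2 * (c2 + β))) :=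
      Real.exp_le_exp.2 (by linarith)
    have h2 : Real.exp (22 / 5 : ℝ) ≤ 100 := by
      have h3 : Real.exp 1 ≤ 2.7182818286 := Real.exp_one_lt_d9.le
      have h4 : Real.exp (22 / 5 : ℝ) = (Real.exp (1 / 5)) ^ 22 := by
        rw [← Real.exp_nat_mul]; norm_num
      have h5 : (Real.exp (1 / 5)) ^ 5 = Real.exp 1 := by
        rw [← Real.exp_nat_mul]; norm_num
      have h6 : Real.exp (1 / 5) ≤ 1.2216 := by
        by_contra hcon
        push Not at hcon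
        have : (1.2216 : ℝ) ^ 5 < (Real.exp (1 / 5)) ^ 5 :=
          pow_lt_pow_left₀ hcon (by norm_num) (by norm_num)
        rw [h5] at this
        norm_num at this
        linarith
      rw [h4]
      calc (Real.exp (1 / 5)) ^ 22 ≤ (1.2216 : ℝ) ^ 22 :=
            pow_le_pow_left₀ (Real.exp_pos _).le h6 22
        _ ≤ 100 := by norm_num
    have h3 : Real.exp (-(22 / 5 : ℝ)) = (Real.exp (22 / 5))⁻¹ := Real.exp_neg _
    have h4 : (1 : ℝ) / 100 ≤ (Real.exp (22 / 5 : ℝ))⁻¹ := by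
      rw [one_div]
      exact inv_anti₀ (Real.exp_pos _) h2
    linarith
  -- one big piece
  have hX0 : 0 ≤ (1 - ρ) * c2 * P.Gt t := by
    have : 0 ≤ 1 - ρ := by linarith
    have : 0 ≤ c2 := by linarith
    positivity
  have hX1 : (1 - ρ) * c2 * P.Gt t ≤ P.Gt t := by
    have h1 : (1 - ρ) * c2 ≤ 1 := by nlinarith
    nlinarith
  have hX2 : (1 - ρ - δ') * P.Gt t ≤ (1 - ρ) * c2 * P.Gt t := by
    have h1 : 1 - ρ - δ' ≤ (1 - ρ) * c2 := by nlinarith
    exact mul_le_mul_of_nonneg_right h1 hG0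
  have k1 : P.Gt t - (ρ + δ' + 2 * Lam) * P.Gt t -
      (9020 * P.hh t * P.jt t + 110000 * E) ≤ Real.exp (-(2 * Lam)) * A1 := by
    have h1 : Real.exp (-(2 * Lam)) * ((1 - ρ) * c2 * P.Gt t - 9020 * P.hh t * P.jt t -
        110000 * E) ≤ Real.exp (-(2 * Lam)) * A1 := mul_le_mul_of_nonneg_left hone x0.le
    have hY : 0 ≤ 9020 * P.hh t * P.jt t + 110000 * E := by positivity
    have h2 : Real.exp (-(2 * Lam)) * (9020 * P.hh t * P.jt t + 110000 * E) ≤
        9020 * P.hh t * P.jt t + 110000 * E := by nlinarith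
    have h3 : (1 - 2 * Lam) * ((1 - ρ) * c2 * P.Gt t) ≤
        Real.exp (-(2 * Lam)) * ((1 - ρ) * c2 * P.Gt t) := mul_le_mul_of_nonneg_right x2 hX0
    have h4 : 2 * Lam * ((1 - ρ) * c2 * P.Gt t) ≤ 2 * Lam * P.Gt t :=
      mul_le_mul_of_nonneg_left hX1 (by linarith)
    nlinarith
  -- two big pieces
  have k2 : (1 / 1000) * P.De t ^ 3 - (P.De t * P.jt t + 22000 * E + ρ) ≤
      Real.exp (-(2 * (c2 + β))) * B1 := by
    have h1 : Real.exp (-(2 * (c2 + β))) * ((1 / 10) * P.De t ^ 3 - P.De t * P.jt t -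
        22000 * E - ρ) ≤ Real.exp (-(2 * (c2 + β))) * B1 :=
      mul_le_mul_of_nonneg_left htwo (Real.exp_pos _).le
    have hV : 0 ≤ P.De t * P.jt t + 22000 * E + ρ := by positivity
    have h2 : Real.exp (-(2 * (c2 + β))) * (P.De t * P.jt t + 22000 * E + ρ) ≤
        P.De t * P.jt t + 22000 * E + ρ := by
      have := mul_le_mul_of_nonneg_right y1 hV
      linarith
    have hU : 0 ≤ (1 / 10) * P.De t ^ 3 := by positivity
    have h3 : (1 / 100) * ((1 / 10) * P.De t ^ 3) ≤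
        Real.exp (-(2 * (c2 + β))) * ((1 / 10) * P.De t ^ 3) := mul_le_mul_of_nonneg_right y2 hU
    nlinarith
  -- collect
  have c1 : (ρ + δ' + 2 * Lam) * P.Gt t ≤ (ρ + δ' + 2 * Lam) * P.jt t := by
    have hδ0 : 0 ≤ δ' := by linarith
    exact mul_le_mul_of_nonneg_left hGj (by positivity)
  have c3 : 2 * Lam * P.jt t ≤ 4506 * P.hh t * P.jt t := by
    have : 2 * Lam ≤ 4506 * P.hh t := by linarith
    exact mul_le_mul_of_nonneg_right this hj0
  have c4 : P.De t * P.jt t ≤ P.hh t * P.jt t := mul_le_mul_of_nonneg_right hDe hj0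
  have c5 : ρ * P.jt t ≤ ρ := by nlinarith
  have c6 : 0 ≤ P.hh t * P.jt t := mul_nonneg hh0 hj0
  nlinarith

end Pool.Agent.Lib.MP_9cae81_PC
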