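import Mathlib

/-!
# The resolvent of an averaging operator (abstract, no formulas)

`X` is a set of states, `A` a finite set of moves with probabilities `p`, `act a x` the state after
the move `a`.  `PP p act h x = ∑ a, p a * h (act a x)` is the averaging operator and
`RV q G = (1 - q) ∑ q^k P^k G` its resolvent (`0 ≤ q < 1`).  With `μ = (1 - q) / q` one has
`P (RV G) - RV G = μ (RV G - G)`.
-/

set_option autoImplicit false

open Finset

namespace Pool.Agent.Lib.MP_9cae81_PC

variable {X A : Type} [Fintype A]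

/-- The averaging operator. -/
noncomputable def PP (p : A → ℝ) (act : A → X → X) (h : X → ℝ) (x : X) : ℝ :=
  ∑ a, p a * h (act a x)

/-- The resolvent. -/
noncomputable def RV (p : A → ℝ) (act : A → X → X) (q : ℝ) (G : X → ℝ) (x : X) : ℝ :=
  (1 - q) * ∑' k : ℕ, q ^ k * ((PP p act)^[k] G) x

/-- `p` is a probability distribution. -/
structure Pr (p : A → ℝ) : Prop where
  nn : ∀ a, 0 ≤ p a
  one : ∑ a, p a = 1

/-- `G` is bounded by `M`. -/
def Bd (M : ℝ) (G : X → ℝ) : Prop := ∀ x, |G x| ≤ M

section Basic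

variable {p : A → ℝ} {act : A → X → X} {q M M' : ℝ} {G G' : X → ℝ}

theorem Bd.nn (hX : Nonempty X) (h : Bd M G) : 0 ≤ M :=
  (abs_nonneg _).trans (h hX.some)

theorem PP_mono (hp : Pr p) (h : ∀ x, G x ≤ G' x) (x : X) : PP p act G x ≤ PP p act G' x :=
  Finset.sum_le_sum fun a _ => mul_le_mul_of_nonneg_left (h _) (hp.nn a)

theorem PP_const (hp : Pr p) (c : ℝ) (x : X) : PP p act (fun _ => c) x = c := by
  unfold PP
  rw [← Finset.sum_mul, hp.one, one_mul]

theorem PP_add (x : X) : PP p act (fun y => G y + G' y) x = PP p act G x + PP p act G' x := by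
  unfold PP
  rw [← Finset.sum_add_distrib]
  exact Finset.sum_congr rfl fun a _ => by ring

theorem PP_sub (x : X) : PP p act (fun y => G y - G' y) x = PP p act G x - PP p act G' x := by
  unfold PP
  rw [← Finset.sum_sub_distrib]
  exact Finset.sum_congr rfl fun a _ => by ring

theorem PP_mul (c : ℝ) (x : X) : PP p act (fun y => c * G y) x = c * PP p act G x := by
  unfold PP
  rw [Finset.mul_sum]
  exact Finset.sum_congr rfl fun a _ => by ring

theorem PP_nonneg (hp : Pr p) (h : ∀ x, 0 ≤ G x) (x : X) : 0 ≤ PP p act G x :=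
  Finset.sum_nonneg fun a _ => mul_nonneg (hp.nn a) (h _)

theorem PP_bd (hp : Pr p) (h : Bd M G) : Bd M (PP p act G) := by
  intro x
  unfold PP
  calc |∑ a, p a * G (act a x)| ≤ ∑ a, |p a * G (act a x)| := Finset.abs_sum_le_sum_abs _ _
    _ ≤ ∑ a, p a * M := Finset.sum_le_sum fun a _ => by
        rw [abs_mul, abs_of_nonneg (hp.nn a)]
        exact mul_le_mul_of_nonneg_left (h _) (hp.nn a)
    _ = M := by rw [← Finset.sum_mul, hp.one, one_mul]

theorem iter_bd (hp : Pr p) (h : Bd M G) (k : ℕ) : Bd M ((PP p act)^[k] G) := by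
  induction k with
  | zero => exact h
  | succ k ih =>
    rw [Function.iterate_succ_apply']
    exact PP_bd hp ih

theorem iter_mono (hp : Pr p) (h : ∀ x, G x ≤ G' x) (k : ℕ) (x : X) :
    ((PP p act)^[k] G) x ≤ ((PP p act)^[k] G') x := by
  induction k generalizing x with
  | zero => exact h x
  | succ k ih =>
    rw [Function.iterate_succ_apply', Function.iterate_succ_apply']
    exact PP_mono hp ih x

theorem iter_add (k : ℕ) (x : X) : ((PP p act)^[k] (fun y => G y + G' y)) x =
    ((PP p act)^[k] G) x + ((PP p act)^[k] G') x := by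
  induction k generalizing x with
  | zero => rfl
  | succ k ih =>
    rw [Function.iterate_succ_apply', Function.iterate_succ_apply', Function.iterate_succ_apply',
      ← PP_add]
    congr 1
    funext y
    exact ih y

theorem iter_mul (c : ℝ) (k : ℕ) (x : X) : ((PP p act)^[k] (fun y => c * G y)) x =
    c * ((PP p act)^[k] G) x := by
  induction k generalizing x with
  | zero => rfl
  | succ k ih =>
    rw [Function.iterate_succ_apply', Function.iterate_succ_apply', ← PP_mul]
    congr 1
    funext y
    exact ih y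

theorem iter_const (hp : Pr p) (c : ℝ) (k : ℕ) (x : X) :
    ((PP p act)^[k] (fun _ => c)) x = c := by
  induction k generalizing x with
  | zero => rfl
  | succ k ih =>
    rw [Function.iterate_succ_apply']
    rw [show (PP p act)^[k] (fun _ => c) = fun _ : X => c from funext ih]
    exact PP_const hp c x

theorem RV_summable (hp : Pr p) (hq : 0 ≤ q) (hq1 : q < 1) (h : Bd M G) (x : X) :
    Summable fun k : ℕ => q ^ k * ((PP p act)^[k] G) x := by
  refine Summable.of_norm_bounded (g := fun k : ℕ => q ^ k * M)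
    ((summable_geometric_of_lt_one hq hq1).mul_right M) fun k => ?_
  rw [Real.norm_eq_abs, abs_mul, abs_of_nonneg (pow_nonneg hq k)]
  exact mul_le_mul_of_nonneg_left (iter_bd hp h k x) (pow_nonneg hq k)

theorem RV_mono (hp : Pr p) (hq : 0 ≤ q) (hq1 : q < 1) (hG : Bd M G) (hG' : Bd M' G')
    (h : ∀ x, G x ≤ G' x) (x : X) : RV p act q G x ≤ RV p act q G' x := by
  unfold RV
  refine mul_le_mul_of_nonneg_left ?_ (by linarith)
  exact (RV_summable hp hq hq1 hG x).tsum_le_tsum
    (fun k => mul_le_mul_of_nonneg_left (iter_mono hp h k x) (pow_nonneg hq k))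
    (RV_summable hp hq hq1 hG' x)

theorem RV_add (hp : Pr p) (hq : 0 ≤ q) (hq1 : q < 1) (hG : Bd M G) (hG' : Bd M' G') (x : X) :
    RV p act q (fun y => G y + G' y) x = RV p act q G x + RV p act q G' x := by
  unfold RV
  rw [← mul_add, ← (RV_summable hp hq hq1 hG x).tsum_add (RV_summable hp hq hq1 hG' x)]
  congr 1
  exact tsum_congr fun k => by rw [iter_add]; ring

theorem RV_mul (c : ℝ) (x : X) :
    RV p act q (fun y => c * G y) x = c * RV p act q G x := by
  unfold RV
  have h : ∑' k : ℕ, q ^ k * ((PP p act)^[k] (fun y => c * G y)) x =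
      c * ∑' k : ℕ, q ^ k * ((PP p act)^[k] G) x := by
    rw [← tsum_mul_left]
    exact tsum_congr fun k => by rw [iter_mul]; ring
  rw [h]
  ring

theorem RV_sub (hp : Pr p) (hq : 0 ≤ q) (hq1 : q < 1) (hG : Bd M G) (hG' : Bd M' G') (x : X) :
    RV p act q (fun y => G y - G' y) x = RV p act q G x - RV p act q G' x := by
  have h2 : Bd M' (fun y => (-1) * G' y) := fun y => by
    rw [abs_mul]; simpa using hG' y
  have := RV_add (act := act) hp hq hq1 hG h2 x
  rw [RV_mul] at this
  rw [show (fun y => G y - G' y) = fun y => G y + (-1) * G' y from funext fun y => by ring, this]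
  ring

theorem RV_const (hp : Pr p) (hq : 0 ≤ q) (hq1 : q < 1) (c : ℝ) (x : X) :
    RV p act q (fun _ => c) x = c := by
  unfold RV
  simp only [iter_const hp]
  rw [tsum_mul_right, tsum_geometric_of_lt_one hq hq1]
  have : 1 - q ≠ 0 := by linarith
  field_simp

theorem RV_nonneg (hp : Pr p) (hq : 0 ≤ q) (hq1 : q < 1) (hG : Bd M G) (h : ∀ x, 0 ≤ G x)
    (x : X) : 0 ≤ RV p act q G x := by
  have h0 : Bd 0 (fun _ : X => (0 : ℝ)) := fun _ => by simp
  have := RV_mono (act := act) hp hq hq1 h0 hG (fun x => h x) x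
  rwa [RV_const hp hq hq1] at this

theorem RV_le (hp : Pr p) (hq : 0 ≤ q) (hq1 : q < 1) (hG : Bd M G) {c : ℝ} (h : ∀ x, G x ≤ c)
    (x : X) : RV p act q G x ≤ c := by
  have h0 : Bd |c| (fun _ : X => c) := fun _ => le_refl _
  have := RV_mono (act := act) hp hq hq1 hG h0 (fun x => h x) x
  rwa [RV_const hp hq hq1] at this

theorem RV_bd (hp : Pr p) (hq : 0 ≤ q) (hq1 : q < 1) (hG : Bd M G) : Bd M (RV p act q G) := by
  intro x
  rw [abs_le]
  constructor
  · have h1 : Bd M (fun y => (-1) * G y) := fun y => by rw [abs_mul]; simpa using hG y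
    have := RV_le (act := act) hp hq hq1 h1 (c := M)
      (fun y => by have := (abs_le.1 (hG y)).1; linarith) x
    rw [RV_mul] at this
    linarith
  · exact RV_le hp hq hq1 hG (fun y => (abs_le.1 (hG y)).2) x

/-- First step decomposition. -/
theorem RV_step (hp : Pr p) (hq : 0 ≤ q) (hq1 : q < 1) (hG : Bd M G) (x : X) :
    RV p act q G x = (1 - q) * G x + q * PP p act (RV p act q G) x := by
  have hs := RV_summable (act := act) hp hq hq1 hG
  have h1 : PP p act (RV p act q G) x =
      (1 - q) * ∑' k : ℕ, q ^ k * ((PP p act)^[k + 1] G) x := by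
    have : ∀ a, p a * ((1 - q) * ∑' k : ℕ, q ^ k * ((PP p act)^[k] G) (act a x)) =
        (1 - q) * ∑' k : ℕ, p a * (q ^ k * ((PP p act)^[k] G) (act a x)) := fun a => by
      rw [tsum_mul_left]; ring
    have e0 : PP p act (RV p act q G) x =
        ∑ a, (1 - q) * ∑' k : ℕ, p a * (q ^ k * ((PP p act)^[k] G) (act a x)) :=
      Finset.sum_congr rfl fun a _ => this a
    rw [e0, ← Finset.mul_sum,
      ← Summable.tsum_finsetSum (fun a _ => (hs (act a x)).mul_left (p a))]
    congr 1
    refine tsum_congr fun k => ?_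
    rw [Function.iterate_succ_apply']
    unfold PP
    rw [Finset.mul_sum]
    exact Finset.sum_congr rfl fun a _ => by ring
  rw [h1]
  unfold RV
  rw [(hs x).tsum_eq_zero_add]
  simp only [pow_zero, one_mul, Function.iterate_zero, id_eq]
  have h2 : ∑' k : ℕ, q ^ (k + 1) * ((PP p act)^[k + 1] G) x =
      q * ∑' k : ℕ, q ^ k * ((PP p act)^[k + 1] G) x := by
    rw [← tsum_mul_left]
    exact tsum_congr fun k => by ring
  rw [h2]
  ring

/-- The generator applied to the resolvent: `P V - V = μ (V - G)`, `μ = (1 - q) / q`. -/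
theorem PP_RV (hp : Pr p) (hq : 0 < q) (hq1 : q < 1) (hG : Bd M G) (x : X) :
    PP p act (RV p act q G) x =
      RV p act q G x + (1 - q) / q * (RV p act q G x - G x) := by
  have := RV_step (act := act) hp hq.le hq1 hG x
  field_simp
  linarith

/-- Uniqueness: a bounded solution of `P h = h + μ (h - G)` is the resolvent. -/
theorem RV_unique (hp : Pr p) (hq : 0 ≤ q) (hq1 : q < 1) (hG : Bd M G) {h : X → ℝ}
    (hh : Bd M' h) (heq : ∀ x, h x = (1 - q) * G x + q * PP p act h x) (x : X) :
    h x = RV p act q G x := by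
  have key : ∀ k : ℕ, ∀ y, |h y - RV p act q G y| ≤ q ^ k * (M' + M) := by
    intro k
    induction k with
    | zero =>
      intro y
      rw [pow_zero, one_mul]
      exact (abs_sub _ _).trans (add_le_add (hh y) (RV_bd hp hq hq1 hG y))
    | succ k ih =>
      intro y
      rw [heq y, RV_step hp hq hq1 hG y]
      rw [show (1 - q) * G y + q * PP p act h y -
          ((1 - q) * G y + q * PP p act (RV p act q G) y) =
          q * PP p act (fun z => h z - RV p act q G z) y by rw [PP_sub]; ring]
      rw [abs_mul, abs_of_nonneg hq, pow_succ, mul_comm (q ^ k) q, mul_assoc]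
      exact mul_le_mul_of_nonneg_left (PP_bd hp ih y) hq
  have hlim : Filter.Tendsto (fun k : ℕ => q ^ k * (M' + M)) Filter.atTop (nhds 0) := by
    have := (tendsto_pow_atTop_nhds_zero_of_lt_one hq hq1).mul_const (M' + M)
    rwa [zero_mul] at this
  have h0 : |h x - RV p act q G x| ≤ 0 :=
    ge_of_tendsto hlim (Filter.Eventually.of_forall fun k => key k x)
  linarith [abs_nonpos_iff.1 h0]

/-- If `G = c` on a set of states that is closed under the moves, so is the resolvent. -/
theorem RV_eq_on {Z : X → Prop} {c : ℝ} (hp : Pr p) (hq : 0 ≤ q) (hq1 : q < 1)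
    (hZ : ∀ x a, Z x → Z (act a x)) (h : ∀ x, Z x → G x = c) {x : X} (hx : Z x) :
    RV p act q G x = c := by
  have key : ∀ k : ℕ, ∀ y, Z y → ((PP p act)^[k] G) y = c := by
    intro k
    induction k with
    | zero => exact h
    | succ k ih =>
      intro y hy
      rw [Function.iterate_succ_apply']
      unfold PP
      have : ∀ a, p a * ((fun h x => ∑ a, p a * h (act a x))^[k] G) (act a y) = p a * c :=
        fun a => by
          have := ih (act a y) (hZ y a hy)
          unfold PP at this
          rw [this]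
      rw [Finset.sum_congr rfl fun a _ => this a, ← Finset.sum_mul, hp.one, one_mul]
  unfold RV
  rw [tsum_congr fun k => by rw [key k x hx]]
  rw [tsum_mul_right, tsum_geometric_of_lt_one hq hq1]
  have : 1 - q ≠ 0 := by linarith
  field_simp

/-- Monotonicity along a map of states that commutes with the moves. -/
theorem iter_comm {φ : X → X} (hφ : ∀ a x, act a (φ x) = φ (act a x)) (k : ℕ) (x : X) :
    ((PP p act)^[k] G) (φ x) = ((PP p act)^[k] (fun y => G (φ y))) x := by
  induction k generalizing x with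
  | zero => rfl
  | succ k ih =>
    rw [Function.iterate_succ_apply', Function.iterate_succ_apply']
    unfold PP
    refine Finset.sum_congr rfl fun a _ => ?_
    rw [hφ]
    congr 1
    exact ih (act a x)

theorem RV_comm {φ : X → X} (hφ : ∀ a x, act a (φ x) = φ (act a x)) (x : X) :
    RV p act q G (φ x) = RV p act q (fun y => G (φ y)) x := by
  unfold RV
  congr 1
  exact tsum_congr fun k => by rw [iter_comm hφ]

end Basic

/-! ### Carré du champ -/

section Carre

variable {p : A → ℝ} {act : A → X → X} {q M M' : ℝ} {G : X → ℝ}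

/-- The square field of `w`. -/
noncomputable def Gam (p : A → ℝ) (act : A → X → X) (w : X → ℝ) (x : X) : ℝ :=
  ∑ a, p a * (w (act a x) - w x) ^ 2

theorem Gam_nonneg (hp : Pr p) (w : X → ℝ) (x : X) : 0 ≤ Gam p act w x :=
  Finset.sum_nonneg fun a _ => mul_nonneg (hp.nn a) (sq_nonneg _)

theorem PP_sq (hp : Pr p) (w : X → ℝ) (x : X) :
    PP p act (fun y => w y ^ 2) x - w x ^ 2 =
      2 * w x * (PP p act w x - w x) + Gam p act w x := by
  unfold PP Gam
  have h1 : ∑ a, p a * (w (act a x) - w x) ^ 2 =
      ∑ a, p a * w (act a x) ^ 2 - 2 * w x * ∑ a, p a * w (act a x) + w x ^ 2 := by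
    calc ∑ a, p a * (w (act a x) - w x) ^ 2
        = ∑ a, (p a * w (act a x) ^ 2 - 2 * w x * (p a * w (act a x)) + w x ^ 2 * p a) :=
          Finset.sum_congr rfl fun a _ => by ring
      _ = _ := by
          rw [Finset.sum_add_distrib, Finset.sum_sub_distrib, ← Finset.mul_sum, ← Finset.mul_sum,
            hp.one, mul_one]
  rw [h1]
  ring

/-- Weighted version: if `v` does not decrease under the moves, the square field of `w`, weighted
with `v ≥ 0`, is at most `P (v w²) - v w² - 2 v w (P w - w)`. -/
theorem weighted_carre (hp : Pr p) (v w : X → ℝ) (x : X) (hv : ∀ a, v x ≤ v (act a x)) :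
    v x * Gam p act w x ≤
      PP p act (fun y => v y * w y ^ 2) x - v x * w x ^ 2 -
        2 * v x * w x * (PP p act w x - w x) := by
  have h1 := PP_sq (act := act) hp w x
  have h2 : v x * PP p act (fun y => w y ^ 2) x ≤ PP p act (fun y => v y * w y ^ 2) x := by
    unfold PP
    rw [Finset.mul_sum]
    refine Finset.sum_le_sum fun a _ => ?_
    have := mul_le_mul_of_nonneg_right (hv a) (mul_nonneg (hp.nn a) (sq_nonneg (w (act a x))))
    linarith
  have h3 : Gam p act w x = PP p act (fun y => w y ^ 2) x - w x ^ 2 -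
      2 * w x * (PP p act w x - w x) := by linarith
  rw [h3]
  have h4 : v x * (PP p act (fun y => w y ^ 2) x - w x ^ 2 - 2 * w x * (PP p act w x - w x)) =
      v x * PP p act (fun y => w y ^ 2) x - v x * w x ^ 2 -
        2 * v x * w x * (PP p act w x - w x) := by ring
  linarith

/-- For the resolvent `w` of an indicator `G` and a nondecreasing `v ≥ 0` with `w = 1 - v` on
`{G = 1}`: `v Γ(w) ≤ (P - 1)(v w²) + 2 μ v² (1 - v) G`. -/
theorem carre_resolvent (hp : Pr p) (hq : 0 < q) (hq1 : q < 1) (hG : Bd M G) (v : X → ℝ) (x : X)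
    (hv0 : 0 ≤ v x) (hv : ∀ a, v x ≤ v (act a x))
    (h01 : G x = 0 ∨ (G x = 1 ∧ RV p act q G x = 1 - v x)) :
    v x * Gam p act (RV p act q G) x ≤
      PP p act (fun y => v y * RV p act q G y ^ 2) x - v x * RV p act q G x ^ 2 +
        2 * ((1 - q) / q) * v x ^ 2 * (1 - v x) * G x := by
  have h1 := weighted_carre (act := act) hp v (RV p act q G) x hv
  have h2 := PP_RV (act := act) hp hq hq1 hG x
  set μ := (1 - q) / q with hμ
  have hμ0 : 0 ≤ μ := div_nonneg (by linarith) hq.le
  set w := RV p act q G x with hw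
  rw [h2] at h1
  rcases h01 with h | ⟨h, h'⟩
  · rw [h] at h1 ⊢
    have : 0 ≤ v x * (μ * w ^ 2) := mul_nonneg hv0 (mul_nonneg hμ0 (sq_nonneg _))
    nlinarith [h1, this]
  · rw [h] at h1 ⊢
    rw [h'] at h1 ⊢
    nlinarith [h1]

end Carre

end Pool.Agent.Lib.MP_9cae81_PC
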