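import Pool.Agent.Lib.MP_9cae81_R.I3

/-!
# From the model with independent clauses to the critical mixing parameter
-/

open Finset Filter MeasureTheory
open scoped BigOperators Topology

namespace Pool.Agent.Lib.MP_9cae81_PC

open Pool.Agent.Lib.MP_9cae81_R

/-- If for every `δ > 0` the probability of unsatisfiability tends to `0` at the densities
`(1 - δ, y0)` then for every `p < y0 / (1 + y0)` and every `r` with `r (1 - p) < 1` the formula
`F_{n, ⌊rn⌋}(p)` is satisfiable with high probability. -/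
theorem sat_whp {y0 : ℝ} (hy0 : 0 < y0)
    (H : ∀ δ : ℝ, 0 < δ → δ ≤ 1 / 10 → Tendsto (fun n => ZZ n 0 (1 - δ) y0) atTop (𝓝 0))
    {p r : ℝ} (hp : 0 ≤ p) (hp1 : p < y0 / (1 + y0)) (hr : 0 < r) (h : r * (1 - p) < 1) :
    Tendsto (fun n : ℕ => satProb n ⌊r * (n : ℝ)⌋₊ p) atTop (𝓝 1) := by
  have hy1 : 0 < 1 + y0 := by linarith
  have hp2 : p * (1 + y0) < y0 := by rwa [lt_div_iff₀ hy1] at hp1
  have hp3 : p < 1 := by
    have : y0 / (1 + y0) < 1 := by rw [div_lt_one hy1]; linarith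
    linarith
  -- `p r < y0`
  have hpr : p * r < y0 := by
    have h1 : p < y0 * (1 - p) := by nlinarith
    have h2 : p * r < y0 * (1 - p) * r := mul_lt_mul_of_pos_right h1 hr
    have h3 : y0 * (1 - p) * r = y0 * (r * (1 - p)) := by ring
    nlinarith
  obtain ⟨δ, hδ, hδ1, hδ2⟩ : ∃ δ : ℝ, 0 < δ ∧ δ ≤ 1 / 10 ∧ (1 - p) * r < 1 - δ := by
    refine ⟨min (1 / 10) ((1 - r * (1 - p)) / 2), lt_min (by norm_num) (by linarith),
      min_le_left _ _, ?_⟩
    have := min_le_right (1 / 10 : ℝ) ((1 - r * (1 - p)) / 2)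
    nlinarith
  exact transfer hp hp3.le hr hδ2 hpr (H δ hδ hδ1)

/-- The critical mixing parameter is larger than `2/5`. -/
theorem crit_gt {ε0 : ℝ} (h0 : 0 < ε0)
    (H : ∀ δ : ℝ, 0 < δ → δ ≤ 1 / 10 →
      Tendsto (fun n => ZZ n 0 (1 - δ) (2 / 3 * (1 + ε0))) atTop (𝓝 0)) :
    2 / 5 < sSup {p : ℝ | 0 ≤ p ∧ p ≤ 1 ∧ ∀ r : ℝ, 0 < r → r * (1 - p) < 1 →
      Tendsto (fun n : ℕ => satProb n ⌊r * (n : ℝ)⌋₊ p) atTop (𝓝 1)} := by
  have hy0 : 0 < 2 / 3 * (1 + ε0) := by positivity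
  have hlt : 2 / 5 < 2 / 3 * (1 + ε0) / (1 + 2 / 3 * (1 + ε0)) := by
    rw [lt_div_iff₀ (by positivity)]
    linarith
  obtain ⟨p, hp, hp1⟩ := exists_between hlt
  have hp2 : p < 1 := by
    refine hp1.trans ?_
    rw [div_lt_one (by positivity)]
    linarith
  refine lt_csSup_of_lt ⟨1, fun q hq => hq.2.1⟩ (a := p) ⟨by linarith, hp2.le, ?_⟩ hp
  intro r hr h
  exact sat_whp hy0 H (by linarith) hp1 hr h

end Pool.Agent.Lib.MP_9cae81_PC
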